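import Pool.Agent.Lib.MP_1f45fc_nt.T.Core

/-!
# Lehmer's polynomial and the range of `gam t`
-/

set_option autoImplicit false

namespace Pool.Agent.MP1f45fc.T

/-- the coefficients of Lehmer's polynomial -/
def leh : List ℤ := [1, 1, 0, -1, -1, -1, -1, -1, 0, 1, 1]

/-- the trace polynomial of Lehmer's polynomial -/
def lehQ (g : ℝ) : ℝ := g ^ 5 + g ^ 4 - 5 * g ^ 3 - 5 * g ^ 2 + 4 * g + 3

lemma evS_leh (t : ℝ) : evS t 0 leh = Real.exp t ^ 5 * lehQ (gam t) := by
  have h0 : Real.exp t ≠ 0 := (Real.exp_pos t).ne'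
  have hg : gam t = Real.exp t + (Real.exp t)⁻¹ := by
    unfold gam
    rw [Real.cosh_eq, Real.exp_neg]; ring
  have e : ∀ n : ℕ, Real.exp ((n : ℝ) * t) = Real.exp t ^ n := fun n => by
    rw [← Real.exp_nat_mul]
  unfold leh lehQ
  simp only [evS, zero_add, Nat.reduceAdd]
  rw [hg]
  simp only [e]
  field_simp
  push_cast
  ring

lemma lehQ_mono {x y : ℝ} (hx : 2 ≤ x) (hxy : x < y) : lehQ x < lehQ y := by
  unfold lehQ
  obtain ⟨s, rfl⟩ : ∃ s, x = 2 + s := ⟨x - 2, by ring⟩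
  obtain ⟨d, rfl⟩ : ∃ d, y = 2 + s + d := ⟨y - (2 + s), by ring⟩
  have hs : 0 ≤ s := by linarith
  have hd : 0 < d := by linarith
  have h : (2 + s + d) ^ 5 + (2 + s + d) ^ 4 - 5 * (2 + s + d) ^ 3 - 5 * (2 + s + d) ^ 2
      + 4 * (2 + s + d) + 3 - ((2 + s) ^ 5 + (2 + s) ^ 4 - 5 * (2 + s) ^ 3 - 5 * (2 + s) ^ 2
      + 4 * (2 + s) + 3) = d * (36 + (69 * (2 * s + d)) + 43 * (3 * s ^ 2 + 3 * s * d + d ^ 2)
      + 11 * (4 * s ^ 3 + 6 * s ^ 2 * d + 4 * s * d ^ 2 + d ^ 3)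
      + (5 * s ^ 4 + 10 * s ^ 3 * d + 10 * s ^ 2 * d ^ 2 + 5 * s * d ^ 3 + d ^ 4)) := by ring
  have h2 : 0 < d * (36 + (69 * (2 * s + d)) + 43 * (3 * s ^ 2 + 3 * s * d + d ^ 2)
      + 11 * (4 * s ^ 3 + 6 * s ^ 2 * d + 4 * s * d ^ 2 + d ^ 3)
      + (5 * s ^ 4 + 10 * s ^ 3 * d + 10 * s ^ 2 * d ^ 2 + 5 * s * d ^ 3 + d ^ 4)) := by positivity
  linarith

lemma two_le_gam (t : ℝ) : 2 ≤ gam t := by
  unfold gam
  linarith [Real.one_le_cosh t]

lemma gam_lt {s t : ℝ} (hs : 0 ≤ s) (hst : s < t) : gam s < gam t := by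
  unfold gam
  have : Real.cosh s < Real.cosh t := by
    rw [Real.cosh_lt_cosh, abs_of_nonneg hs, abs_of_pos (by linarith)]
    exact hst
  linarith

lemma gam_le {s t : ℝ} (hs : 0 ≤ s) (hst : s ≤ t) : gam s ≤ gam t := by
  rcases hst.lt_or_eq with h | h
  · exact (gam_lt hs h).le
  · rw [h]

lemma gam_half (T : ℝ) : gam (T / 2) ^ 2 = 2 + gam T := by
  unfold gam
  have h := Real.cosh_two_mul (T / 2)
  have h2 := Real.cosh_sq (T / 2)
  have h3 : 2 * (T / 2) = T := by ring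
  rw [h3] at h
  nlinarith

/-- `T = log tau10`. -/
structure IsT (T : ℝ) : Prop where
  pos : 0 < T
  root : evS T 0 leh = 0

lemma IsT.gam_root {T : ℝ} (h : IsT T) : lehQ (gam T) = 0 := by
  have h1 := h.root
  rw [evS_leh] at h1
  rcases mul_eq_zero.mp h1 with h2 | h2
  · exact absurd h2 (pow_ne_zero _ (Real.exp_pos T).ne')
  · exact h2

lemma IsT.lower {T : ℝ} (h : IsT T) : 2.02641794 < gam T := by
  by_contra hcon
  push Not at hcon
  have h1 := h.gam_root
  rcases hcon.lt_or_eq with h2 | h2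
  · have h3 := lehQ_mono (two_le_gam T) h2
    rw [h1] at h3
    unfold lehQ at h3
    norm_num at h3
  · rw [h2] at h1
    unfold lehQ at h1
    norm_num at h1

lemma IsT.upper {T : ℝ} (h : IsT T) : gam T < 2.02641795 := by
  by_contra hcon
  push Not at hcon
  have h1 := h.gam_root
  rcases hcon.lt_or_eq with h2 | h2
  · have h3 := lehQ_mono (by norm_num) h2
    rw [h1] at h3
    unfold lehQ at h3
    norm_num at h3
  · rw [← h2] at h1
    unfold lehQ at h1
    norm_num at h1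

lemma IsT.half_lower {T : ℝ} (h : IsT T) : 2.006593 < gam (T / 2) := by
  have h1 := gam_half T
  have h2 := h.lower
  have h3 := two_le_gam (T / 2)
  by_contra hcon
  push Not at hcon
  nlinarith

lemma IsT.range {T t : ℝ} (h : IsT T) (h1 : T / 2 ≤ t) (h2 : t < T) :
    2.006593 < gam t ∧ gam t < 2.02641795 ∧ evS t 0 leh ≠ 0 := by
  have hT := h.pos
  have ht : 0 ≤ t := by linarith
  refine ⟨lt_of_lt_of_le h.half_lower (gam_le (by linarith) h1), (gam_lt ht h2).trans h.upper, ?_⟩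
  rw [evS_leh]
  refine mul_ne_zero (pow_ne_zero _ (Real.exp_pos t).ne') ?_
  have := lehQ_mono (two_le_gam t) (gam_lt ht h2)
  rw [h.gam_root] at this
  exact this.ne

lemma IsT.upper32 {T : ℝ} (h : IsT T) : 4294967296 * gam T < 8703398820 := by
  by_contra hcon
  push Not at hcon
  have h1 := h.gam_root
  have hcon' : (8703398820 / 4294967296 : ℝ) ≤ gam T := by
    rw [div_le_iff₀ (by norm_num)]; linarith
  rcases hcon'.lt_or_eq with h2 | h2
  · have h3 := lehQ_mono (by norm_num) h2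
    rw [h1] at h3
    unfold lehQ at h3
    norm_num at h3
  · rw [← h2] at h1
    unfold lehQ at h1
    norm_num at h1

lemma IsT.lower32 {T : ℝ} (h : IsT T) : 8618253967 < 4294967296 * gam (T / 2) := by
  have h1 := gam_half T
  have h3 := two_le_gam (T / 2)
  by_contra hcon
  push Not at hcon
  have h4 : gam T ≤ (8618253967 / 4294967296 : ℝ) ^ 2 - 2 := by
    have h5 : gam (T / 2) ≤ 8618253967 / 4294967296 := by
      rw [le_div_iff₀ (by norm_num)]; linarith
    have h6 : gam (T / 2) ^ 2 ≤ (8618253967 / 4294967296 : ℝ) ^ 2 :=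
      pow_le_pow_left₀ (by linarith) h5 2
    linarith
  have h7 := h.gam_root
  rcases h4.lt_or_eq with h2 | h2
  · have h3 := lehQ_mono (two_le_gam T) h2
    rw [h7] at h3
    unfold lehQ at h3
    norm_num at h3
  · rw [h2] at h7
    unfold lehQ at h7
    norm_num at h7

/-- The range, scaled by `2^32`. -/
lemma IsT.range32 {T t : ℝ} (h : IsT T) (h1 : T / 2 ≤ t) (h2 : t < T) :
    8618253967 < 4294967296 * gam t ∧ 4294967296 * gam t < 8703398820 := by
  have hT := h.pos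
  have h3 := gam_le (by linarith) h1
  have h4 := gam_lt (by linarith) h2
  have h5 := h.lower32
  have h6 := h.upper32
  constructor <;> linarith

/-- The logarithm of a root `l > 1` of Lehmer's polynomial. -/
lemma isT_log {l : ℝ} (hl : 1 < l)
    (h : l ^ 10 + l ^ 9 - l ^ 7 - l ^ 6 - l ^ 5 - l ^ 4 - l ^ 3 + l + 1 = 0) :
    IsT (Real.log l) := by
  have hl0 : 0 < l := by linarith
  refine ⟨Real.log_pos hl, ?_⟩
  have e : ∀ n : ℕ, Real.exp ((n : ℝ) * Real.log l) = l ^ n := fun n => by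
    rw [Real.exp_nat_mul, Real.exp_log hl0]
  unfold leh
  simp only [evS, e]
  push_cast
  linear_combination h

end Pool.Agent.MP1f45fc.T
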