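import Pool.Agent.Lib.MP_1f45fc_nt.T.Gap

/-!
# Reductions around the trees

`Fin0`: power trick. `last_run`: the last run of zeros. `first_dev`: first deviation from a comb.
`reduce`: the three tree statements imply that there is no sequence of the class with `t < T`.
-/

set_option autoImplicit false

namespace Pool.Agent.MP1f45fc.T

/-- the comb of period `e` -/
def comb (e j : ℕ) : ℤ := if e ∣ j then 1 else 0

lemma comb_le (e j : ℕ) : comb e j ≤ 1 := by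
  unfold comb; split_ifs <;> norm_num

/-- Power trick: some multiple of `t` lies in the upper half of `(0, T)`. -/
lemma exists_pow {t T : ℝ} (ht : 0 < t) (hT : t < T) :
    ∃ n : ℕ, 1 ≤ n ∧ T / 2 ≤ n * t ∧ n * t < T := by
  have hex : ∃ n : ℕ, T ≤ n * t := by
    obtain ⟨n, hn⟩ := exists_nat_ge (T / t)
    exact ⟨n, by rwa [div_le_iff₀ ht] at hn⟩
  classical
  have h1 := Nat.find_spec hex
  set N := Nat.find hex with hN
  have hN2 : 2 ≤ N := by
    by_contra hcon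
    have h2 : N ≤ 1 := by omega
    have h3 : (N : ℝ) ≤ 1 := by exact_mod_cast h2
    nlinarith
  have h2 : ¬ T ≤ ((N - 1 : ℕ) : ℝ) * t := Nat.find_min hex (by omega)
  refine ⟨N - 1, by omega, ?_, not_le.1 h2⟩
  have h3 : ((N - 1 : ℕ) : ℝ) = (N : ℝ) - 1 := by
    rw [Nat.cast_sub (by omega)]; norm_num
  have h4 : (2 : ℝ) ≤ N := by exact_mod_cast hN2
  rw [h3]
  nlinarith

/-- The last run of `D` zeros. -/
lemma last_run {r : ℕ → ℤ} {W D : ℕ} (hD : 1 ≤ D) (hDW : D ≤ W) (hnn : ∀ k, 0 ≤ r k)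
    (hub : ∃ k0, ∀ k, k0 ≤ k → 0 < r k) (h0 : ∀ j, 1 ≤ j → j ≤ W → r j = 0) :
    ∃ K, W < K ∧ (∀ j, K - D ≤ j → j < K → r j = 0) ∧ 1 ≤ r K ∧
      ∀ m, K ≤ m → ∃ i, i < D ∧ r (m + i) ≠ 0 := by
  obtain ⟨k0, hk0⟩ := hub
  classical
  let P : ℕ → Prop := fun k => D + 1 ≤ k ∧ ∀ j, k - D ≤ j → j < k → r j = 0
  have hP1 : P (W + 1) := by
    refine ⟨by omega, fun j h1 h2 => h0 j (by omega) (by omega)⟩
  have hbd : ∀ k, P k → k ≤ k0 := by
    intro k hk
    by_contra hcon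
    have h1 := hk.2 (k - 1) (by omega) (by have := hk.1; omega)
    have h2 := hk0 (k - 1) (by omega)
    omega
  have hWk : W + 1 ≤ k0 := hbd _ hP1
  have hspec : P (Nat.findGreatest P k0) := Nat.findGreatest_spec hWk hP1
  have hmax : ∀ k, P k → k ≤ Nat.findGreatest P k0 := fun k hk =>
    Nat.le_findGreatest (hbd k hk) hk
  set K := Nat.findGreatest P k0 with hK
  have hWK : W + 1 ≤ K := hmax _ hP1
  refine ⟨K, by omega, hspec.2, ?_, ?_⟩
  · have h1 : r K ≠ 0 := by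
      intro h
      have : P (K + 1) := by
        refine ⟨by omega, fun j h1 h2 => ?_⟩
        rcases Nat.lt_or_ge j K with h3 | h3
        · exact hspec.2 j (by omega) h3
        · have : j = K := by omega
          rw [this, h]
      have := hmax _ this
      omega
    have := hnn K
    omega
  · intro m hm
    by_contra hcon
    push Not at hcon
    have : P (m + D) := by
      refine ⟨by omega, fun j h1 h2 => ?_⟩
      have := hcon (j - m) (by omega)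
      rwa [Nat.add_sub_cancel' (by omega)] at this
    have := hmax _ this
    omega

/-- The first deviation from a comb. -/
lemma first_dev {r : ℕ → ℤ} {e N : ℕ} (hpos : ∃ k, 1 ≤ k ∧ 1 < r k) (h0 : ∀ j, 1 ≤ j → j ≤ N → r j = comb e j) :
    ∃ K, N < K ∧ (∀ j, 1 ≤ j → j < K → r j = comb e j) ∧ r K ≠ comb e K := by
  classical
  have hex : ∃ k, 1 ≤ k ∧ r k ≠ comb e k := by
    obtain ⟨k, hk, hk2⟩ := hpos
    exact ⟨k, hk, fun h => by have := comb_le e k; omega⟩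
  have h1 := Nat.find_spec hex
  refine ⟨Nat.find hex, ?_, ?_, h1.2⟩
  · by_contra hcon
    exact h1.2 (h0 _ h1.1 (by omega))
  · intro j hj hjK
    by_contra hcon
    exact Nat.find_min hex hjK ⟨hj, hcon⟩

/-- The three tree statements give the bound for all sequences of the class. `S t` is the
restriction on `t` under which the trees have been checked. -/
theorem reduce {T : ℝ} {W D : ℕ} {Dc : ℕ → ℕ} (hD : 1 ≤ D) (hDW : D ≤ W)
    (hA : ∀ (t : ℝ) (r : ℕ → ℤ), Max t r → T / 2 ≤ t → t < T →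
      (∀ j, 1 ≤ j → j ≤ W → r j = 0) ∨
      ∃ e, 1 ≤ e ∧ e ≤ W ∧ ∀ j, 1 ≤ j → j ≤ Dc e → r j = comb e j)
    (hC : ∀ (t : ℝ) (r : ℕ → ℤ), Max t r → T / 2 ≤ t → t < T → ∀ e, 1 ≤ e → e ≤ W →
      ∀ K, Dc e < K → (∀ j, 1 ≤ j → j < K → r j = comb e j) → r K = comb e K)
    (hB : ∀ (t : ℝ) (r : ℕ → ℤ), Max t r → T / 2 ≤ t → t < T → ∀ K, W < K →
      (∀ j, 1 ≤ j → j ≤ W → r j = 0) → (∀ j, K - D ≤ j → j < K → r j = 0) → 1 ≤ r K →
      ∃ m, K ≤ m ∧ ∀ i, i < D → r (m + i) = 0)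
    (hunb : ∀ (t : ℝ) (r : ℕ → ℤ), Max t r → ∀ M : ℤ, ∃ k0, ∀ k, k0 ≤ k → M < r k)
    {t : ℝ} {r : ℕ → ℤ} {p : ℝ} (ht : 0 < t) (hr : IsSeq t r p) : T ≤ t := by
  by_contra hcon
  push Not at hcon
  obtain ⟨n, hn1, hn2, hn3⟩ := exists_pow ht hcon
  have hn0 : (0 : ℝ) < n := by exact_mod_cast hn1
  obtain ⟨s, hs⟩ := exists_max (t := n * t) (by positivity) (hr.pow n)
  have hu := hunb _ _ hs
  rcases hA _ _ hs hn2 hn3 with h0 | ⟨e, he1, heW, hc⟩
  · obtain ⟨K, hWK, hz, hK1, hrun⟩ := last_run hD hDW hs.nonneg (hu 0) h0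
    obtain ⟨m, hm, hm2⟩ := hB _ _ hs hn2 hn3 K hWK h0 hz hK1
    obtain ⟨i, hi, hi2⟩ := hrun m hm
    exact hi2 (hm2 i hi)
  · obtain ⟨k0, hk0⟩ := hu 1
    obtain ⟨K, hK1, hK2, hK3⟩ := first_dev (N := Dc e) ⟨k0 + 1, by omega, hk0 _ (by omega)⟩ hc
    exact hK3 (hC _ _ hs hn2 hn3 e he1 heW K hK1 hK2)

end Pool.Agent.MP1f45fc.T
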