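import Mathlib

/-!
# The kernel checker for window trees

Vectors are packed: `V = n + 128 * ∑ (a_i + W / 2) * W ^ i`.  A state is a near window
`r_0, ..., r_u`, a far window `r_(K-a), ..., r_(K+b-1)` and an interval `lo ≤ 2^32 γ < hi`.
The base of the packed windows is `T = 2^64 = 18446744073709551616`.
-/

set_option autoImplicit false

namespace Pool.Agent.MP1f45fc.T

/-- digit `i` of `x` -/
def dgt (W x i : ℕ) : ℕ := Nat.mod (Nat.div x (Nat.pow W i)) W

/-- `∑ d_i T^i` -/
noncomputable def fwd (W x n : ℕ) : ℕ :=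
  Nat.rec (motive := fun _ => ℕ) 0
    (fun i ih => Nat.add ih (Nat.mul (dgt W x i) (Nat.pow 18446744073709551616 i))) n

/-- `∑ d_i T^(n-1-i)` -/
noncomputable def rev (W x n : ℕ) : ℕ :=
  Nat.rec (motive := fun _ => ℕ) 0
    (fun i ih => Nat.add (dgt W x i) (Nat.mul 18446744073709551616 ih)) n

/-- `(W / 2) ∑_{i<n} T^i` -/
def off (W n : ℕ) : ℕ :=
  Nat.mul (Nat.div W 2) (Nat.div (Nat.sub (Nat.pow 18446744073709551616 n) 1) 18446744073709551615)

noncomputable def vF (W x n : ℕ) : ℤ := Int.subNatNat (fwd W x n) (off W n)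
noncomputable def vR (W x n : ℕ) : ℤ := Int.subNatNat (rev W x n) (off W n)

/-- entry `i` of the vector -/
def ent (W x i : ℕ) : ℤ := Int.subNatNat (dgt W x i) (Nat.div W 2)

/-- The digits of `Z` (`K` digits) from position `e` on. -/
def shf (e K : ℕ) (Z : ℤ) : ℕ :=
  Nat.div (Int.toNat (Int.add Z (Int.ofNat (Nat.mul 9223372036854775808
    (Nat.div (Nat.sub (Nat.pow 18446744073709551616 K) 1) 18446744073709551615)))))
    (Nat.pow 18446744073709551616 e)

/-- lowest digit -/
def d0 (y : ℕ) : ℤ := Int.subNatNat (Nat.mod y 18446744073709551616) 9223372036854775808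

/-- center digit and the sum of its two neighbours; `y` starts at the lower neighbour -/
def cen3 (y : ℕ) : ℤ × ℤ :=
  (d0 (Nat.div y 18446744073709551616),
    Int.add (d0 y) (d0 (Nat.div y 340282366920938463463374607431768211456)))

structure St where
  u : ℕ
  R : ℤ
  lo : ℤ
  hi : ℤ
  a : ℕ
  b : ℕ
  V : ℤ

/-- `(2 N, 2 N')` of the near part of a vector of length `n` (`1 ≤ n ≤ u`) -/
noncomputable def near (W : ℕ) (s : St) (x n : ℕ) : ℤ × ℤ :=
  cen3 (shf (Nat.sub (Nat.add n s.u) 2) (Nat.add (Nat.add n n) (Nat.add (Nat.mul 2 s.u) 1))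
    (Int.mul (Int.mul (vR W x n) (vF W x n)) s.R))

/-- far part -/
noncomputable def far (W : ℕ) (s : St) (x n y m : ℕ) : ℤ × ℤ :=
  cen3 (shf (Nat.sub (Nat.add n s.b) 3) (Nat.add (Nat.add n m) (Nat.add s.a s.b))
    (Int.mul (Int.mul (vR W x n) (vF W y m)) s.V))

/-- A vector `A(x) + x^(Tp-m) G(x)`, `Tp = K + b - 1` the top of the far window, `m = |G|`: two
packed lists (`0`: empty). -/
abbrev Vec := ℕ × ℕ

/-- origin of the far window moved to `k` below its upper end -/
def sh (s : St) (k : ℕ) : St :=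
  { s with a := Nat.sub (Nat.add s.a s.b) k, b := k }

/-- `(2 N, 2 N')` of a vector; `none` if it does not fit. -/
noncomputable def evM (W : ℕ) (s : St) (p q : ℕ) : Option (ℤ × ℤ) :=
  match Nat.beq q 0 with
  | true =>
    bif Nat.ble 1 (Nat.mod p 128) && Nat.ble (Nat.mod p 128) s.u then
      some (near W s (Nat.div p 128) (Nat.mod p 128)) else none
  | false =>
    bif Nat.ble 1 (Nat.mod p 128) && (Nat.ble (Nat.mod p 128) s.u && (Nat.ble 1 (Nat.mod q 128) &&
        (Nat.ble (Nat.mod q 128) s.u &&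
          Nat.ble (Nat.add (Nat.add (Nat.mod p 128) (Nat.mod q 128)) 1) (Nat.add s.a s.b)))) then
      match near W s (Nat.div p 128) (Nat.mod p 128), near W s (Nat.div q 128) (Nat.mod q 128),
        far W (sh s (Nat.add (Nat.mod q 128) 1)) (Nat.div p 128) (Nat.mod p 128) (Nat.div q 128)
          (Nat.mod q 128) with
      | (a1, a2), (b1, b2), (c1, c2) =>
        some (Int.add (Int.add a1 b1) (Int.mul 2 c1), Int.add (Int.add a2 b2) (Int.mul 2 c2))
    else none

/-- narrow the interval with `2 N' ≤ γ 2 N` -/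
def nrw (lo hi : ℤ) (p : ℤ × ℤ) : ℤ × ℤ :=
  match p with
  | (Int.ofNat 0, m) => bif decide (0 < m) then (lo, lo) else (lo, hi)
  | (Int.ofNat (n + 1), m) => (max lo (4294967296 * m / (Int.ofNat (n + 1))), hi)
  | (Int.negSucc n, m) => (lo, min hi (4294967296 * (-m) / (Int.ofNat (n + 1)) + 1))

/-- The half lines killed by the vectors cover the interval. -/
noncomputable def dead (W : ℕ) (s : St) (ok : ℕ → ℕ → Bool) : List Vec → ℤ → ℤ → Bool
  | [], lo, hi => decide (hi ≤ lo)
  | (p, q) :: vs, lo, hi => ok p q && match evM W s p q with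
    | none => false
    | some x => match nrw lo hi x with
      | (lo', hi') => dead W s ok vs lo' hi'

/-! ### Extension of the windows by one value, sign of the coefficient of the new value -/

def extN (s : St) (v : ℤ) : St :=
  { s with u := Nat.add s.u 1,
           R := Int.add (Int.mul 18446744073709551616 s.R) (Int.mul v
            (Int.ofNat (Nat.add 1 (Nat.pow 18446744073709551616 (Nat.add (Nat.mul 2 s.u) 2))))) }

def extH (s : St) (v : ℤ) : St :=
  { s with b := Nat.add s.b 1, V := Int.add (Int.mul 18446744073709551616 s.V) v }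

def extL (s : St) (v : ℤ) : St :=
  { s with a := Nat.add s.a 1,
           V := Int.add s.V (Int.mul v (Int.ofNat (Nat.pow 18446744073709551616 (Nat.add s.a s.b)))) }

def ext (d : ℕ) (s : St) (v : ℤ) : St :=
  match d with
  | 0 => extN s v
  | 1 => extH s v
  | _ => extL s v

/-- product of the first and the last entry -/
def pe (W p : ℕ) : ℤ :=
  Int.mul (ent W (Nat.div p 128) 0) (ent W (Nat.div p 128) (Nat.sub (Nat.mod p 128) 1))

/-- coefficient (up to a positive factor) of the new value in `N'`; `s` is the extended state -/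
def coef (W d : ℕ) (s : St) (p q : ℕ) : ℤ :=
  match d with
  | 0 => Int.add (bif Nat.beq (Nat.mod p 128) s.u then pe W p else 0)
      (bif Nat.beq (Nat.mod q 128) s.u then pe W q else 0)
  | 1 => bif Nat.ble 1 (Nat.mod q 128) then
      Int.mul (ent W (Nat.div p 128) 0) (ent W (Nat.div q 128) (Nat.sub (Nat.mod q 128) 1)) else 0
  | _ => bif Nat.beq (Nat.add (Nat.add (Nat.mod p 128) (Nat.mod q 128)) 1) (Nat.add s.a s.b) &&
      Nat.ble 1 (Nat.mod q 128) then
      Int.mul (ent W (Nat.div p 128) (Nat.sub (Nat.mod p 128) 1)) (ent W (Nat.div q 128) 0) else 0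

/-! ### Palindromic vectors -/

/-- `2 N` of a one-window vector -/
noncomputable def palN (W : ℕ) (s : St) (x n : ℕ) : ℤ :=
  d0 (shf (Nat.sub (Nat.add n s.u) 1) (Nat.add (Nat.add n n) (Nat.add (Nat.mul 2 s.u) 1))
    (Int.mul (Int.mul (vR W x n) (vF W x n)) s.R))

/-- `∑ A_i G_j r (K + j - i)` with `G` the reverse of `A` -/
noncomputable def palF (W : ℕ) (s : St) (x n : ℕ) : ℤ :=
  d0 (shf (Nat.sub (Nat.add n s.b) 2) (Nat.add (Nat.add n n) (Nat.add s.a s.b))
    (Int.mul (Int.mul (vR W x n) (vR W x n)) s.V))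

/-- one window: `A` palindromic, `N` negative -/
noncomputable def pal1 (W : ℕ) (s : St) (p : ℕ) : Bool :=
  Nat.ble 1 (Nat.mod p 128) && (Nat.ble (Nat.mod p 128) (Nat.add s.u 1) &&
    (Nat.beq (fwd W (Nat.div p 128) (Nat.mod p 128)) (rev W (Nat.div p 128) (Nat.mod p 128)) &&
    decide (palN W s (Nat.div p 128) (Nat.mod p 128) < 0)))

/-- two windows: `A(x) + x^(Tp-n+1) A*(x)`, `N` negative -/
noncomputable def pal2 (W : ℕ) (s : St) (p : ℕ) : Bool :=
  Nat.ble 1 (Nat.mod p 128) && (Nat.ble (Nat.mod p 128) (Nat.add s.u 1) &&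
    (Nat.ble (Nat.add (Nat.mod p 128) (Nat.mod p 128)) (Nat.add (Nat.add s.a s.b) 1) &&
    (Nat.ble (Nat.mod p 128) (Nat.add s.a s.b) &&
    decide (Int.add (palN W s (Nat.div p 128) (Nat.mod p 128))
      (palF W (sh s (Nat.mod p 128)) (Nat.div p 128) (Nat.mod p 128)) < 0))))

/-- `2 N = 0` for a palindromic one-window vector -/
noncomputable def pal0 (W : ℕ) (s : St) (p : ℕ) : Bool :=
  Nat.ble 1 (Nat.mod p 128) && (Nat.ble (Nat.mod p 128) (Nat.add s.u 1) &&
    (Nat.beq (fwd W (Nat.div p 128) (Nat.mod p 128)) (rev W (Nat.div p 128) (Nat.mod p 128)) &&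
    decide (palN W s (Nat.div p 128) (Nat.mod p 128) = 0)))

/-- `2 N = 0` for `A(x) + x^(Tp-n+1) A*(x)` -/
noncomputable def pal20 (W : ℕ) (s : St) (p : ℕ) : Bool :=
  Nat.ble 1 (Nat.mod p 128) && (Nat.ble (Nat.mod p 128) (Nat.add s.u 1) &&
    (Nat.ble (Nat.add (Nat.mod p 128) (Nat.mod p 128)) (Nat.add (Nat.add s.a s.b) 1) &&
    (Nat.ble (Nat.mod p 128) (Nat.add s.a s.b) &&
    decide (Int.add (palN W s (Nat.div p 128) (Nat.mod p 128))
      (palF W (sh s (Nat.mod p 128)) (Nat.div p 128) (Nat.mod p 128)) = 0))))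

/-! ### Instructions -/

/-- lower bounds for the new value -/
inductive Lb
  | M (vs : List Vec)
  | P (p : ℕ)
  | Q (p : ℕ)
  | nn
  | su (k : ℕ)

/-- upper bounds for the new value -/
inductive Ub
  | M (vs : List Vec)
  | su (k : ℕ)

inductive I
  | D (vs : List Vec)
  | C (p q : ℕ)
  | P (p : ℕ)
  | Q (p : ℕ)
  | Z (p : ℕ)
  | E (p q : ℕ)
  | Y (p : ℕ)
  | ZR
  | B (d : ℕ) (lo : ℤ) (len : ℕ) (dn : Lb) (up : Ub)
  | O

/-- parameters: base of the vectors, maximality facts available, length of the forbidden zero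
run (`0`: none), lower bound for `K` -/
structure Cfg where
  W : ℕ
  mx : Bool
  D0 : ℕ
  K0 : ℕ

/-- near value `r_k` -/
def rdN (s : St) (k : ℕ) : ℤ := d0 (shf (Nat.sub s.u k) (Nat.add (Nat.mul 2 s.u) 1) s.R)

/-- far value `r_(K+b-1-l)` -/
def rdF (s : St) (l : ℕ) : ℤ := d0 (shf l (Nat.add s.a s.b) s.V)

noncomputable def lower (c : Cfg) (d : ℕ) (s : St) (lo : ℤ) : Lb → Bool
  | .M vs => dead c.W (ext d s (lo - 1)) (fun p q => decide (coef c.W d (ext d s (lo - 1)) p q ≤ 0))
      vs s.lo s.hi
  | .P p => pal1 c.W (ext d s (lo - 1)) p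
  | .Q p => Nat.ble 1 d && pal2 c.W (ext d s (lo - 1)) p
  | .nn => c.mx && decide (lo ≤ 0)
  | .su k => c.mx && (Nat.ble 1 k && match d with
    | 0 => Nat.ble k s.u && decide (lo ≤ rdN s k + rdN s (Nat.sub (Nat.add s.u 1) k) - 1)
    | 1 => Nat.ble k s.u && (Nat.ble k (Nat.add s.a s.b) &&
        decide (lo ≤ rdN s k + rdF s (Nat.sub k 1) - 1))
    | _ => false)

noncomputable def upper (c : Cfg) (d : ℕ) (s : St) (hi : ℤ) : Ub → Bool
  | .M vs => dead c.W (ext d s hi) (fun p q => decide (0 ≤ coef c.W d (ext d s hi) p q))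
      vs s.lo s.hi
  | .su k => c.mx && (Nat.ble 1 k && match d with
    | 0 => false
    | 1 => false
    | _ => Nat.ble k s.u && (Nat.ble k (Nat.add s.a s.b) &&
        decide (rdF s (Nat.sub (Nat.add s.a s.b) k) - rdN s k + 1 < hi)))

/-- children of a branch -/
def kids (d : ℕ) (s : St) (lo : ℤ) : ℕ → List St → List St
  | 0, st => st
  | n + 1, st => ext d s lo :: kids d s (lo + 1) n st

/-! ### Positivity for `x > 1` -/

/-- suffix sums: `P(x) = S_0 + (x - 1) (S_1 + S_2 x + ...)` -/
def suf : List ℤ → List ℤ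
  | [] => []
  | a :: l => match suf l with
    | [] => [a]
    | s :: l' => (a + s) :: s :: l'

def nnL : List ℤ → Bool
  | [] => true
  | x :: xs => decide (0 ≤ x) && nnL xs

/-- some entry is positive -/
def someP : List ℤ → Bool
  | [] => false
  | x :: xs => decide (0 < x) || someP xs

/-- `P(x) > 0` for `x > 1` -/
def posT : ℕ → List ℤ → Bool
  | 0, _ => false
  | n + 1, l => match suf l with
    | [] => false
    | s :: q => decide (0 ≤ s) && (nnL q && someP (s :: q) || posT n q)

/-- `ent (m), ent (m+1), ...` -/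
def ents (W x : ℕ) (m : ℕ) : ℕ → List ℤ
  | 0 => []
  | n + 1 => ent W x m :: ents W x (m + 1) n

/-- the entries of a packed vector -/
def entsV (W p : ℕ) : List ℤ := ents W (Nat.div p 128) 0 (Nat.mod p 128)

def addL : List ℤ → List ℤ → List ℤ
  | [], b => b
  | x :: a, [] => x :: a
  | x :: a, y :: b => (x + y) :: addL a b

def smulL (c : ℤ) : List ℤ → List ℤ
  | [] => []
  | x :: a => (c * x) :: smulL c a

def mulL : List ℤ → List ℤ → List ℤ
  | [], _ => []
  | x :: a, b => addL (smulL x b) (0 :: mulL a b)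

/-- Lehmer's polynomial -/
def lehL : List ℤ := [1, 1, 0, -1, -1, -1, -1, -1, 0, 1, 1]

def eqL : List ℤ → List ℤ → Bool
  | [], [] => true
  | x :: a, y :: b => decide (x = y) && eqL a b
  | _, _ => false

def allZ : List ℤ → Bool
  | [] => true
  | x :: xs => decide (x = 0) && allZ xs

/-- `A*(x) > 0` and `A(x) + A*(x) ≥ 0` for `x > 1` -/
def posY (l : List ℤ) : Bool :=
  posT 40 l.reverse && (allZ (addL l l.reverse) || posT 40 (addL l l.reverse))

/-- one step -/
noncomputable def step (c : Cfg) (i : I) (s : St) (st : List St) : Option (List St) :=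
  match i with
  | .D vs => bif dead c.W s (fun _ _ => true) vs s.lo s.hi then some st else none
  | .C p q => match evM c.W s p q with
    | none => none
    | some x => match nrw s.lo s.hi x with
      | (lo', hi') => some ({ s with lo := lo', hi := hi' } :: st)
  | .P p => bif pal1 c.W s p then some st else none
  | .Q p => bif pal2 c.W s p then some st else none
  | .Z p => bif pal0 c.W s p && posT 40 (entsV c.W p) then some st else none
  | .E p q => bif pal0 c.W s p && (eqL (entsV c.W p) (mulL lehL (entsV c.W q)) &&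
      posT 40 (entsV c.W q)) then some st else none
  | .Y p => bif pal20 c.W s p && posY (entsV c.W p) then some st else none
  | .ZR => bif Nat.ble 1 c.D0 && (Nat.ble c.D0 s.b &&
      decide (Int.emod s.V (Int.ofNat (Nat.pow 18446744073709551616 c.D0)) = 0)) then some st
      else none
  | .B d lo len dn up =>
    bif lower c d s lo dn && (upper c d s (lo + len) up &&
      (decide (-262143 ≤ lo) && (decide (lo + len ≤ 262144) &&
      Nat.ble (Nat.add s.a 2) c.K0))) then
      some (kids d s lo len st) else none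
  | .O => none

/-- A goal: near values `r_1, ..., r_u`, far values `r_(K-a), ..., r_(K+b-1)` and the interval. -/
structure Goal where
  near : List ℤ
  a : ℕ
  far : List ℤ
  lo : ℤ
  hi : ℤ

def mkN : List ℤ → St → St
  | [], s => s
  | v :: l, s => mkN l (extN s v)

def mkF : List ℤ → St → St
  | [], s => s
  | v :: l, s => mkF l (extH s v)

/-- state of a goal; the far values are entered upwards, then the origin is moved -/
def Goal.st (g : Goal) : St :=
  match mkF g.far (mkN g.near ⟨0, 2, g.lo, g.hi, 0, 0, 0⟩) with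
  | s => { s with a := g.a, b := Nat.sub s.b g.a }

def Goal.ok (K0 : ℕ) (g : Goal) : Bool :=
  Nat.ble (Nat.add g.a 1) K0 && Nat.ble g.a g.far.length && (g.near.all fun v => decide (-262144 ≤ v) && decide (v ≤ 262144)) &&
    (g.far.all fun v => decide (-262144 ≤ v) && decide (v ≤ 262144))

/-- `s` is covered by the goal `o` -/
def covers (s : St) (o : Goal) : Bool :=
  match o.st with
  | t => Nat.beq s.u t.u && (Nat.beq s.a t.a && (Nat.beq s.b t.b && (decide (s.R = t.R) &&
      (decide (s.V = t.V) && (decide (t.lo ≤ s.lo) && decide (s.hi ≤ t.hi))))))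

def I.isO : I → Bool
  | .O => true
  | _ => false

noncomputable def run (c : Cfg) (prog : List I) : List St → List Goal → Bool :=
  List.rec (motive := fun _ => List St → List Goal → Bool)
    (fun st outs => st.isEmpty && outs.isEmpty)
    (fun i _ ih st outs => match st with
      | [] => false
      | s :: st => bif i.isO then
          match outs with
          | [] => false
          | o :: outs => covers s o && ih st outs
        else match step c i s st with
          | none => false
          | some st' => ih st' outs) prog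

/-- The checker. -/
noncomputable def check (c : Cfg) (prog : List I) (roots outs : List Goal) : Bool :=
  Nat.ble 4 c.W && (Nat.ble c.W 65536 && (roots.all (Goal.ok c.K0) && (outs.all (Goal.ok c.K0) &&
    run c prog (roots.map Goal.st) outs)))

end Pool.Agent.MP1f45fc.T
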