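import Mathlib

/-!
# Packed evaluation (Kronecker substitution)

`P.eval T` determines the coefficients of the integer polynomial `P` when they are small compared
with `T`.
-/

set_option autoImplicit false

open Polynomial Finset

namespace Pool.Agent.MP1f45fc.T

/-- Digit `j` of the balanced expansion of `Z` in base `2 * h` (`K` digits). -/
def dig (h K j : ℕ) (Z : ℤ) : ℤ :=
  ((Z + h * (((2 * h) ^ K - 1) / (2 * h - 1) : ℕ)).toNat / (2 * h) ^ j % (2 * h) : ℕ) - (h : ℤ)

theorem geo (b K : ℕ) (hb : 2 ≤ b) : (b ^ K - 1) / (b - 1) = ∑ k ∈ range K, b ^ k :=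
  (Nat.geomSum_eq hb K).symm

theorem digits_sum (b : ℕ) (hb : 2 ≤ b) (K : ℕ) (e : ℕ → ℕ) (he : ∀ k, e k < b) (j : ℕ)
    (hj : j < K) : (∑ k ∈ range K, e k * b ^ k) / b ^ j % b = e j := by
  induction K generalizing e j with
  | zero => omega
  | succ K ih =>
    rw [sum_range_succ']
    simp only [pow_zero, mul_one]
    have h1 : ∑ k ∈ range K, e (k + 1) * b ^ (k + 1) = b * ∑ k ∈ range K, e (k + 1) * b ^ k := by
      rw [mul_sum]
      exact sum_congr rfl fun k _ => by ring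
    rw [h1]
    cases j with
    | zero =>
      rw [pow_zero, Nat.div_one, add_comm, Nat.add_mul_mod_self_left, Nat.mod_eq_of_lt (he 0)]
    | succ j =>
      rw [pow_succ', ← Nat.div_div_eq_div_mul]
      have h2 : (b * ∑ k ∈ range K, e (k + 1) * b ^ k + e 0) / b =
          ∑ k ∈ range K, e (k + 1) * b ^ k := by
        rw [add_comm, Nat.add_mul_div_left _ _ (by omega), Nat.div_eq_of_lt (he 0), zero_add]
      rw [h2]
      exact ih (fun k => e (k + 1)) (fun k => he (k + 1)) j (by omega)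

/-- Digit extraction. -/
theorem dig_eq (h : ℕ) (hh : 1 ≤ h) (K : ℕ) (d : ℕ → ℤ) (hd : ∀ k, |d k| < h) (j : ℕ)
    (hj : j < K) : dig h K j (∑ k ∈ range K, d k * ((2 * h : ℕ) : ℤ) ^ k) = d j := by
  have hb : 2 ≤ 2 * h := by omega
  obtain ⟨e, he⟩ : ∃ e : ℕ → ℕ, ∀ k, (e k : ℤ) = d k + h := by
    refine ⟨fun k => (d k + h).toNat, fun k => ?_⟩
    have := (abs_lt.mp (hd k)).1
    exact Int.toNat_of_nonneg (by linarith)
  have he' : ∀ k, e k < 2 * h := by
    intro k
    have h1 := (abs_lt.mp (hd k)).2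
    have h2 := he k
    zify
    linarith
  have h1 : (∑ k ∈ range K, d k * ((2 * h : ℕ) : ℤ) ^ k) +
      h * (((2 * h) ^ K - 1) / (2 * h - 1) : ℕ) = ((∑ k ∈ range K, e k * (2 * h) ^ k : ℕ) : ℤ) := by
    rw [geo _ _ hb]
    push_cast
    rw [mul_sum, ← sum_add_distrib]
    refine sum_congr rfl fun k _ => ?_
    rw [he k]
    ring
  unfold dig
  rw [h1, Int.toNat_natCast, digits_sum _ hb K e he' j hj, he j]
  ring

/-- Digit extraction for the value of a polynomial. -/
theorem dig_eval (h : ℕ) (hh : 1 ≤ h) (K : ℕ) (P : ℤ[X]) (hP : P.natDegree < K)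
    (hd : ∀ k, |P.coeff k| < h) (j : ℕ) (hj : j < K) :
    dig h K j (P.eval ((2 * h : ℕ) : ℤ)) = P.coeff j := by
  rw [Polynomial.eval_eq_sum_range' hP]
  exact dig_eq h hh K P.coeff hd j hj

end Pool.Agent.MP1f45fc.T
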