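import Mathlib
import Pool.Agent.Lib.MP_1f45fc_nt.T.Pack

/-!
# Bilinear Toeplitz sums by Kronecker substitution
-/

set_option autoImplicit false

open Polynomial Finset

namespace Pool.Agent.MP1f45fc.T

/-- Bilinear sum with a window function `F`. -/
def cross (n1 n2 : ℕ) (A G F : ℕ → ℤ) (e : ℕ) : ℤ :=
  ∑ i ∈ range n1, ∑ j ∈ range n2, A i * G j * F (e + i + 1 - n1 - j)

noncomputable def pF (n : ℕ) (A : ℕ → ℤ) : ℤ[X] := ∑ i ∈ range n, C (A i) * X ^ i
noncomputable def pR (n : ℕ) (A : ℕ → ℤ) : ℤ[X] := ∑ i ∈ range n, C (A i) * X ^ (n - 1 - i)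

theorem prod_eq (n1 n2 m : ℕ) (A G F : ℕ → ℤ) :
    pR n1 A * pF n2 G * pF m F =
      ∑ i ∈ range n1, ∑ j ∈ range n2, ∑ l ∈ range m,
        C (A i * G j * F l) * X ^ ((n1 - 1 - i) + j + l) := by
  unfold pR pF
  rw [sum_mul_sum, sum_mul]
  refine sum_congr rfl fun i _ => ?_
  rw [sum_mul]
  refine sum_congr rfl fun j _ => ?_
  rw [mul_sum]
  refine sum_congr rfl fun l _ => ?_
  simp only [C_mul, pow_add]
  ring

theorem coeff_prod (n1 n2 m : ℕ) (A G F : ℕ → ℤ) (e : ℕ) :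
    (pR n1 A * pF n2 G * pF m F).coeff e =
      ∑ i ∈ range n1, ∑ j ∈ range n2, ∑ l ∈ range m,
        if e = (n1 - 1 - i) + j + l then A i * G j * F l else 0 := by
  rw [prod_eq]
  simp only [finsetSum_coeff, coeff_C_mul, coeff_X_pow, mul_ite, mul_one, mul_zero]

theorem coeff_center (n1 n2 m : ℕ) (A G F : ℕ → ℤ) (e : ℕ) (he1 : n1 + n2 ≤ e + 2)
    (he2 : e < m) :
    (pR n1 A * pF n2 G * pF m F).coeff e = cross n1 n2 A G F e := by
  rw [coeff_prod]
  unfold cross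
  refine sum_congr rfl fun i hi => sum_congr rfl fun j hj => ?_
  rw [mem_range] at hi hj
  rw [sum_eq_single_of_mem (e + i + 1 - n1 - j)]
  · rw [if_pos (by omega)]
  · rw [mem_range]; omega
  · intro l _ hl
    rw [if_neg (by omega)]

theorem abs_coeff_le (n1 n2 m : ℕ) (A G F : ℕ → ℤ) (a r : ℤ) (ha : 0 ≤ a) (hA : ∀ i, |A i| ≤ a)
    (hG : ∀ i, |G i| ≤ a) (hF : ∀ i, i < m → |F i| ≤ r) (hr : 0 ≤ r) (e : ℕ) :
    |(pR n1 A * pF n2 G * pF m F).coeff e| ≤ n1 * n2 * (a * a * r) := by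
  rw [coeff_prod]
  have h1 : ∀ i ∈ range n1, ∀ j ∈ range n2,
      |∑ l ∈ range m, if e = (n1 - 1 - i) + j + l then A i * G j * F l else 0| ≤ a * a * r := by
    intro i _ j _
    by_cases hl : ∃ l ∈ range m, e = (n1 - 1 - i) + j + l
    · obtain ⟨l, hlm, hl⟩ := hl
      rw [sum_eq_single_of_mem l hlm, if_pos hl, abs_mul, abs_mul]
      · have := hF l (mem_range.mp hlm)
        have h2 := hA i
        have h3 := hG j
        gcongr
      · intro b _ hb
        rw [if_neg (by omega)]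
    · push Not at hl
      rw [sum_eq_zero (fun l hlm => if_neg (hl l hlm)), abs_zero]
      positivity
  calc |∑ i ∈ range n1, ∑ j ∈ range n2, ∑ l ∈ range m,
        if e = (n1 - 1 - i) + j + l then A i * G j * F l else 0|
      ≤ ∑ i ∈ range n1, |∑ j ∈ range n2, ∑ l ∈ range m,
        if e = (n1 - 1 - i) + j + l then A i * G j * F l else 0| := abs_sum_le_sum_abs _ _
    _ ≤ ∑ i ∈ range n1, ∑ j ∈ range n2, |∑ l ∈ range m,
        if e = (n1 - 1 - i) + j + l then A i * G j * F l else 0| :=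
        sum_le_sum fun i _ => abs_sum_le_sum_abs _ _
    _ ≤ ∑ i ∈ range n1, ∑ j ∈ range n2, a * a * r :=
        sum_le_sum fun i hi => sum_le_sum fun j hj => h1 i hi j hj
    _ = n1 * n2 * (a * a * r) := by
        simp only [sum_const, card_range, nsmul_eq_mul]
        ring

theorem natDegree_prod_lt (n1 n2 m : ℕ) (hn : 1 ≤ n1 + n2 + m) (A G F : ℕ → ℤ) :
    (pR n1 A * pF n2 G * pF m F).natDegree < n1 + n2 + m := by
  have h : (pR n1 A * pF n2 G * pF m F).natDegree ≤ n1 + n2 + m - 1 := by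
    rw [natDegree_le_iff_coeff_eq_zero]
    intro N hN
    rw [coeff_prod]
    refine sum_eq_zero fun i hi => sum_eq_zero fun j hj => sum_eq_zero fun l hl => ?_
    rw [mem_range] at hi hj hl
    rw [if_neg (by omega)]
  omega

theorem eval_pF (n : ℕ) (A : ℕ → ℤ) (t : ℤ) : (pF n A).eval t = ∑ i ∈ range n, A i * t ^ i := by
  simp [pF, eval_finsetSum]

theorem eval_pR (n : ℕ) (A : ℕ → ℤ) (t : ℤ) :
    (pR n A).eval t = ∑ i ∈ range n, A i * t ^ (n - 1 - i) := by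
  simp [pR, eval_finsetSum]

/-- Digit extraction for a triple product. -/
theorem dig_cross (h : ℕ) (hh : 1 ≤ h) (n1 n2 m : ℕ) (A G F : ℕ → ℤ) (a r : ℤ) (ha : 0 ≤ a)
    (hr : 0 ≤ r) (hA : ∀ i, |A i| ≤ a) (hG : ∀ i, |G i| ≤ a) (hF : ∀ i, i < m → |F i| ≤ r)
    (hb : n1 * n2 * (a * a * r) < h) (e : ℕ) (he1 : n1 + n2 ≤ e + 2) (he2 : e < m) :
    dig h (n1 + n2 + m) e ((∑ i ∈ range n1, A i * ((2 * h : ℕ) : ℤ) ^ (n1 - 1 - i)) *
      (∑ i ∈ range n2, G i * ((2 * h : ℕ) : ℤ) ^ i) *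
      (∑ i ∈ range m, F i * ((2 * h : ℕ) : ℤ) ^ i)) = cross n1 n2 A G F e := by
  rw [← coeff_center n1 n2 m A G F e he1 he2, ← eval_pF, ← eval_pF, ← eval_pR, ← eval_mul,
    ← eval_mul]
  refine dig_eval h hh _ _ (natDegree_prod_lt n1 n2 m (by omega) A G F) (fun k => ?_) e (by omega)
  exact lt_of_le_of_lt (abs_coeff_le n1 n2 m A G F a r ha hA hG hF hr k) hb

end Pool.Agent.MP1f45fc.T
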