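import Mathlib
import Pool.Agent.Lib.MP_1f45fc_nt.T.Conv
import Pool.Agent.Lib.MP_1f45fc_nt.T.Check

/-!
# Values of the packed vectors and windows
-/

set_option autoImplicit false

open Finset

namespace Pool.Agent.MP1f45fc.T

/-- the base -/
abbrev TZ : ℤ := 18446744073709551616

theorem subNatNat_cast (m n : ℕ) : Int.subNatNat m n = (m : ℤ) - n := Int.subNatNat_eq_coe

theorem fwd_eq (W x n : ℕ) : (fwd W x n : ℤ) = ∑ i ∈ range n, (dgt W x i : ℤ) * TZ ^ i := by
  induction n with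
  | zero => simp [fwd]
  | succ n ih =>
    have h : fwd W x (n + 1) = fwd W x n + dgt W x n * 18446744073709551616 ^ n := rfl
    rw [h, sum_range_succ, ← ih]
    push_cast
    rfl

theorem rev_eq (W x n : ℕ) :
    (rev W x n : ℤ) = ∑ i ∈ range n, (dgt W x i : ℤ) * TZ ^ (n - 1 - i) := by
  induction n with
  | zero => simp [rev]
  | succ n ih =>
    have h : rev W x (n + 1) = dgt W x n + 18446744073709551616 * rev W x n := rfl
    rw [h, sum_range_succ]
    push_cast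
    rw [ih, mul_sum, Nat.sub_self, pow_zero, mul_one, add_comm]
    congr 1
    refine sum_congr rfl fun i hi => ?_
    rw [mem_range] at hi
    have h3 : n - i = (n - 1 - i) + 1 := by omega
    rw [h3, pow_succ]
    ring

theorem off_eq (W n : ℕ) : (off W n : ℤ) = ∑ i ∈ range n, ((W / 2 : ℕ) : ℤ) * TZ ^ i := by
  have h : off W n = W / 2 * ((18446744073709551616 ^ n - 1) / (18446744073709551616 - 1)) := rfl
  rw [h, geo _ _ (by norm_num)]
  push_cast
  rw [mul_sum]

theorem off_eq' (W n : ℕ) :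
    (off W n : ℤ) = ∑ i ∈ range n, ((W / 2 : ℕ) : ℤ) * TZ ^ (n - 1 - i) := by
  rw [off_eq, ← sum_range_reflect]

theorem ent_eq (W x i : ℕ) : ent W x i = (dgt W x i : ℤ) - ((W / 2 : ℕ) : ℤ) := by
  unfold ent
  rw [subNatNat_cast]
  rfl

theorem vF_eq (W x n : ℕ) : vF W x n = ∑ i ∈ range n, ent W x i * TZ ^ i := by
  unfold vF
  rw [subNatNat_cast, fwd_eq, off_eq, ← sum_sub_distrib]
  refine sum_congr rfl fun i _ => ?_
  rw [ent_eq]; ring

theorem vR_eq (W x n : ℕ) : vR W x n = ∑ i ∈ range n, ent W x i * TZ ^ (n - 1 - i) := by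
  unfold vR
  rw [subNatNat_cast, rev_eq, off_eq', ← sum_sub_distrib]
  refine sum_congr rfl fun i _ => ?_
  rw [ent_eq]; ring

theorem ent_abs (W x i : ℕ) (h1 : 2 ≤ W) (h2 : W ≤ 65536) : |ent W x i| ≤ 32768 := by
  rw [ent_eq]
  have h3 : dgt W x i < W := Nat.mod_lt _ (by omega)
  rw [abs_le]
  constructor <;> omega

theorem d0_eq (y : ℕ) : d0 y = ((y % 18446744073709551616 : ℕ) : ℤ) - 9223372036854775808 := by
  unfold d0
  rw [subNatNat_cast]
  rfl

theorem d0_shf (e K : ℕ) (Z : ℤ) : d0 (shf e K Z) = dig 9223372036854775808 K e Z := by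
  rw [d0_eq]
  rfl

theorem d0_shf_div (e K j : ℕ) (Z : ℤ) :
    d0 (shf e K Z / 18446744073709551616 ^ j) = dig 9223372036854775808 K (e + j) Z := by
  rw [d0_eq]
  unfold dig
  have h : shf e K Z = ((Z + (9223372036854775808 : ℕ) * (((2 * 9223372036854775808) ^ K - 1) /
      (2 * 9223372036854775808 - 1) : ℕ)).toNat / (2 * 9223372036854775808) ^ e) := rfl
  rw [h, Nat.div_div_eq_div_mul, pow_add]
  rfl

theorem cen3_shf (e K : ℕ) (Z : ℤ) :
    cen3 (shf e K Z) = (dig 9223372036854775808 K (e + 1) Z,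
      dig 9223372036854775808 K e Z + dig 9223372036854775808 K (e + 2) Z) := by
  have h1 := d0_shf_div e K 1 Z
  have h2 := d0_shf_div e K 2 Z
  have h0 := d0_shf e K Z
  rw [← h0, ← h1, ← h2]
  rfl

/-- The windows `f` (near, even) and `F` (far) are packed in `s`. -/
structure Pk (s : St) (f : ℕ → ℤ) (F : ℤ → ℤ) : Prop where
  R : s.R = ∑ l ∈ range (2 * s.u + 1), f (Int.natAbs ((s.u : ℤ) - l)) * TZ ^ l
  V : s.V = ∑ l ∈ range (s.a + s.b), F ((s.b : ℤ) - 1 - l) * TZ ^ l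
  fb : ∀ k ≤ s.u, |f k| ≤ 262144
  Fb : ∀ l < s.a + s.b, |F ((s.b : ℤ) - 1 - l)| ≤ 262144

def nn0 (f : ℕ → ℤ) (n : ℕ) (A : ℕ → ℤ) : ℤ :=
  ∑ i ∈ range n, ∑ j ∈ range n, A i * A j * f (Int.natAbs ((i : ℤ) - j))

def nn1 (f : ℕ → ℤ) (n : ℕ) (A : ℕ → ℤ) : ℤ :=
  ∑ i ∈ range n, ∑ j ∈ range n,
    A i * A j * (f (Int.natAbs ((i : ℤ) - j + 1)) + f (Int.natAbs ((i : ℤ) - j - 1)))

def ff0 (F : ℤ → ℤ) (n m : ℕ) (A G : ℕ → ℤ) : ℤ :=
  ∑ i ∈ range n, ∑ j ∈ range m, A i * G j * F ((j : ℤ) - i)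

def ff1 (F : ℤ → ℤ) (n m : ℕ) (A G : ℕ → ℤ) : ℤ :=
  ∑ i ∈ range n, ∑ j ∈ range m, A i * G j * (F ((j : ℤ) - i + 1) + F ((j : ℤ) - i - 1))

theorem bound_aux (n m : ℕ) (hn : n < 128) (hm : m < 128) :
    (n : ℤ) * m * (32768 * 32768 * 262144) < (9223372036854775808 : ℕ) := by
  have h1 : n * m ≤ 127 * 127 := Nat.mul_le_mul (by omega) (by omega)
  have h2 : ((n * m : ℕ) : ℤ) ≤ 127 * 127 := by exact_mod_cast h1
  push_cast at h2
  push_cast
  nlinarith

variable {W : ℕ} {s : St} {f : ℕ → ℤ} {F : ℤ → ℤ}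

theorem near_dig (hW : 2 ≤ W) (hW' : W ≤ 65536) (h : Pk s f F) (x n : ℕ) (hn : n < 128) (e : ℕ)
    (he1 : n + n ≤ e + 2) (he2 : e < 2 * s.u + 1) :
    dig 9223372036854775808 (n + n + (2 * s.u + 1)) e (vR W x n * vF W x n * s.R) =
      cross n n (ent W x) (ent W x) (fun l => f (Int.natAbs ((s.u : ℤ) - l))) e := by
  have hA := fun i => ent_abs W x i hW hW'
  have h1 := dig_cross 9223372036854775808 (by norm_num) n n (2 * s.u + 1) (ent W x) (ent W x)
    (fun l => f (Int.natAbs ((s.u : ℤ) - l))) 32768 262144 (by norm_num) (by norm_num) hA hA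
    (fun i hi => h.fb _ (by omega)) (bound_aux n n hn hn) e he1 he2
  rw [← h1, vR_eq, vF_eq, h.R]
  norm_num

theorem far_dig (h : Pk s f F) (A G : ℕ → ℤ)
    (hA : ∀ i, |A i| ≤ 32768) (hG : ∀ i, |G i| ≤ 32768) (n m : ℕ) (hn : n < 128)
    (hm : m < 128) (e : ℕ) (he1 : n + m ≤ e + 2) (he2 : e < s.a + s.b) (ZA ZG : ℤ)
    (hZA : ZA = ∑ i ∈ range n, A i * TZ ^ (n - 1 - i))
    (hZG : ZG = ∑ i ∈ range m, G i * TZ ^ i) :
    dig 9223372036854775808 (n + m + (s.a + s.b)) e (ZA * ZG * s.V) =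
      cross n m A G (fun l => F ((s.b : ℤ) - 1 - l)) e := by
  have h1 := dig_cross 9223372036854775808 (by norm_num) n m (s.a + s.b) A G
    (fun l => F ((s.b : ℤ) - 1 - l)) 32768 262144 (by norm_num) (by norm_num) hA hG
    (fun i hi => h.Fb _ hi) (bound_aux n m hn hm) e he1 he2
  rw [← h1, hZA, hZG, h.V]
  norm_num

theorem near_eq (hW : 2 ≤ W) (hW' : W ≤ 65536) (h : Pk s f F) (x n : ℕ) (hn : n < 128)
    (h1 : 1 ≤ n) (h2 : n ≤ s.u) :
    near W s x n = (nn0 f n (ent W x), nn1 f n (ent W x)) := by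
  have e0 : near W s x n = cen3 (shf (n + s.u - 2) (n + n + (2 * s.u + 1))
    (vR W x n * vF W x n * s.R)) := rfl
  rw [e0, cen3_shf, near_dig hW hW' h x n hn _ (by omega) (by omega),
    near_dig hW hW' h x n hn _ (by omega) (by omega),
    near_dig hW hW' h x n hn _ (by omega) (by omega)]
  congr 1
  · unfold cross nn0
    refine sum_congr rfl fun i hi => sum_congr rfl fun j hj => ?_
    rw [mem_range] at hi hj
    dsimp only
    congr 2
    omega
  · unfold cross nn1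
    rw [← sum_add_distrib]
    refine sum_congr rfl fun i hi => ?_
    rw [← sum_add_distrib]
    refine sum_congr rfl fun j hj => ?_
    rw [mem_range] at hi hj
    dsimp only
    rw [← mul_add, add_comm]
    congr 3
    · omega
    · omega

theorem far_eq (hW : 2 ≤ W) (hW' : W ≤ 65536) (h : Pk s f F) (x n y m : ℕ) (hn : n < 128)
    (hm : m < 128) (h1 : 1 ≤ n) (h2 : 1 ≤ m) (h3 : n ≤ s.a) (h4 : m + 1 ≤ s.b) :
    far W s x n y m = (ff0 F n m (ent W x) (ent W y), ff1 F n m (ent W x) (ent W y)) := by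
  have hA := fun i => ent_abs W x i hW hW'
  have hG := fun i => ent_abs W y i hW hW'
  have e0 : far W s x n y m = cen3 (shf (n + s.b - 3) (n + m + (s.a + s.b))
    (vR W x n * vF W y m * s.V)) := rfl
  rw [e0, cen3_shf,
    far_dig h _ _ hA hG n m hn hm _ (by omega) (by omega) _ _ (vR_eq W x n) (vF_eq W y m),
    far_dig h _ _ hA hG n m hn hm _ (by omega) (by omega) _ _ (vR_eq W x n) (vF_eq W y m),
    far_dig h _ _ hA hG n m hn hm _ (by omega) (by omega) _ _ (vR_eq W x n) (vF_eq W y m)]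
  congr 1
  · unfold cross ff0
    refine sum_congr rfl fun i hi => sum_congr rfl fun j hj => ?_
    rw [mem_range] at hi hj
    dsimp only
    congr 2
    omega
  · unfold cross ff1
    rw [← sum_add_distrib]
    refine sum_congr rfl fun i hi => ?_
    rw [← sum_add_distrib]
    refine sum_congr rfl fun j hj => ?_
    rw [mem_range] at hi hj
    dsimp only
    rw [← mul_add]
    congr 3
    · omega
    · omega

theorem palN_eq (hW : 2 ≤ W) (hW' : W ≤ 65536) (h : Pk s f F) (x n : ℕ) (hn : n < 128)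
    (h1 : 1 ≤ n) (h2 : n ≤ s.u + 1) : palN W s x n = nn0 f n (ent W x) := by
  have e0 : palN W s x n = d0 (shf (n + s.u - 1) (n + n + (2 * s.u + 1))
    (vR W x n * vF W x n * s.R)) := rfl
  rw [e0, d0_shf, near_dig hW hW' h x n hn _ (by omega) (by omega)]
  unfold cross nn0
  refine sum_congr rfl fun i hi => sum_congr rfl fun j hj => ?_
  rw [mem_range] at hi hj
  dsimp only
  congr 2
  omega

theorem palF_eq (hW : 2 ≤ W) (hW' : W ≤ 65536) (h : Pk s f F) (x n : ℕ) (hn : n < 128)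
    (h1 : 1 ≤ n) (h2 : n ≤ s.b) (h3 : n ≤ s.a + 1) :
    palF W s x n = ff0 F n n (ent W x) (fun i => ent W x (n - 1 - i)) := by
  have hA := fun i => ent_abs W x i hW hW'
  have hG := fun i => ent_abs W x (n - 1 - i) hW hW'
  have e0 : palF W s x n = d0 (shf (n + s.b - 2) (n + n + (s.a + s.b))
    (vR W x n * vR W x n * s.V)) := rfl
  have e1 : vR W x n = ∑ i ∈ range n, ent W x (n - 1 - i) * TZ ^ i := by
    rw [vR_eq, ← sum_range_reflect]
    refine sum_congr rfl fun i hi => ?_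
    rw [mem_range] at hi
    congr 2
    omega
  rw [e0, d0_shf, far_dig h _ _ hA hG n n hn hn _ (by omega) (by omega) _ _
    (vR_eq W x n) e1]
  unfold cross ff0
  refine sum_congr rfl fun i hi => sum_congr rfl fun j hj => ?_
  rw [mem_range] at hi hj
  dsimp only
  congr 2
  omega

end Pool.Agent.MP1f45fc.T
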