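import Pool.Agent.Lib.MP_1f45fc_nt.T.Core

set_option autoImplicit false

namespace Pool.Agent.MP1f45fc.T

lemma dotZ_append (f : ℕ → ℤ) (s : ℕ) (A B : List ℤ) :
    dotZ f s (A ++ B) = dotZ f s A + dotZ f (s + A.length) B := by
  induction A generalizing s with
  | nil => simp [dotZ]
  | cons a A ih =>
    simp only [List.cons_append, dotZ, ih, List.length_cons]
    have : s + 1 + A.length = s + (A.length + 1) := by ring
    rw [this]; ring

lemma dotZ_zeros (f : ℕ → ℤ) (s n : ℕ) : dotZ f s (List.replicate n 0) = 0 := by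
  induction n generalizing s with
  | zero => simp [dotZ]
  | succ n ih => simp [List.replicate_succ, dotZ, ih]

lemma dotZ_gap (f : ℕ → ℤ) (s n : ℕ) (A B : List ℤ) :
    dotZ f s (A ++ (List.replicate n 0 ++ B)) = dotZ f s A + dotZ f (s + A.length + n) B := by
  rw [dotZ_append, dotZ_append, dotZ_zeros, List.length_replicate, zero_add]

lemma quadZ_zeros (f0 : ℤ) (f : ℕ → ℤ) (n : ℕ) (B : List ℤ) :
    quadZ f0 f (List.replicate n 0 ++ B) = quadZ f0 f B := by
  induction n with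
  | zero => simp
  | succ n ih => simp [List.replicate_succ, quadZ, ih]

/-- `∑ᵢⱼ aᵢ gⱼ f (k + j - i)` -/
def crossZ (f : ℕ → ℤ) : ℕ → List ℤ → List ℤ → ℤ
  | _, [], _ => 0
  | k, a :: A, G => a * dotZ f k G + crossZ f (k - 1) A G

/-- The two-window identity: `A(x) + x^K G(x)`, `K = A.length + n`. -/
lemma quadZ_gap (f0 : ℤ) (f : ℕ → ℤ) (n : ℕ) (A G : List ℤ) :
    quadZ f0 f (A ++ (List.replicate n 0 ++ G)) =
      quadZ f0 f A + quadZ f0 f G + crossZ f (A.length + n) A G := by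
  induction A with
  | nil => simp [quadZ_zeros, quadZ, crossZ]
  | cons a A ih =>
    simp only [List.cons_append, quadZ, dotZ_gap, ih, crossZ, List.length_cons]
    have e1 : 1 + A.length + n = A.length + 1 + n := by ring
    have e2 : A.length + 1 + n - 1 = A.length + n := by omega
    rw [e1, e2]; ring

lemma evS_zeros (t : ℝ) (s n : ℕ) : evS t s (List.replicate n 0) = 0 := by
  induction n generalizing s with
  | zero => simp [evS]
  | succ n ih => simp [List.replicate_succ, evS, ih]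

lemma evS_gap (t : ℝ) (s n : ℕ) (A G : List ℤ) :
    evS t s (A ++ (List.replicate n 0 ++ G)) = evS t s A + evS t (s + A.length + n) G := by
  rw [evS_append, evS_append, evS_zeros, List.length_replicate, zero_add]

/-- The facts available for the measure of (nearly) maximal mass. -/
structure Max (t : ℝ) (r : ℕ → ℤ) : Prop extends Good t r where
  nonneg : ∀ k, 0 ≤ r k
  super : ∀ k l, 1 ≤ k → 1 ≤ l → r k + r l - 1 ≤ r (k + l)

lemma hval_two (t : ℝ) (n : ℕ) :
    hval t ([1] ++ (List.replicate n 0 ++ [1])) = 2 + 2 * Real.cosh ((n + 1 : ℕ) * t) := by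
  rw [hval_eq, evS_gap, evS_gap]
  simp only [evS, Int.cast_one, List.length_singleton, one_mul, add_zero, Nat.cast_zero, zero_mul, neg_zero,
    Real.exp_zero, mul_neg, zero_add]
  rw [Real.cosh_eq, add_comm 1 n]
  have h := Real.exp_add (((n + 1 : ℕ) : ℝ) * t) (-(((n + 1 : ℕ) : ℝ) * t))
  rw [add_neg_cancel, Real.exp_zero] at h
  linear_combination -h

lemma nrm_two (r : ℕ → ℤ) (n : ℕ) :
    nrm r ([1] ++ (List.replicate n 0 ++ [1])) = 2 + r (n + 1) := by
  unfold nrm
  rw [quadZ_gap]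
  simp only [quadZ, dotZ, crossZ, List.length_singleton, add_comm 1 n]
  ring

lemma hval_three (t : ℝ) (n m : ℕ) :
    hval t ([1] ++ (List.replicate n 0 ++ ([-1] ++ (List.replicate m 0 ++ [1])))) =
      3 - 2 * Real.cosh ((n + 1 : ℕ) * t) - 2 * Real.cosh ((m + 1 : ℕ) * t)
        + 2 * Real.cosh ((n + 1 + (m + 1) : ℕ) * t) := by
  rw [hval_eq, evS_gap, evS_gap, evS_gap, evS_gap]
  simp only [evS, Int.cast_one, Int.cast_neg, List.length_singleton, one_mul, add_zero,
    Nat.cast_zero, zero_mul, Real.exp_zero, mul_neg, zero_add, neg_zero]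
  have e1 : ((1 + n : ℕ) : ℝ) = (n : ℝ) + 1 := by push_cast; ring
  have e2 : ((1 + n + 1 + m : ℕ) : ℝ) = (n : ℝ) + 1 + (m + 1) := by push_cast; ring
  have e3 : ((n + 1 + (m + 1) : ℕ) : ℝ) = (n : ℝ) + 1 + (m + 1) := by push_cast; ring
  have e4 : ((n + 1 : ℕ) : ℝ) = (n : ℝ) + 1 := by push_cast; ring
  have e5 : ((m + 1 : ℕ) : ℝ) = (m : ℝ) + 1 := by push_cast; ring
  rw [e1, e2, e3, e4, e5]
  set a : ℝ := ((n : ℝ) + 1) * t with ha
  set b : ℝ := ((m : ℝ) + 1) * t with hb
  have e6 : ((n : ℝ) + 1 + (m + 1)) * t = a + b := by rw [ha, hb]; ring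
  rw [e6, Real.cosh_eq, Real.cosh_eq, Real.cosh_eq, neg_add, Real.exp_add, Real.exp_add]
  have h1 := Real.exp_add a (-a)
  have h2 := Real.exp_add b (-b)
  rw [add_neg_cancel, Real.exp_zero] at h1 h2
  linear_combination (-1 - Real.exp b * Real.exp (-b) + Real.exp b + Real.exp (-b)) * h1 - h2

lemma nrm_three (r : ℕ → ℤ) (n m : ℕ) :
    nrm r ([1] ++ (List.replicate n 0 ++ ([-1] ++ (List.replicate m 0 ++ [1])))) =
      3 - r (n + 1) - r (m + 1) + r (n + 1 + (m + 1)) := by
  unfold nrm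
  rw [quadZ_gap, quadZ_gap]
  simp only [quadZ, dotZ_gap, dotZ, crossZ, List.length_singleton]
  have e1 : 1 + n = n + 1 := by ring
  have e2 : 1 + m = m + 1 := by ring
  have e3 : n + 1 + 1 + m = n + 1 + (m + 1) := by ring
  rw [e1, e2, e3]
  ring

/-- From any sequence in the class one gets one with the additional properties. -/
theorem exists_max {t : ℝ} {r₀ : ℕ → ℤ} {p₀ : ℝ} (ht : 0 < t) (h₀ : IsSeq t r₀ p₀) :
    ∃ r, Max t r := by
  have hs : 0 < Real.sinh t := Real.sinh_pos_iff.mpr ht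
  obtain ⟨r, p, hr, hX⟩ := near_max h₀ (δ := min 1 (Real.sinh t ^ 2)) (by positivity)
  have hg := hr.good ht
  refine ⟨r, hg, fun k => ?_, fun k l hk hl => ?_⟩
  · rcases k with _ | n
    · rw [hg.zero]; norm_num
    · by_contra hcon
      push Not at hcon
      have h1 := hX ([1] ++ (List.replicate n 0 ++ [1])) (by rw [nrm_two]; omega)
      rw [hval_two] at h1
      have h2 := Real.one_le_cosh (((n + 1 : ℕ) : ℝ) * t)
      have h3 := min_le_left 1 (Real.sinh t ^ 2)
      linarith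
  · obtain ⟨n, rfl⟩ : ∃ n, k = n + 1 := ⟨k - 1, by omega⟩
    obtain ⟨m, rfl⟩ : ∃ m, l = m + 1 := ⟨l - 1, by omega⟩
    by_contra hcon
    push Not at hcon
    have h1 := hX ([1] ++ (List.replicate n 0 ++ ([-1] ++ (List.replicate m 0 ++ [1]))))
      (by rw [nrm_three]; omega)
    rw [hval_three] at h1
    have h3 := min_le_right 1 (Real.sinh t ^ 2)
    have e1 : ((n + 1 + (m + 1) : ℕ) : ℝ) * t = ((n + 1 : ℕ) : ℝ) * t + ((m + 1 : ℕ) : ℝ) * t := by
      push_cast; ring
    rw [e1, Real.cosh_add] at h1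
    have h4 := Real.one_le_cosh (((n + 1 : ℕ) : ℝ) * t)
    have h5 := Real.one_le_cosh (((m + 1 : ℕ) : ℝ) * t)
    have h6 : Real.sinh t ≤ Real.sinh (((n + 1 : ℕ) : ℝ) * t) := by
      apply Real.sinh_le_sinh.mpr
      have : (0 : ℝ) ≤ n * t := by positivity
      push_cast; linarith
    have h7 : Real.sinh t ≤ Real.sinh (((m + 1 : ℕ) : ℝ) * t) := by
      apply Real.sinh_le_sinh.mpr
      have : (0 : ℝ) ≤ m * t := by positivity
      push_cast; linarith
    have h8 : Real.sinh t ^ 2 ≤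
        Real.sinh (((n + 1 : ℕ) : ℝ) * t) * Real.sinh (((m + 1 : ℕ) : ℝ) * t) := by
      nlinarith
    nlinarith [mul_nonneg (sub_nonneg.mpr h4) (sub_nonneg.mpr h5), sq_pos_of_pos hs]

end Pool.Agent.MP1f45fc.T
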