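import Mathlib
import Pool.Agent.Lib.MP_1f45fc_nt.T.Gap
import Pool.Agent.Lib.MP_1f45fc_nt.T.Dec

/-!
# The packed sums and the quadratic forms `nrm`, `nrm'`
-/

set_option autoImplicit false

open Finset

namespace Pool.Agent.MP1f45fc.T

/-- the list `[A 0, ..., A (n-1)]` -/
def ls (A : ℕ → ℤ) (n : ℕ) : List ℤ := (List.range n).map A

theorem ls_succ (A : ℕ → ℤ) (n : ℕ) : ls A (n + 1) = A 0 :: ls (fun i => A (i + 1)) n := by
  unfold ls
  rw [List.range_succ_eq_map]
  simp [Function.comp_def]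

theorem ls_length (A : ℕ → ℤ) (n : ℕ) : (ls A n).length = n := by simp [ls]

theorem dotZ_ls (f : ℕ → ℤ) (s n : ℕ) (A : ℕ → ℤ) :
    dotZ f s (ls A n) = ∑ i ∈ range n, A i * f (s + i) := by
  induction n generalizing s A with
  | zero => simp [ls, dotZ]
  | succ n ih =>
    rw [ls_succ, sum_range_succ', dotZ, ih]
    simp only [add_zero]
    rw [add_comm]
    congr 1
    refine sum_congr rfl fun i _ => ?_
    congr 2
    ring

/-- two-sided Toeplitz sum of an even function -/
theorem quadZ_ls (f0 : ℤ) (f : ℕ → ℤ) (n : ℕ) (A : ℕ → ℤ) :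
    2 * quadZ f0 f (ls A n) = ∑ i ∈ range n, ∑ j ∈ range n,
      A i * A j * (if i = j then 2 * f0 else f (Int.natAbs ((i : ℤ) - j))) := by
  induction n generalizing A with
  | zero => simp [ls, quadZ]
  | succ n ih =>
    rw [ls_succ, quadZ, sum_range_succ', dotZ_ls, sum_range_succ']
    have h1 : ∀ i ∈ range n, ∑ j ∈ range (n + 1),
        A (i + 1) * A j * (if i + 1 = j then 2 * f0 else f (Int.natAbs (((i + 1 : ℕ) : ℤ) - j))) =
        ∑ j ∈ range n, A (i + 1) * A (j + 1) *
          (if i = j then 2 * f0 else f (Int.natAbs ((i : ℤ) - j))) +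
        A (i + 1) * A 0 * f (i + 1) := by
      intro i _
      rw [sum_range_succ']
      congr 1
      refine sum_congr rfl fun j _ => ?_
      have e1 : ((i + 1 : ℕ) : ℤ) - ((j + 1 : ℕ) : ℤ) = (i : ℤ) - j := by push_cast; ring
      rw [e1]
      simp only [Nat.add_right_cancel_iff]
    rw [sum_congr rfl h1, sum_add_distrib, ← ih]
    have h2 : ∀ j ∈ range n, A 0 * A (j + 1) *
        (if 0 = j + 1 then 2 * f0 else f (Int.natAbs (((0 : ℕ) : ℤ) - ((j + 1 : ℕ) : ℤ)))) =
        A 0 * (A (j + 1) * f (1 + j)) := by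
      intro j _
      rw [if_neg (by omega)]
      have e1 : Int.natAbs (((0 : ℕ) : ℤ) - ((j + 1 : ℕ) : ℤ)) = 1 + j := by omega
      rw [e1]
      ring
    have h3 : ∀ i ∈ range n, A (i + 1) * A 0 * f (i + 1) = A 0 * (A (i + 1) * f (1 + i)) := by
      intro i _
      rw [add_comm 1 i]
      ring
    rw [sum_congr rfl h2, sum_congr rfl h3, ← mul_sum, if_pos rfl]
    ring

theorem nrm_ls (r : ℕ → ℤ) (h0 : r 0 = 2) (n : ℕ) (A : ℕ → ℤ) :
    2 * nrm r (ls A n) = nn0 r n A := by
  unfold nrm nn0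
  rw [quadZ_ls]
  refine sum_congr rfl fun i _ => sum_congr rfl fun j _ => ?_
  congr 1
  split
  · rename_i h
    subst h
    simp [h0]
  · rfl

theorem nrm'_ls (r : ℕ → ℤ) (n : ℕ) (A : ℕ → ℤ) :
    2 * nrm' r (ls A n) = nn1 r n A := by
  unfold nrm' nn1
  rw [quadZ_ls]
  refine sum_congr rfl fun i _ => sum_congr rfl fun j _ => ?_
  congr 1
  split
  · rename_i h
    subst h
    simp
    ring
  · rename_i h
    rcases Nat.lt_or_gt_of_ne h with h | h
    · have e1 : Int.natAbs ((i : ℤ) - j) + 1 = Int.natAbs ((i : ℤ) - j - 1) := by omega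
      have e2 : Int.natAbs ((i : ℤ) - j) - 1 = Int.natAbs ((i : ℤ) - j + 1) := by omega
      rw [e1, e2, add_comm]
    · have e1 : Int.natAbs ((i : ℤ) - j) + 1 = Int.natAbs ((i : ℤ) - j + 1) := by omega
      have e2 : Int.natAbs ((i : ℤ) - j) - 1 = Int.natAbs ((i : ℤ) - j - 1) := by omega
      rw [e1, e2]

theorem crossZ_ls (f : ℕ → ℤ) (K n m : ℕ) (A G : ℕ → ℤ) (hK : n ≤ K) :
    crossZ f K (ls A n) (ls G m) = ∑ i ∈ range n, ∑ j ∈ range m, A i * G j * f (K + j - i) := by
  induction n generalizing K A with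
  | zero => simp [ls, crossZ]
  | succ n ih =>
    rw [ls_succ, crossZ, ih (K - 1) _ (by omega), sum_range_succ', dotZ_ls, add_comm, mul_sum]
    congr 1
    · refine sum_congr rfl fun i hi => sum_congr rfl fun j _ => ?_
      rw [mem_range] at hi
      congr 2
      omega
    · refine sum_congr rfl fun j _ => ?_
      rw [Nat.sub_zero]
      ring

/-- The vector `A(x) + x^K G(x)`. -/
def vec (A : ℕ → ℤ) (n K : ℕ) (G : ℕ → ℤ) (m : ℕ) : List ℤ :=
  ls A n ++ (List.replicate (K - n) 0 ++ ls G m)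

/-- far window function of `r` -/
def fr (r : ℕ → ℤ) (K : ℕ) (d : ℤ) : ℤ := r ((K : ℤ) + d).toNat

theorem nrm_vec (r : ℕ → ℤ) (h0 : r 0 = 2) (n m K : ℕ) (hn : n ≤ K) (A G : ℕ → ℤ) :
    2 * nrm r (vec A n K G m) = nn0 r n A + nn0 r m G + 2 * ff0 (fr r K) n m A G := by
  unfold vec
  have h := quadZ_gap 1 r (K - n) (ls A n) (ls G m)
  rw [ls_length, Nat.add_sub_cancel' hn] at h
  have e : nrm r (ls A n ++ (List.replicate (K - n) 0 ++ ls G m)) =
      nrm r (ls A n) + nrm r (ls G m) + crossZ r K (ls A n) (ls G m) := h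
  rw [e, mul_add, mul_add, nrm_ls r h0, nrm_ls r h0, crossZ_ls r K n m A G hn]
  congr 2
  unfold ff0 fr
  refine sum_congr rfl fun i hi => sum_congr rfl fun j _ => ?_
  rw [mem_range] at hi
  congr 2
  omega

theorem nrm'_vec (r : ℕ → ℤ) (n m K : ℕ) (hn : n < K) (A G : ℕ → ℤ) :
    2 * nrm' r (vec A n K G m) = nn1 r n A + nn1 r m G + 2 * ff1 (fr r K) n m A G := by
  unfold vec
  have h := quadZ_gap (r 1) (fun j => r (j + 1) + r (j - 1)) (K - n) (ls A n) (ls G m)
  rw [ls_length, Nat.add_sub_cancel' hn.le] at h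
  have e : nrm' r (ls A n ++ (List.replicate (K - n) 0 ++ ls G m)) =
      nrm' r (ls A n) + nrm' r (ls G m) +
        crossZ (fun j => r (j + 1) + r (j - 1)) K (ls A n) (ls G m) := h
  rw [e, mul_add, mul_add, nrm'_ls r, nrm'_ls r, crossZ_ls _ K n m A G hn.le]
  congr 2
  unfold ff1 fr
  refine sum_congr rfl fun i hi => sum_congr rfl fun j _ => ?_
  rw [mem_range] at hi
  congr 3
  · omega
  · omega

theorem vec_pal (A : ℕ → ℤ) (n K : ℕ) :
    (vec A n K (fun i => A (n - 1 - i)) n).reverse = vec A n K (fun i => A (n - 1 - i)) n := by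
  have h : (ls A n).reverse = ls (fun i => A (n - 1 - i)) n := by
    apply List.ext_getElem
    · simp [ls]
    · intro i h1 h2
      simp [ls, List.getElem_reverse]
  have h' : (ls (fun i => A (n - 1 - i)) n).reverse = ls A n := by
    rw [← h, List.reverse_reverse]
  unfold vec
  rw [List.reverse_append, List.reverse_append, h, h', List.reverse_replicate, List.append_assoc]

theorem ls_pal (A : ℕ → ℤ) (n : ℕ) (h : ∀ i < n, A i = A (n - 1 - i)) :
    (ls A n).reverse = ls A n := by
  apply List.ext_getElem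
  · simp [ls]
  · intro i h1 h2
    simp only [ls, List.length_reverse, List.length_map, List.length_range] at h1 h2
    simp only [ls, List.getElem_reverse, List.getElem_map, List.getElem_range, List.length_map,
      List.length_range]
    exact (h i (by omega)).symm

end Pool.Agent.MP1f45fc.T
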