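import Mathlib
import Pool.Agent.Lib.MP_1f45fc_nt.T.Real

/-!
# Soundness of the checker, part 1: vectors and branches
-/

set_option autoImplicit false

open Finset

namespace Pool.Agent.MP1f45fc.T

/-! ### Sums with one changed window value -/

theorem sum_single (n m : ℕ) (A G : ℕ → ℤ) (P : ℕ → ℕ → Prop) [∀ i j, Decidable (P i j)] (c : ℤ)
    (i0 j0 : ℕ) (Q : Prop) [Decidable Q] (hi : Q → i0 < n) (hj : Q → j0 < m)
    (h : ∀ i < n, ∀ j < m, P i j ↔ (i = i0 ∧ j = j0 ∧ Q)) :
    ∑ i ∈ range n, ∑ j ∈ range m, A i * G j * (if P i j then c else 0) =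
      if Q then A i0 * G j0 * c else 0 := by
  split
  · rename_i hQ
    rw [sum_eq_single_of_mem i0 (mem_range.mpr (hi hQ)),
      sum_eq_single_of_mem j0 (mem_range.mpr (hj hQ))]
    · rw [if_pos ((h i0 (hi hQ) j0 (hj hQ)).mpr ⟨rfl, rfl, hQ⟩)]
    · intro j hj' hne
      rw [if_neg (fun hP => hne ((h i0 (hi hQ) j (mem_range.mp hj')).mp hP).2.1), mul_zero]
    · intro i hi' hne
      refine sum_eq_zero fun j hj' => ?_
      rw [if_neg (fun hP => hne ((h i (mem_range.mp hi') j (mem_range.mp hj')).mp hP).1),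
        mul_zero]
  · rename_i hQ
    refine sum_eq_zero fun i hi' => sum_eq_zero fun j hj' => ?_
    rw [if_neg (fun hP => hQ ((h i (mem_range.mp hi') j (mem_range.mp hj')).mp hP).2.2), mul_zero]

theorem upd_eq {α : Type} [DecidableEq α] (f : α → ℤ) (k : α) (v : ℤ) (x : α) :
    Function.update f k v x = f x - (if x = k then f k - v else 0) := by
  by_cases h : x = k
  · subst h; simp
  · simp [h]

theorem nn0_upd (f : ℕ → ℤ) (k : ℕ) (v : ℤ) (n : ℕ) (A : ℕ → ℤ) (h : n ≤ k) :
    nn0 (Function.update f k v) n A = nn0 f n A := by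
  unfold nn0
  refine sum_congr rfl fun i hi => sum_congr rfl fun j hj => ?_
  rw [mem_range] at hi hj
  rw [Function.update_of_ne (by omega)]

theorem nn1_upd (f : ℕ → ℤ) (k : ℕ) (v : ℤ) (n : ℕ) (A : ℕ → ℤ) (h : n ≤ k) (hk : 1 ≤ k) :
    nn1 f n A = nn1 (Function.update f k v) n A +
      2 * ((if n = k then A 0 * A (n - 1) else 0) * (f k - v)) := by
  have h1 := sum_single n n A A (fun i j => Int.natAbs ((i : ℤ) - j + 1) = k) (f k - v) (n - 1) 0
    (n = k) (by omega) (by omega) (by intro i hi j hj; constructor <;> intro h <;> omega)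
  have h2 := sum_single n n A A (fun i j => Int.natAbs ((i : ℤ) - j - 1) = k) (f k - v) 0 (n - 1)
    (n = k) (by omega) (by omega) (by intro i hi j hj; constructor <;> intro h <;> omega)
  have e : nn1 (Function.update f k v) n A = nn1 f n A -
      (∑ i ∈ range n, ∑ j ∈ range n, A i * A j *
        (if Int.natAbs ((i : ℤ) - j + 1) = k then f k - v else 0)) -
      (∑ i ∈ range n, ∑ j ∈ range n, A i * A j *
        (if Int.natAbs ((i : ℤ) - j - 1) = k then f k - v else 0)) := by
    unfold nn1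
    simp only [upd_eq]
    rw [← sum_sub_distrib, ← sum_sub_distrib]
    refine sum_congr rfl fun i _ => ?_
    rw [← sum_sub_distrib, ← sum_sub_distrib]
    refine sum_congr rfl fun j _ => ?_
    ring
  rw [e, h1, h2]
  split <;> ring

theorem ff0_upd_hi (F : ℤ → ℤ) (b : ℕ) (v : ℤ) (n m : ℕ) (A G : ℕ → ℤ) (h : m ≤ b) :
    ff0 (Function.update F (b : ℤ) v) n m A G = ff0 F n m A G := by
  unfold ff0
  refine sum_congr rfl fun i hi => sum_congr rfl fun j hj => ?_
  rw [mem_range] at hi hj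
  rw [Function.update_of_ne (by omega)]

theorem ff0_upd_lo (F : ℤ → ℤ) (a : ℕ) (v : ℤ) (n m : ℕ) (A G : ℕ → ℤ) (h : n ≤ a + 1) :
    ff0 (Function.update F (-(a : ℤ) - 1) v) n m A G = ff0 F n m A G := by
  unfold ff0
  refine sum_congr rfl fun i hi => sum_congr rfl fun j hj => ?_
  rw [mem_range] at hi hj
  rw [Function.update_of_ne (by omega)]

theorem ff1_upd_hi (F : ℤ → ℤ) (b : ℕ) (v : ℤ) (n m : ℕ) (A G : ℕ → ℤ) (h : m ≤ b)
    (hn : 1 ≤ n) (hm : 1 ≤ m) :
    ff1 F n m A G = ff1 (Function.update F (b : ℤ) v) n m A G +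
      (if m = b then A 0 * G (m - 1) else 0) * (F b - v) := by
  have h1 := sum_single n m A G (fun i j => ((j : ℤ) - i + 1) = b) (F b - v) 0 (m - 1)
    (m = b) (by omega) (by omega) (by intro i hi j hj; constructor <;> intro h <;> omega)
  have e : ff1 (Function.update F (b : ℤ) v) n m A G = ff1 F n m A G -
      (∑ i ∈ range n, ∑ j ∈ range m, A i * G j *
        (if ((j : ℤ) - i + 1) = b then F b - v else 0)) := by
    unfold ff1
    rw [← sum_sub_distrib]
    refine sum_congr rfl fun i _ => ?_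
    rw [← sum_sub_distrib]
    refine sum_congr rfl fun j hj => ?_
    rw [mem_range] at hj
    rw [upd_eq, upd_eq, if_neg (show ¬ ((j : ℤ) - i - 1 = b) by omega)]
    ring
  rw [e, h1]
  split <;> ring

theorem ff1_upd_lo (F : ℤ → ℤ) (a : ℕ) (v : ℤ) (n m : ℕ) (A G : ℕ → ℤ) (h : n ≤ a + 1)
    (hn : 1 ≤ n) (hm : 1 ≤ m) :
    ff1 F n m A G = ff1 (Function.update F (-(a : ℤ) - 1) v) n m A G +
      (if n = a + 1 then A (n - 1) * G 0 else 0) * (F (-(a : ℤ) - 1) - v) := by
  have h1 := sum_single n m A G (fun i j => ((j : ℤ) - i - 1) = -(a : ℤ) - 1)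
    (F (-(a : ℤ) - 1) - v) (n - 1) 0
    (n = a + 1) (by omega) (by omega) (by intro i hi j hj; constructor <;> intro h <;> omega)
  have e : ff1 (Function.update F (-(a : ℤ) - 1) v) n m A G = ff1 F n m A G -
      (∑ i ∈ range n, ∑ j ∈ range m, A i * G j *
        (if ((j : ℤ) - i - 1) = -(a : ℤ) - 1 then F (-(a : ℤ) - 1) - v else 0)) := by
    unfold ff1
    rw [← sum_sub_distrib]
    refine sum_congr rfl fun i hi => ?_
    rw [← sum_sub_distrib]
    refine sum_congr rfl fun j hj => ?_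
    rw [mem_range] at hi
    rw [upd_eq, upd_eq, if_neg (show ¬ ((j : ℤ) - i + 1 = -(a : ℤ) - 1) by omega)]
    ring
  rw [e, h1]
  split <;> ring

/-! ### Extension of packed windows -/

variable {W : ℕ} {s : St} {f : ℕ → ℤ} {F : ℤ → ℤ}

theorem Pk.extN (h : Pk s f F) (v : ℤ) (hv : |v| ≤ 262144) :
    Pk (extN s v) (Function.update f (s.u + 1) v) F where
  R := by
    have e0 : (T.extN s v).R = TZ * s.R + v * (1 + TZ ^ (2 * s.u + 2)) := by
      have : (T.extN s v).R = 18446744073709551616 * s.R +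
        v * ((1 + 18446744073709551616 ^ (2 * s.u + 2) : ℕ) : ℤ) := rfl
      rw [this]
      push_cast
      rfl
    have e1 : (T.extN s v).u = s.u + 1 := rfl
    rw [e0, e1, h.R]
    have e2 : 2 * (s.u + 1) + 1 = (2 * s.u + 1) + 1 + 1 := by ring
    rw [e2, sum_range_succ _ (2 * s.u + 1 + 1), sum_range_succ' _ (2 * s.u + 1), mul_sum]
    have e3 : Int.natAbs (((s.u + 1 : ℕ) : ℤ) - ((2 * s.u + 1 + 1 : ℕ) : ℤ)) = s.u + 1 := by omega
    have e4 : Int.natAbs (((s.u + 1 : ℕ) : ℤ) - ((0 : ℕ) : ℤ)) = s.u + 1 := by omega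
    rw [e3, e4, Function.update_self]
    have e5 : ∀ l ∈ range (2 * s.u + 1),
        Function.update f (s.u + 1) v (Int.natAbs (((s.u + 1 : ℕ) : ℤ) - ((l + 1 : ℕ) : ℤ))) *
          TZ ^ (l + 1) = TZ * (f (Int.natAbs ((s.u : ℤ) - l)) * TZ ^ l) := by
      intro l hl
      rw [mem_range] at hl
      rw [Function.update_of_ne (by omega)]
      have : Int.natAbs (((s.u + 1 : ℕ) : ℤ) - ((l + 1 : ℕ) : ℤ)) = Int.natAbs ((s.u : ℤ) - l) := by
        omega
      rw [this]
      ring
    rw [sum_congr rfl e5]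
    ring
  V := h.V
  fb := by
    intro k hk
    have e1 : (T.extN s v).u = s.u + 1 := rfl
    rw [e1] at hk
    by_cases hk' : k = s.u + 1
    · rw [hk', Function.update_self]; exact hv
    · rw [Function.update_of_ne hk']; exact h.fb k (by omega)
  Fb := h.Fb

theorem Pk.extH (h : Pk s f F) (v : ℤ) (hv : |v| ≤ 262144) :
    Pk (extH s v) f (Function.update F (s.b : ℤ) v) where
  R := h.R
  V := by
    have e0 : (T.extH s v).V = TZ * s.V + v := rfl
    have e1 : (T.extH s v).b = s.b + 1 := rfl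
    have e2 : (T.extH s v).a = s.a := rfl
    rw [e0, e1, e2, h.V, ← add_assoc, sum_range_succ', mul_sum]
    have e4 : ((s.b + 1 : ℕ) : ℤ) - 1 - ((0 : ℕ) : ℤ) = s.b := by push_cast; ring
    rw [e4, Function.update_self, pow_zero, mul_one]
    congr 1
    refine sum_congr rfl fun l _ => ?_
    have e5 : ((s.b + 1 : ℕ) : ℤ) - 1 - ((l + 1 : ℕ) : ℤ) = (s.b : ℤ) - 1 - l := by
      push_cast; ring
    rw [e5, Function.update_of_ne (by omega)]
    ring
  fb := h.fb
  Fb := by
    intro l hl
    have e1 : (T.extH s v).b = s.b + 1 := rfl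
    have e2 : (T.extH s v).a = s.a := rfl
    rw [e1, e2] at hl
    rw [e1]
    by_cases hl' : l = 0
    · have e4 : ((s.b + 1 : ℕ) : ℤ) - 1 - (l : ℤ) = s.b := by subst hl'; push_cast; ring
      rw [e4, Function.update_self]; exact hv
    · rw [Function.update_of_ne (by omega)]
      have e5 : ((s.b + 1 : ℕ) : ℤ) - 1 - (l : ℤ) = (s.b : ℤ) - 1 - ((l - 1 : ℕ) : ℤ) := by omega
      rw [e5]
      exact h.Fb _ (by omega)

theorem Pk.extL (h : Pk s f F) (v : ℤ) (hv : |v| ≤ 262144) :
    Pk (extL s v) f (Function.update F (-(s.a : ℤ) - 1) v) where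
  R := h.R
  V := by
    have e0 : (T.extL s v).V = s.V + v * TZ ^ (s.a + s.b) := by
      have : (T.extL s v).V = s.V + v * ((18446744073709551616 ^ (s.a + s.b) : ℕ) : ℤ) := rfl
      rw [this]
      push_cast
      rfl
    have e1 : (T.extL s v).b = s.b := rfl
    have e2 : (T.extL s v).a = s.a + 1 := rfl
    have e3 : s.a + 1 + s.b = s.a + s.b + 1 := by ring
    rw [e0, e1, e2, h.V, e3, sum_range_succ]
    have e4 : (s.b : ℤ) - 1 - ((s.a + s.b : ℕ) : ℤ) = -(s.a : ℤ) - 1 := by push_cast; ring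
    rw [e4, Function.update_self]
    congr 1
    refine sum_congr rfl fun l hl => ?_
    rw [mem_range] at hl
    rw [Function.update_of_ne (by omega)]
  fb := h.fb
  Fb := by
    intro l hl
    have e1 : (T.extL s v).b = s.b := rfl
    have e2 : (T.extL s v).a = s.a + 1 := rfl
    rw [e1, e2] at hl
    rw [e1]
    by_cases hl' : l = s.a + s.b
    · have e4 : (s.b : ℤ) - 1 - (l : ℤ) = -(s.a : ℤ) - 1 := by subst hl'; push_cast; ring
      rw [e4, Function.update_self]; exact hv
    · rw [Function.update_of_ne (by omega)]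
      exact h.Fb _ (by omega)

/-- windows after the new value has been replaced by `v` -/
def updN (d : ℕ) (s : St) (f : ℕ → ℤ) (v : ℤ) : ℕ → ℤ :=
  match d with
  | 0 => Function.update f (s.u + 1) v
  | 1 => f
  | _ => f

def updF (d : ℕ) (s : St) (F : ℤ → ℤ) (v : ℤ) : ℤ → ℤ :=
  match d with
  | 0 => F
  | 1 => Function.update F (s.b : ℤ) v
  | _ => Function.update F (-(s.a : ℤ) - 1) v

/-- the new value -/
def nxt (d : ℕ) (s : St) (f : ℕ → ℤ) (F : ℤ → ℤ) : ℤ :=
  match d with
  | 0 => f (s.u + 1)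
  | 1 => F (s.b : ℤ)
  | _ => F (-(s.a : ℤ) - 1)

theorem Pk.ext (d : ℕ) (h : Pk s f F) (v : ℤ) (hv : |v| ≤ 262144) :
    Pk (ext d s v) (updN d s f v) (updF d s F v) := by
  match d with
  | 0 => exact h.extN v hv
  | 1 => exact h.extH v hv
  | _ + 2 => exact h.extL v hv

theorem Pk.ext_nxt (d : ℕ) (h : Pk s f F) (hv : |nxt d s f F| ≤ 262144) :
    Pk (T.ext d s (nxt d s f F)) f F := by
  have h1 := h.ext d (nxt d s f F) hv
  match d with
  | 0 =>
    have e : updN 0 s f (nxt 0 s f F) = f := Function.update_eq_self _ _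
    rw [e] at h1
    exact h1
  | 1 =>
    have e : updF 1 s F (nxt 1 s f F) = F := Function.update_eq_self _ _
    rw [e] at h1
    exact h1
  | d + 2 =>
    have e : updF (d + 2) s F (nxt (d + 2) s f F) = F := Function.update_eq_self _ _
    rw [e] at h1
    exact h1

/-! ### Values of vectors -/

/-- far window function with the origin moved to `k` below the upper end of the window -/
def Fs (s : St) (k : ℕ) (F : ℤ → ℤ) : ℤ → ℤ := fun d => F (d + ((s.b : ℤ) - k))

theorem Pk.sh (h : Pk s f F) (k : ℕ) (hk : k ≤ s.a + s.b) : Pk (sh s k) f (Fs s k F) where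
  R := h.R
  V := by
    have e1 : (T.sh s k).V = s.V := rfl
    have e2 : (T.sh s k).b = k := rfl
    have e3 : (T.sh s k).a + (T.sh s k).b = s.a + s.b := by
      have : (T.sh s k).a = s.a + s.b - k := rfl
      omega
    rw [e1, e3, h.V]
    refine sum_congr rfl fun l _ => ?_
    unfold Fs
    rw [e2]
    congr 2
    ring
  fb := h.fb
  Fb := by
    intro l hl
    have e2 : (T.sh s k).b = k := rfl
    have e3 : (T.sh s k).a + (T.sh s k).b = s.a + s.b := by
      have : (T.sh s k).a = s.a + s.b - k := rfl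
      omega
    rw [e3] at hl
    have := h.Fb l hl
    unfold Fs
    rw [e2]
    have e4 : (k : ℤ) - 1 - l + ((s.b : ℤ) - k) = (s.b : ℤ) - 1 - l := by ring
    rw [e4]
    exact this

/-- `2 N` -/
def N2 (W : ℕ) (s : St) (f : ℕ → ℤ) (F : ℤ → ℤ) (p q : ℕ) : ℤ :=
  nn0 f (p % 128) (ent W (p / 128)) + nn0 f (q % 128) (ent W (q / 128)) +
    2 * ff0 (Fs s (q % 128 + 1) F) (p % 128) (q % 128) (ent W (p / 128)) (ent W (q / 128))

/-- `2 N'` -/
def M2 (W : ℕ) (s : St) (f : ℕ → ℤ) (F : ℤ → ℤ) (p q : ℕ) : ℤ :=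
  nn1 f (p % 128) (ent W (p / 128)) + nn1 f (q % 128) (ent W (q / 128)) +
    2 * ff1 (Fs s (q % 128 + 1) F) (p % 128) (q % 128) (ent W (p / 128)) (ent W (q / 128))

/-- sizes of an admissible vector -/
def Fits (s : St) (p q : ℕ) : Prop :=
  1 ≤ p % 128 ∧ p % 128 ≤ s.u ∧ (q % 128 = 0 ∨
    (1 ≤ q % 128 ∧ q % 128 ≤ s.u ∧ p % 128 + q % 128 + 1 ≤ s.a + s.b))

theorem evM_eq (hW : 2 ≤ W) (hW' : W ≤ 65536) (h : Pk s f F) (p q : ℕ) (x : ℤ × ℤ)
    (hx : evM W s p q = some x) : Fits s p q ∧ x = (N2 W s f F p q, M2 W s f F p q) := by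
  have hp : p % 128 < 128 := Nat.mod_lt _ (by norm_num)
  have hq : q % 128 < 128 := Nat.mod_lt _ (by norm_num)
  unfold evM at hx
  rcases hb : Nat.beq q 0 with _ | _
  · simp only [hb] at hx
    rw [cond_eq_ite] at hx
    split at hx
    · rename_i hc
      simp only [Bool.and_eq_true, Nat.ble_eq] at hc
      obtain ⟨c1, c2, c3, c4, c5⟩ := hc
      change 1 ≤ p % 128 at c1
      change p % 128 ≤ s.u at c2
      change 1 ≤ q % 128 at c3
      change q % 128 ≤ s.u at c4
      change p % 128 + q % 128 + 1 ≤ s.a + s.b at c5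
      refine ⟨⟨c1, c2, Or.inr ⟨c3, c4, c5⟩⟩, ?_⟩
      have e1 := near_eq hW hW' h (p / 128) (p % 128) hp c1 c2
      have e2 := near_eq hW hW' h (q / 128) (q % 128) hq c3 c4
      have e3 := far_eq hW hW' (h.sh (q % 128 + 1) (by omega)) (p / 128) (p % 128) (q / 128)
        (q % 128) hp hq c1 c3 (by
          have : (T.sh s (q % 128 + 1)).a = s.a + s.b - (q % 128 + 1) := rfl
          omega) le_rfl
      have hx' : (match near W s (p / 128) (p % 128), near W s (q / 128) (q % 128),
        far W (sh s (q % 128 + 1)) (p / 128) (p % 128) (q / 128) (q % 128) with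
        | (a1, a2), (b1, b2), (c1, c2) =>
          some (Int.add (Int.add a1 b1) (Int.mul 2 c1), Int.add (Int.add a2 b2) (Int.mul 2 c2)))
        = some x := hx
      rw [e1, e2, e3] at hx'
      exact (Option.some.inj hx').symm
    · exact absurd hx (by simp)
  · simp only [hb] at hx
    have hq0 : q = 0 := Nat.eq_of_beq_eq_true hb
    rw [cond_eq_ite] at hx
    split at hx
    · rename_i hc
      simp only [Bool.and_eq_true, Nat.ble_eq] at hc
      obtain ⟨c1, c2⟩ := hc
      change 1 ≤ p % 128 at c1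
      change p % 128 ≤ s.u at c2
      refine ⟨⟨c1, c2, Or.inl (by rw [hq0])⟩, ?_⟩
      have e1 := near_eq hW hW' h (p / 128) (p % 128) hp c1 c2
      have hx' : some (near W s (p / 128) (p % 128)) = some x := hx
      rw [e1] at hx'
      rw [← Option.some.inj hx', hq0]
      unfold N2 M2
      simp [nn0, nn1, ff0, ff1]
    · exact absurd hx (by simp)

theorem N2_upd (d : ℕ) (v : ℤ) (p q : ℕ) (hf : Fits (ext d s v) p q) :
    N2 W (ext d s v) (updN d s f v) (updF d s F v) p q = N2 W (ext d s v) f F p q := by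
  obtain ⟨h1, h2, h3⟩ := hf
  unfold N2
  match d with
  | 0 =>
    have e1 : (ext 0 s v).u = s.u + 1 := rfl
    rw [e1] at h2 h3
    have e2 : updN 0 s f v = Function.update f (s.u + 1) v := rfl
    have e3 : updF 0 s F v = F := rfl
    rw [e2, e3, nn0_upd _ _ _ _ _ h2, nn0_upd]
    omega
  | 1 =>
    have e1 : (ext 1 s v).b = s.b + 1 := rfl
    rw [e1] at h3
    have e2 : updN 1 s f v = f := rfl
    have e3 : Fs (ext 1 s v) (q % 128 + 1) (updF 1 s F v) =
        Function.update (Fs (ext 1 s v) (q % 128 + 1) F) ((q % 128 : ℕ) : ℤ) v := by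
      funext d
      have : updF 1 s F v = Function.update F (s.b : ℤ) v := rfl
      unfold Fs
      rw [this, e1]
      by_cases hd : d = ((q % 128 : ℕ) : ℤ)
      · rw [hd, Function.update_self]
        have : ((q % 128 : ℕ) : ℤ) + (((s.b + 1 : ℕ) : ℤ) - ((q % 128 + 1 : ℕ) : ℤ)) = s.b := by
          push_cast; ring
        rw [this, Function.update_self]
      · rw [Function.update_of_ne hd, Function.update_of_ne (by push_cast; omega)]
    rw [e2, e3, ff0_upd_hi _ _ _ _ _ _ _ le_rfl]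
  | d + 2 =>
    have e1 : (ext (d + 2) s v).a = s.a + 1 := rfl
    have e1' : (ext (d + 2) s v).b = s.b := rfl
    rw [e1, e1'] at h3
    have e2 : updN (d + 2) s f v = f := rfl
    rcases h3 with h3 | h3
    · rw [h3]
      simp [ff0, e2]
    · have e3 : Fs (ext (d + 2) s v) (q % 128 + 1) (updF (d + 2) s F v) =
          Function.update (Fs (ext (d + 2) s v) (q % 128 + 1) F)
            (-((s.a + s.b - (q % 128 + 1) : ℕ) : ℤ) - 1) v := by
        funext x
        have : updF (d + 2) s F v = Function.update F (-(s.a : ℤ) - 1) v := rfl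
        unfold Fs
        rw [this, e1']
        by_cases hd : x = -((s.a + s.b - (q % 128 + 1) : ℕ) : ℤ) - 1
        · rw [hd, Function.update_self]
          have : -((s.a + s.b - (q % 128 + 1) : ℕ) : ℤ) - 1 +
              ((s.b : ℤ) - ((q % 128 + 1 : ℕ) : ℤ)) = -(s.a : ℤ) - 1 := by omega
          rw [this, Function.update_self]
        · rw [Function.update_of_ne hd, Function.update_of_ne (by omega)]
      rw [e2, e3, ff0_upd_lo _ _ _ _ _ _ _ (by omega)]

theorem M2_upd (d : ℕ) (v : ℤ) (p q : ℕ) (hf : Fits (ext d s v) p q) :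
    M2 W (ext d s v) f F p q = M2 W (ext d s v) (updN d s f v) (updF d s F v) p q +
      2 * (coef W d (ext d s v) p q * (nxt d s f F - v)) := by
  obtain ⟨h1, h2, h3⟩ := hf
  unfold M2
  match d with
  | 0 =>
    have e1 : (ext 0 s v).u = s.u + 1 := rfl
    rw [e1] at h2 h3
    have e2 : updN 0 s f v = Function.update f (s.u + 1) v := rfl
    have e3 : updF 0 s F v = F := rfl
    have e4 : nxt 0 s f F = f (s.u + 1) := rfl
    have e5 : coef W 0 (ext 0 s v) p q =
        (bif Nat.beq (p % 128) (s.u + 1) then pe W p else 0) +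
        (bif Nat.beq (q % 128) (s.u + 1) then pe W q else 0) := rfl
    have e6 : ∀ p : ℕ, (bif Nat.beq (p % 128) (s.u + 1) then pe W p else 0) =
        if p % 128 = s.u + 1 then ent W (p / 128) 0 * ent W (p / 128) (p % 128 - 1) else 0 := by
      intro p
      rw [cond_eq_ite]
      by_cases h : p % 128 = s.u + 1
      · rw [if_pos h, if_pos (by rw [h]; exact Nat.beq_refl _)]
        rfl
      · rw [if_neg h, if_neg (fun hb => h (Nat.eq_of_beq_eq_true hb))]
    rw [e2, e3, e4, e5, e6, e6, nn1_upd f (s.u + 1) v (p % 128) _ h2 (by omega),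
      nn1_upd f (s.u + 1) v (q % 128) _ (by omega) (by omega)]
    ring
  | 1 =>
    have e1 : (ext 1 s v).b = s.b + 1 := rfl
    rw [e1] at h3
    have e2 : updN 1 s f v = f := rfl
    have e3 : Fs (ext 1 s v) (q % 128 + 1) (updF 1 s F v) =
        Function.update (Fs (ext 1 s v) (q % 128 + 1) F) ((q % 128 : ℕ) : ℤ) v := by
      funext d
      have : updF 1 s F v = Function.update F (s.b : ℤ) v := rfl
      unfold Fs
      rw [this, e1]
      by_cases hd : d = ((q % 128 : ℕ) : ℤ)
      · rw [hd, Function.update_self]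
        have : ((q % 128 : ℕ) : ℤ) + (((s.b + 1 : ℕ) : ℤ) - ((q % 128 + 1 : ℕ) : ℤ)) = s.b := by
          push_cast; ring
        rw [this, Function.update_self]
      · rw [Function.update_of_ne hd, Function.update_of_ne (by push_cast; omega)]
    have e4 : nxt 1 s f F = F s.b := rfl
    have e5 : coef W 1 (ext 1 s v) p q =
      bif Nat.ble 1 (q % 128) then
        ent W (p / 128) 0 * ent W (q / 128) (q % 128 - 1) else 0 := rfl
    have e6 : Fs (ext 1 s v) (q % 128 + 1) F ((q % 128 : ℕ) : ℤ) = F s.b := by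
      unfold Fs
      rw [e1]
      congr 1
      push_cast; ring
    rw [e2, e3, e4, e5, cond_eq_ite]
    rcases h3 with h3 | h3
    · rw [h3]
      simp [ff1]
    · rw [ff1_upd_hi _ (q % 128) v (p % 128) (q % 128) _ _ le_rfl h1 h3.1, if_pos rfl,
        if_pos (by rw [Nat.ble_eq]; exact h3.1), e6]
      ring
  | d + 2 =>
    have e1 : (ext (d + 2) s v).a = s.a + 1 := rfl
    have e1' : (ext (d + 2) s v).b = s.b := rfl
    rw [e1, e1'] at h3
    have e2 : updN (d + 2) s f v = f := rfl
    have e4 : nxt (d + 2) s f F = F (-(s.a : ℤ) - 1) := rfl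
    have e5 : coef W (d + 2) (ext (d + 2) s v) p q =
      bif Nat.beq (p % 128 + q % 128 + 1) (s.a + 1 + s.b) && Nat.ble 1 (q % 128) then
        ent W (p / 128) (p % 128 - 1) * ent W (q / 128) 0 else 0 := rfl
    rcases h3 with h3 | h3
    · rw [e5, cond_eq_ite, h3]
      simp [ff1, e2]
    · have e3 : Fs (ext (d + 2) s v) (q % 128 + 1) (updF (d + 2) s F v) =
          Function.update (Fs (ext (d + 2) s v) (q % 128 + 1) F)
            (-((s.a + s.b - (q % 128 + 1) : ℕ) : ℤ) - 1) v := by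
        funext x
        have : updF (d + 2) s F v = Function.update F (-(s.a : ℤ) - 1) v := rfl
        unfold Fs
        rw [this, e1']
        by_cases hd : x = -((s.a + s.b - (q % 128 + 1) : ℕ) : ℤ) - 1
        · rw [hd, Function.update_self]
          have : -((s.a + s.b - (q % 128 + 1) : ℕ) : ℤ) - 1 +
              ((s.b : ℤ) - ((q % 128 + 1 : ℕ) : ℤ)) = -(s.a : ℤ) - 1 := by omega
          rw [this, Function.update_self]
        · rw [Function.update_of_ne hd, Function.update_of_ne (by omega)]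
      have e6 : Fs (ext (d + 2) s v) (q % 128 + 1) F
          (-((s.a + s.b - (q % 128 + 1) : ℕ) : ℤ) - 1) = F (-(s.a : ℤ) - 1) := by
        unfold Fs
        rw [e1']
        congr 1
        omega
      rw [e2, e3, e4, e5, cond_eq_ite,
        ff1_upd_lo _ (s.a + s.b - (q % 128 + 1)) v (p % 128) (q % 128) _ _ (by omega) h1 h3.1, e6]
      have e7 : (Nat.beq (p % 128 + q % 128 + 1) (s.a + 1 + s.b) && Nat.ble 1 (q % 128)) = true ↔
          p % 128 = s.a + s.b - (q % 128 + 1) + 1 := by
        simp only [Bool.and_eq_true, Nat.ble_eq, Nat.beq_eq]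
        omega
      by_cases h : p % 128 = s.a + s.b - (q % 128 + 1) + 1
      · rw [if_pos (e7.mpr h), if_pos h]
        ring
      · rw [if_neg (fun hb => h (e7.mp hb)), if_neg h]
        ring

end Pool.Agent.MP1f45fc.T
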