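import Mathlib
import Pool.Agent.Lib.MP_1f45fc_nt.T.Sound

/-!
# Soundness of the checker, part 2
-/

set_option autoImplicit false

open Finset

namespace Pool.Agent.MP1f45fc.T

/-- The facts used by the checker. -/
structure Hyp (c : Cfg) (t : ℝ) (r : ℕ → ℤ) (K : ℕ) : Prop where
  good : Good t r
  leh : evS t 0 lehL ≠ 0
  mx : c.mx = true → (∀ k, 0 ≤ r k) ∧ ∀ k l, 1 ≤ k → 1 ≤ l → r k + r l - 1 ≤ r (k + l)
  zr : 1 ≤ c.D0 → ∀ j, K ≤ j → ∃ i, i < c.D0 ∧ r (j + i) ≠ 0
  K0 : c.K0 ≤ K

/-- The sequence `r` and `γ = 2 cosh t` are in the state `s` (far window at `K`). -/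
structure At (t : ℝ) (r : ℕ → ℤ) (K : ℕ) (s : St) : Prop where
  pk : Pk s r (fr r K)
  lo : (s.lo : ℝ) ≤ 4294967296 * gam t
  hi : 4294967296 * gam t < s.hi
  aK : s.a < K

variable {c : Cfg} {t : ℝ} {r : ℕ → ℤ} {K : ℕ} {s : St} {W : ℕ}

/-- far window function with moved origin -/
theorem Fs_fr (s : St) (k : ℕ) (hk : k ≤ s.a + s.b) (hK : s.a < K) :
    Fs s k (fr r K) = fr r (K + s.b - k) := by
  funext d
  unfold Fs fr
  congr 1
  omega

theorem real_ev (hg : Good t r) (p q : ℕ) (hf : Fits s p q) (hK : s.a < K) :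
    (M2 W s r (fr r K) p q : ℝ) ≤ gam t * N2 W s r (fr r K) p q := by
  obtain ⟨h1, h2, h3⟩ := hf
  rcases h3 with h3 | h3
  · have e1 : M2 W s r (fr r K) p q = 2 * nrm' r (ls (ent W (p / 128)) (p % 128)) := by
      rw [nrm'_ls]
      unfold M2
      rw [h3]
      simp [nn1, ff1]
    have e2 : N2 W s r (fr r K) p q = 2 * nrm r (ls (ent W (p / 128)) (p % 128)) := by
      rw [nrm_ls r hg.zero]
      unfold N2
      rw [h3]
      simp [nn0, ff0]
    have := hg.cert (ls (ent W (p / 128)) (p % 128))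
    rw [e1, e2]
    push_cast
    linarith
  · obtain ⟨h4, h5, h6⟩ := h3
    have hn : p % 128 < K + s.b - (q % 128 + 1) := by omega
    have eF := Fs_fr (r := r) s (q % 128 + 1) (by omega) hK
    have e1 : M2 W s r (fr r K) p q = 2 * nrm' r (vec (ent W (p / 128)) (p % 128)
        (K + s.b - (q % 128 + 1)) (ent W (q / 128)) (q % 128)) := by
      rw [nrm'_vec r _ _ _ hn]
      unfold M2
      rw [eF]
    have e2 : N2 W s r (fr r K) p q = 2 * nrm r (vec (ent W (p / 128)) (p % 128)
        (K + s.b - (q % 128 + 1)) (ent W (q / 128)) (q % 128)) := by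
      rw [nrm_vec r hg.zero _ _ _ hn.le]
      unfold N2
      rw [eF]
    have := hg.cert (vec (ent W (p / 128)) (p % 128)
        (K + s.b - (q % 128 + 1)) (ent W (q / 128)) (q % 128))
    rw [e1, e2]
    push_cast
    linarith

theorem nrw_sound (lo hi : ℤ) (x : ℤ × ℤ) (g : ℝ) (hx : (x.2 : ℝ) ≤ g * x.1)
    (hlo : (lo : ℝ) ≤ 4294967296 * g) (hhi : 4294967296 * g < hi) :
    ((nrw lo hi x).1 : ℝ) ≤ 4294967296 * g ∧ 4294967296 * g < (nrw lo hi x).2 := by
  obtain ⟨n, m⟩ := x
  dsimp only at hx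
  have key : ∀ (k : ℕ) (y : ℤ), ((4294967296 * y / (Int.ofNat (k + 1)) : ℤ) : ℝ) * (k + 1) ≤
      4294967296 * y ∧ 4294967296 * (y : ℝ) <
        ((4294967296 * y / (Int.ofNat (k + 1)) + 1 : ℤ) : ℝ) * (k + 1) := by
    intro k y
    have hk : (0 : ℤ) < Int.ofNat (k + 1) := by
      simp only [Int.ofNat_eq_natCast]; omega
    have a1 := Int.ediv_mul_le (4294967296 * y) hk.ne'
    have a2 := Int.lt_ediv_add_one_mul_self (4294967296 * y) hk
    constructor
    · have : ((4294967296 * y / (Int.ofNat (k + 1)) * Int.ofNat (k + 1) : ℤ) : ℝ) ≤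
        ((4294967296 * y : ℤ) : ℝ) := by exact_mod_cast a1
      push_cast [Int.ofNat_eq_natCast] at this ⊢
      exact this
    · have : ((4294967296 * y : ℤ) : ℝ) <
        (((4294967296 * y / (Int.ofNat (k + 1)) + 1) * Int.ofNat (k + 1) : ℤ) : ℝ) := by
        exact_mod_cast a2
      push_cast [Int.ofNat_eq_natCast] at this ⊢
      exact this
  match n with
  | Int.ofNat 0 =>
    have h0 : (m : ℝ) ≤ 0 := by simpa using hx
    have h1 : m ≤ 0 := by exact_mod_cast h0
    have e : nrw lo hi (Int.ofNat 0, m) = (lo, hi) := by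
      unfold nrw
      have : decide (0 < m) = false := by simpa using h1
      simp only [this, cond_false]
    rw [e]
    exact ⟨hlo, hhi⟩
  | Int.ofNat (k + 1) =>
    have e : nrw lo hi (Int.ofNat (k + 1), m) =
      (max lo (4294967296 * m / (Int.ofNat (k + 1))), hi) := rfl
    rw [e]
    obtain ⟨a1, _⟩ := key k m
    have hk : (0 : ℝ) < (k : ℝ) + 1 := by positivity
    have hx' : (m : ℝ) ≤ g * (k + 1) := by
      have : ((Int.ofNat (k + 1) : ℤ) : ℝ) = (k : ℝ) + 1 := by
        simp only [Int.ofNat_eq_natCast]; push_cast; ring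
      rw [this] at hx
      exact hx
    have h2 : ((4294967296 * m / (Int.ofNat (k + 1)) : ℤ) : ℝ) ≤ 4294967296 * g := by
      have h3 : ((4294967296 * m / (Int.ofNat (k + 1)) : ℤ) : ℝ) * (k + 1) ≤
          (4294967296 * g) * (k + 1) := by
        calc _ ≤ 4294967296 * (m : ℝ) := a1
          _ ≤ 4294967296 * (g * (k + 1)) := by gcongr
          _ = _ := by ring
      exact le_of_mul_le_mul_right h3 hk
    refine ⟨?_, hhi⟩
    dsimp only
    rw [Int.cast_max]
    exact max_le hlo h2
  | Int.negSucc k =>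
    have e : nrw lo hi (Int.negSucc k, m) =
      (lo, min hi (4294967296 * (-m) / (Int.ofNat (k + 1)) + 1)) := rfl
    rw [e]
    obtain ⟨_, a2⟩ := key k (-m)
    have hk : (0 : ℝ) < (k : ℝ) + 1 := by positivity
    have hx' : g * (k + 1) ≤ -(m : ℝ) := by
      have : ((Int.negSucc k : ℤ) : ℝ) = -((k : ℝ) + 1) := by
        rw [Int.cast_negSucc]; push_cast; ring
      rw [this] at hx
      linarith
    have h2 : 4294967296 * g < ((4294967296 * (-m) / (Int.ofNat (k + 1)) + 1 : ℤ) : ℝ) := by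
      have h3 : (4294967296 * g) * (k + 1) <
          ((4294967296 * (-m) / (Int.ofNat (k + 1)) + 1 : ℤ) : ℝ) * (k + 1) := by
        calc (4294967296 * g) * (k + 1) = 4294967296 * (g * (k + 1)) := by ring
          _ ≤ 4294967296 * (-(m : ℝ)) := by gcongr
          _ = 4294967296 * ((-m : ℤ) : ℝ) := by push_cast; ring
          _ < _ := a2
      exact lt_of_mul_lt_mul_right h3 hk.le
    refine ⟨hlo, ?_⟩
    dsimp only
    rw [Int.cast_min]
    exact lt_min hhi h2

theorem dead_sound (g : ℝ) (ok : ℕ → ℕ → Bool)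
    (h : ∀ p q x, ok p q = true → evM W s p q = some x → (x.2 : ℝ) ≤ g * x.1)
    (vs : List Vec) (lo hi : ℤ) (hlo : (lo : ℝ) ≤ 4294967296 * g) (hhi : 4294967296 * g < hi)
    (hd : dead W s ok vs lo hi = true) : False := by
  induction vs generalizing lo hi with
  | nil =>
    simp only [dead, decide_eq_true_eq] at hd
    have : (hi : ℝ) ≤ lo := by exact_mod_cast hd
    linarith
  | cons v vs ih =>
    obtain ⟨p, q⟩ := v
    simp only [dead, Bool.and_eq_true] at hd
    obtain ⟨h1, h2⟩ := hd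
    rcases he : evM W s p q with _ | x
    · rw [he] at h2
      exact absurd h2 (by simp)
    · rw [he] at h2
      have h3 := nrw_sound lo hi x g (h p q x h1 he) hlo hhi
      exact ih (nrw lo hi x).1 (nrw lo hi x).2 h3.1 h3.2 h2

theorem dead_at (hW : 2 ≤ W) (hW' : W ≤ 65536) (hg : Good t r) (h : At t r K s)
    (vs : List Vec) (hd : dead W s (fun _ _ => true) vs s.lo s.hi = true) : False := by
  refine dead_sound (gam t) _ (fun p q x _ hx => ?_) vs s.lo s.hi h.lo h.hi hd
  obtain ⟨hf, hx⟩ := evM_eq hW hW' h.pk p q x hx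
  rw [hx]
  exact real_ev hg p q hf h.aK

/-- Branch certificates by `M` vectors: the new value is `w` instead of `v`, on the side where
the coefficient helps. -/
theorem dead_ext (hW : 2 ≤ W) (hW' : W ≤ 65536) (hg : Good t r) (h : At t r K s) (d : ℕ) (v : ℤ)
    (hv : |v| ≤ 262144) (hd1 : 2 ≤ d → s.a + 1 < K) (ok : ℕ → ℕ → Bool)
    (hok : ∀ p q, ok p q = true → 0 ≤ coef W d (ext d s v) p q * (nxt d s r (fr r K) - v))
    (vs : List Vec) (hd : dead W (ext d s v) ok vs s.lo s.hi = true) : False := by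
  refine dead_sound (gam t) ok (fun p q x ho hx => ?_) vs s.lo s.hi h.lo h.hi hd
  obtain ⟨hf, hx⟩ := evM_eq hW hW' (h.pk.ext d v hv) p q x hx
  have hK : (ext d s v).a < K := by
    match d with
    | 0 => exact h.aK
    | 1 => exact h.aK
    | d + 2 => exact hd1 (by omega)
  have h1 := real_ev (W := W) hg p q hf hK
  rw [hx]
  dsimp only
  rw [N2_upd d v p q hf]
  refine le_trans ?_ h1
  have h2 := M2_upd (W := W) (f := r) (F := fr r K) d v p q hf
  have h3 := hok p q ho
  have h4 : M2 W (ext d s v) (updN d s r v) (updF d s (fr r K) v) p q ≤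
      M2 W (ext d s v) r (fr r K) p q := by omega
  exact_mod_cast h4

/-! ### Palindromic vectors -/

theorem fwd_rev (hW : 2 ≤ W) (hW' : W ≤ 65536) (x n : ℕ) (h : fwd W x n = rev W x n) :
    ∀ i < n, ent W x i = ent W x (n - 1 - i) := by
  have hd : ∀ i, dgt W x i < 18446744073709551616 := fun i =>
    lt_of_lt_of_le (Nat.mod_lt _ (by omega)) (by omega)
  have e1 : fwd W x n = ∑ i ∈ range n, dgt W x i * 18446744073709551616 ^ i := by
    have := fwd_eq W x n
    zify
    rw [this]
  have e2 : rev W x n = ∑ i ∈ range n, dgt W x (n - 1 - i) * 18446744073709551616 ^ i := by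
    have h1 := rev_eq W x n
    rw [← sum_range_reflect] at h1
    zify
    rw [h1]
    refine sum_congr rfl fun i hi => ?_
    rw [mem_range] at hi
    congr 2
    omega
  intro i hi
  have h1 := digits_sum 18446744073709551616 (by norm_num) n (fun i => dgt W x i) hd i hi
  have h2 := digits_sum 18446744073709551616 (by norm_num) n (fun i => dgt W x (n - 1 - i))
    (fun i => hd _) i hi
  rw [← e1, h, e2, h2] at h1
  unfold ent
  rw [h1]

/-- quadratic form with a changed value: one window -/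
theorem nn0_mono (f : ℕ → ℤ) (k : ℕ) (v : ℤ) (n : ℕ) (A : ℕ → ℤ) (h : n ≤ k + 1) (hk : 1 ≤ k)
    (hA : A 0 = A (n - 1)) (hv : f k ≤ v) :
    nn0 f n A ≤ nn0 (Function.update f k v) n A := by
  have h1 := sum_single n n A A (fun i j => (i : ℤ) - j = k) (f k - v) (n - 1) 0
    (n = k + 1) (by omega) (by omega) (by intro i hi j hj; constructor <;> intro h <;> omega)
  have h2 := sum_single n n A A (fun i j => (j : ℤ) - i = k) (f k - v) 0 (n - 1)
    (n = k + 1) (by omega) (by omega) (by intro i hi j hj; constructor <;> intro h <;> omega)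
  have e : nn0 (Function.update f k v) n A = nn0 f n A -
      (∑ i ∈ range n, ∑ j ∈ range n, A i * A j * (if (i : ℤ) - j = k then f k - v else 0)) -
      (∑ i ∈ range n, ∑ j ∈ range n, A i * A j * (if (j : ℤ) - i = k then f k - v else 0)) := by
    unfold nn0
    simp only [upd_eq]
    rw [← sum_sub_distrib, ← sum_sub_distrib]
    refine sum_congr rfl fun i _ => ?_
    rw [← sum_sub_distrib, ← sum_sub_distrib]
    refine sum_congr rfl fun j _ => ?_
    rw [mul_sub, sub_sub, ← mul_add]
    congr 2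
    by_cases c1 : (i : ℤ) - j = k
    · rw [if_pos c1, if_pos (by omega), if_neg (by omega)]; ring
    · by_cases c2 : (j : ℤ) - i = k
      · rw [if_neg c1, if_pos (by omega), if_pos c2]; ring
      · rw [if_neg c1, if_neg (by omega), if_neg c2]; ring
  rw [e, h1, h2]
  split
  · rw [hA]
    nlinarith [mul_self_nonneg (A (n - 1))]
  · simp

theorem ff0_mono_hi (F : ℤ → ℤ) (b : ℕ) (v : ℤ) (n : ℕ) (A G : ℕ → ℤ) (h : n ≤ b + 1)
    (hA : A 0 = G (n - 1)) (hv : F b ≤ v) :
    ff0 F n n A G ≤ ff0 (Function.update F (b : ℤ) v) n n A G := by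
  have h1 := sum_single n n A G (fun i j => (j : ℤ) - i = b) (F b - v) 0 (n - 1)
    (n = b + 1) (by omega) (by omega) (by intro i hi j hj; constructor <;> intro h <;> omega)
  have e : ff0 (Function.update F (b : ℤ) v) n n A G = ff0 F n n A G -
      (∑ i ∈ range n, ∑ j ∈ range n, A i * G j * (if (j : ℤ) - i = b then F b - v else 0)) := by
    unfold ff0
    simp only [upd_eq]
    rw [← sum_sub_distrib]
    refine sum_congr rfl fun i _ => ?_
    rw [← sum_sub_distrib]
    refine sum_congr rfl fun j _ => ?_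
    ring
  rw [e, h1]
  split
  · rw [hA]
    nlinarith [mul_self_nonneg (G (n - 1))]
  · simp

theorem ff0_mono_lo (F : ℤ → ℤ) (a : ℕ) (v : ℤ) (n : ℕ) (A G : ℕ → ℤ) (h : n ≤ a + 2)
    (hA : A (n - 1) = G 0) (hv : F (-(a : ℤ) - 1) ≤ v) :
    ff0 F n n A G ≤ ff0 (Function.update F (-(a : ℤ) - 1) v) n n A G := by
  have h1 := sum_single n n A G (fun i j => (j : ℤ) - i = -(a : ℤ) - 1)
    (F (-(a : ℤ) - 1) - v) (n - 1) 0
    (n = a + 2) (by omega) (by omega) (by intro i hi j hj; constructor <;> intro h <;> omega)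
  have e : ff0 (Function.update F (-(a : ℤ) - 1) v) n n A G = ff0 F n n A G -
      (∑ i ∈ range n, ∑ j ∈ range n, A i * G j *
        (if (j : ℤ) - i = -(a : ℤ) - 1 then F (-(a : ℤ) - 1) - v else 0)) := by
    unfold ff0
    simp only [upd_eq]
    rw [← sum_sub_distrib]
    refine sum_congr rfl fun i _ => ?_
    rw [← sum_sub_distrib]
    refine sum_congr rfl fun j _ => ?_
    ring
  rw [e, h1]
  split
  · rw [hA]
    nlinarith [mul_self_nonneg (G 0)]
  · simp

theorem pal1_ext (hW : 2 ≤ W) (hW' : W ≤ 65536) (hg : Good t r) (h : At t r K s) (d : ℕ) (v : ℤ)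
    (hv : |v| ≤ 262144) (hn : nxt d s r (fr r K) ≤ v) (p : ℕ)
    (hp : pal1 W (ext d s v) p = true) : False := by
  unfold pal1 at hp
  simp only [Bool.and_eq_true, Nat.ble_eq, decide_eq_true_eq] at hp
  obtain ⟨h1, h2, h3, h4⟩ := hp
  have h3' : ∀ i < p % 128, ent W (p / 128) i = ent W (p / 128) (p % 128 - 1 - i) :=
    fwd_rev hW hW' _ _ (Nat.eq_of_beq_eq_true h3)
  change 1 ≤ p % 128 at h1
  change p % 128 ≤ (ext d s v).u + 1 at h2
  have hm : p % 128 < 128 := Nat.mod_lt _ (by norm_num)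
  have e1 := palN_eq hW hW' (h.pk.ext d v hv) (p / 128) (p % 128) hm h1 h2
  have e2 : palN W (ext d s v) (Nat.div p 128) (Nat.mod p 128) =
    nn0 (updN d s r v) (p % 128) (ent W (p / 128)) := e1
  rw [e2] at h4
  have h5 : nn0 r (p % 128) (ent W (p / 128)) ≤
      nn0 (updN d s r v) (p % 128) (ent W (p / 128)) := by
    match d with
    | 0 =>
      have e3 : (ext 0 s v).u = s.u + 1 := rfl
      rw [e3] at h2
      exact nn0_mono r (s.u + 1) v _ _ h2 (by omega) (h3' 0 (by omega)) hn
    | 1 => exact le_refl _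
    | d + 2 => exact le_refl _
  have h6 := hg.pal _ (ls_pal (ent W (p / 128)) (p % 128) h3')
  have h7 := nrm_ls r hg.zero (p % 128) (ent W (p / 128))
  omega

theorem nn0_reflect (f : ℕ → ℤ) (n : ℕ) (A : ℕ → ℤ) :
    nn0 f n (fun i => A (n - 1 - i)) = nn0 f n A := by
  unfold nn0
  rw [← sum_range_reflect]
  refine sum_congr rfl fun i hi => ?_
  rw [← sum_range_reflect]
  refine sum_congr rfl fun j hj => ?_
  rw [mem_range] at hi hj
  have a1 : n - 1 - (n - 1 - i) = i := by omega
  have a2 : n - 1 - (n - 1 - j) = j := by omega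
  dsimp only
  rw [a1, a2]
  congr 2
  omega

/-- Real inequality behind `pal2`. -/
theorem real_pal2 (hg : Good t r) (x n : ℕ) (h : n + n ≤ s.a + s.b + 1) (h' : n ≤ s.a + s.b)
    (hK : s.a < K) :
    0 ≤ nn0 r n (ent W x) + ff0 (Fs s n (fr r K)) n n (ent W x) (fun i => ent W x (n - 1 - i)) := by
  have eF := Fs_fr (r := r) s n h' hK
  have hn : n ≤ K + s.b - n := by omega
  have h6 := hg.pal _ (vec_pal (ent W x) n (K + s.b - n))
  have h7 := nrm_vec r hg.zero n n (K + s.b - n) hn (ent W x) (fun i => ent W x (n - 1 - i))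
  rw [nn0_reflect] at h7
  rw [eF]
  omega

theorem pal2_ext (hW : 2 ≤ W) (hW' : W ≤ 65536) (hg : Good t r) (h : At t r K s) (d : ℕ) (v : ℤ)
    (hv : |v| ≤ 262144) (hn : nxt d s r (fr r K) ≤ v) (hd0 : 1 ≤ d) (hd1 : 2 ≤ d → s.a + 1 < K)
    (p : ℕ) (hp : pal2 W (ext d s v) p = true) : False := by
  unfold pal2 at hp
  simp only [Bool.and_eq_true, Nat.ble_eq, decide_eq_true_eq] at hp
  obtain ⟨h1, h2, h3, h4, h5⟩ := hp
  change 1 ≤ p % 128 at h1
  change p % 128 ≤ (ext d s v).u + 1 at h2
  change p % 128 + p % 128 ≤ (ext d s v).a + (ext d s v).b + 1 at h3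
  change p % 128 ≤ (ext d s v).a + (ext d s v).b at h4
  have hm : p % 128 < 128 := Nat.mod_lt _ (by norm_num)
  have e1 := palN_eq hW hW' (h.pk.ext d v hv) (p / 128) (p % 128) hm h1 h2
  have e1' := palF_eq hW hW' ((h.pk.ext d v hv).sh (p % 128) h4) (p / 128) (p % 128) hm h1 le_rfl
    (by
      have : (T.sh (ext d s v) (p % 128)).a = (ext d s v).a + (ext d s v).b - p % 128 := rfl
      omega)
  have h5' : palN W (ext d s v) (p / 128) (p % 128) +
      palF W (sh (ext d s v) (p % 128)) (p / 128) (p % 128) < 0 := h5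
  rw [e1, e1'] at h5'
  have hK : (ext d s v).a < K := by
    match d with
    | 0 => exact h.aK
    | 1 => exact h.aK
    | d + 2 => exact hd1 (by omega)
  have h6 := real_pal2 (W := W) hg (p / 128) (p % 128) h3 h4 hK
  have h9 : nn0 (updN d s r v) (p % 128) (ent W (p / 128)) =
      nn0 r (p % 128) (ent W (p / 128)) := by
    match d with
    | 0 => omega
    | 1 => rfl
    | d + 2 => rfl
  have h10 : ff0 (Fs (ext d s v) (p % 128) (fr r K)) (p % 128) (p % 128) (ent W (p / 128))
      (fun i => ent W (p / 128) (p % 128 - 1 - i)) ≤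
      ff0 (Fs (ext d s v) (p % 128) (updF d s (fr r K) v)) (p % 128) (p % 128) (ent W (p / 128))
      (fun i => ent W (p / 128) (p % 128 - 1 - i)) := by
    match d with
    | 0 => exact le_refl _
    | 1 =>
      have e0 : (ext 1 s v).b = s.b + 1 := rfl
      have e3 : Fs (ext 1 s v) (p % 128) (updF 1 s (fr r K) v) =
          Function.update (Fs (ext 1 s v) (p % 128) (fr r K)) ((p % 128 - 1 : ℕ) : ℤ) v := by
        funext x
        have : updF 1 s (fr r K) v = Function.update (fr r K) (s.b : ℤ) v := rfl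
        unfold Fs
        rw [this, e0]
        by_cases hd : x = ((p % 128 - 1 : ℕ) : ℤ)
        · rw [hd, Function.update_self]
          have : ((p % 128 - 1 : ℕ) : ℤ) + (((s.b + 1 : ℕ) : ℤ) - ((p % 128 : ℕ) : ℤ)) = s.b := by
            omega
          rw [this, Function.update_self]
        · rw [Function.update_of_ne hd, Function.update_of_ne (by omega)]
      have e6 : Fs (ext 1 s v) (p % 128) (fr r K) ((p % 128 - 1 : ℕ) : ℤ) = fr r K s.b := by
        unfold Fs
        rw [e0]
        congr 1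
        omega
      rw [e3]
      refine ff0_mono_hi _ (p % 128 - 1) v _ _ _ (by omega) ?_ (by rw [e6]; exact hn)
      rw [Nat.sub_self]
    | d + 2 =>
      have e0 : (ext (d + 2) s v).a = s.a + 1 := rfl
      have e0' : (ext (d + 2) s v).b = s.b := rfl
      rw [e0, e0'] at h3 h4
      by_cases hb : p % 128 = s.a + 1 + s.b
      · -- then `n = 1` and the window has one value
        have e7 : p % 128 = 1 := by omega
        have e8 : s.a = 0 ∧ s.b = 0 := by omega
        rw [e7]
        unfold ff0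
        simp only [sum_range_one]
        have e9 : Fs (ext (d + 2) s v) 1 (fr r K) (((0 : ℕ) : ℤ) - ((0 : ℕ) : ℤ)) ≤
            Fs (ext (d + 2) s v) 1 (updF (d + 2) s (fr r K) v) (((0 : ℕ) : ℤ) - ((0 : ℕ) : ℤ)) := by
          unfold Fs
          rw [e0', e8.2]
          have : updF (d + 2) s (fr r K) v = Function.update (fr r K) (-(s.a : ℤ) - 1) v := rfl
          rw [this, e8.1]
          have e10 : ((0 : ℕ) : ℤ) - ((0 : ℕ) : ℤ) + (((0 : ℕ) : ℤ) - ((1 : ℕ) : ℤ)) =
            -((0 : ℕ) : ℤ) - 1 := by norm_num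
          rw [e10, Function.update_self]
          have : nxt (d + 2) s r (fr r K) = fr r K (-(s.a : ℤ) - 1) := rfl
          rw [this, e8.1] at hn
          exact hn
        have e11 := mul_self_nonneg (ent W (p / 128) 0)
        exact mul_le_mul_of_nonneg_left e9 e11
      · have e3 : Fs (ext (d + 2) s v) (p % 128) (updF (d + 2) s (fr r K) v) =
            Function.update (Fs (ext (d + 2) s v) (p % 128) (fr r K))
              (-((s.a + s.b - p % 128 : ℕ) : ℤ) - 1) v := by
          funext x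
          have : updF (d + 2) s (fr r K) v = Function.update (fr r K) (-(s.a : ℤ) - 1) v := rfl
          unfold Fs
          rw [this, e0']
          by_cases hd : x = -((s.a + s.b - p % 128 : ℕ) : ℤ) - 1
          · rw [hd, Function.update_self]
            have : -((s.a + s.b - p % 128 : ℕ) : ℤ) - 1 + ((s.b : ℤ) - ((p % 128 : ℕ) : ℤ)) =
              -(s.a : ℤ) - 1 := by omega
            rw [this, Function.update_self]
          · rw [Function.update_of_ne hd, Function.update_of_ne (by omega)]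
        have e6 : Fs (ext (d + 2) s v) (p % 128) (fr r K)
            (-((s.a + s.b - p % 128 : ℕ) : ℤ) - 1) = fr r K (-(s.a : ℤ) - 1) := by
          unfold Fs
          rw [e0']
          congr 1
          omega
        rw [e3]
        refine ff0_mono_lo _ (s.a + s.b - p % 128) v _ _ _ (by omega) ?_ (by rw [e6]; exact hn)
        rw [Nat.sub_zero]
  rw [h9] at h5'
  omega

/-- A palindromic one-window vector with `N < 0` resp. `N = 0`. -/
theorem pal1_at (hW : 2 ≤ W) (hW' : W ≤ 65536) (hg : Good t r) (h : At t r K s) (p : ℕ)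
    (hp : pal1 W s p = true) : False := by
  unfold pal1 at hp
  simp only [Bool.and_eq_true, Nat.ble_eq, decide_eq_true_eq] at hp
  obtain ⟨h1, h2, h3, h4⟩ := hp
  have h3' : ∀ i < p % 128, ent W (p / 128) i = ent W (p / 128) (p % 128 - 1 - i) :=
    fwd_rev hW hW' _ _ (Nat.eq_of_beq_eq_true h3)
  have hm : p % 128 < 128 := Nat.mod_lt _ (by norm_num)
  have e2 : palN W s (Nat.div p 128) (Nat.mod p 128) =
    nn0 r (p % 128) (ent W (p / 128)) := palN_eq hW hW' h.pk (p / 128) (p % 128) hm h1 h2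
  rw [e2] at h4
  have h6 := hg.pal _ (ls_pal (ent W (p / 128)) (p % 128) h3')
  have h7 := nrm_ls r hg.zero (p % 128) (ent W (p / 128))
  omega

theorem pal0_at (hW : 2 ≤ W) (hW' : W ≤ 65536) (hg : Good t r) (h : At t r K s) (p : ℕ)
    (hp : pal0 W s p = true) :
    (ls (ent W (p / 128)) (p % 128)).reverse = ls (ent W (p / 128)) (p % 128) ∧
      nrm r (ls (ent W (p / 128)) (p % 128)) = 0 := by
  unfold pal0 at hp
  simp only [Bool.and_eq_true, Nat.ble_eq, decide_eq_true_eq] at hp
  obtain ⟨h1, h2, h3, h4⟩ := hp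
  have h3' : ∀ i < p % 128, ent W (p / 128) i = ent W (p / 128) (p % 128 - 1 - i) :=
    fwd_rev hW hW' _ _ (Nat.eq_of_beq_eq_true h3)
  have hm : p % 128 < 128 := Nat.mod_lt _ (by norm_num)
  have e2 : palN W s (Nat.div p 128) (Nat.mod p 128) =
    nn0 r (p % 128) (ent W (p / 128)) := palN_eq hW hW' h.pk (p / 128) (p % 128) hm h1 h2
  rw [e2] at h4
  have h7 := nrm_ls r hg.zero (p % 128) (ent W (p / 128))
  exact ⟨ls_pal (ent W (p / 128)) (p % 128) h3', by omega⟩

theorem pal2_at (hW : 2 ≤ W) (hW' : W ≤ 65536) (hg : Good t r) (h : At t r K s) (p : ℕ)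
    (hp : pal2 W s p = true) : False := by
  unfold pal2 at hp
  simp only [Bool.and_eq_true, Nat.ble_eq, decide_eq_true_eq] at hp
  obtain ⟨h1, h2, h3, h4, h5⟩ := hp
  change 1 ≤ p % 128 at h1
  change p % 128 ≤ s.u + 1 at h2
  change p % 128 + p % 128 ≤ s.a + s.b + 1 at h3
  change p % 128 ≤ s.a + s.b at h4
  have hm : p % 128 < 128 := Nat.mod_lt _ (by norm_num)
  have e1 := palN_eq hW hW' h.pk (p / 128) (p % 128) hm h1 h2
  have e1' := palF_eq hW hW' (h.pk.sh (p % 128) h4) (p / 128) (p % 128) hm h1 le_rfl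
    (by
      have : (T.sh s (p % 128)).a = s.a + s.b - p % 128 := rfl
      omega)
  have h5' : palN W s (p / 128) (p % 128) + palF W (sh s (p % 128)) (p / 128) (p % 128) < 0 := h5
  rw [e1, e1'] at h5'
  have h6 := real_pal2 (W := W) hg (p / 128) (p % 128) h3 h4 h.aK
  omega

theorem pal20_at (hW : 2 ≤ W) (hW' : W ≤ 65536) (hg : Good t r) (h : At t r K s) (p : ℕ)
    (hp : pal20 W s p = true) :
    p % 128 < K + s.b - p % 128 + p % 128 ∧ 1 ≤ K + s.b - p % 128 ∧ p % 128 ≤ K + s.b - p % 128 ∧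
    (vec (ent W (p / 128)) (p % 128) (K + s.b - p % 128)
      (fun i => ent W (p / 128) (p % 128 - 1 - i)) (p % 128)).reverse =
    vec (ent W (p / 128)) (p % 128) (K + s.b - p % 128)
      (fun i => ent W (p / 128) (p % 128 - 1 - i)) (p % 128) ∧
    nrm r (vec (ent W (p / 128)) (p % 128) (K + s.b - p % 128)
      (fun i => ent W (p / 128) (p % 128 - 1 - i)) (p % 128)) = 0 := by
  unfold pal20 at hp
  simp only [Bool.and_eq_true, Nat.ble_eq, decide_eq_true_eq] at hp
  obtain ⟨h1, h2, h3, h4, h5⟩ := hp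
  change 1 ≤ p % 128 at h1
  change p % 128 ≤ s.u + 1 at h2
  change p % 128 + p % 128 ≤ s.a + s.b + 1 at h3
  change p % 128 ≤ s.a + s.b at h4
  have hm : p % 128 < 128 := Nat.mod_lt _ (by norm_num)
  have hK := h.aK
  have e1 := palN_eq hW hW' h.pk (p / 128) (p % 128) hm h1 h2
  have e1' := palF_eq hW hW' (h.pk.sh (p % 128) h4) (p / 128) (p % 128) hm h1 le_rfl
    (by
      have : (T.sh s (p % 128)).a = s.a + s.b - p % 128 := rfl
      omega)
  have h5' : palN W s (p / 128) (p % 128) + palF W (sh s (p % 128)) (p / 128) (p % 128) = 0 := h5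
  rw [e1, e1'] at h5'
  have hn : p % 128 ≤ K + s.b - p % 128 := by omega
  have h7 := nrm_vec r hg.zero (p % 128) (p % 128) (K + s.b - p % 128) hn (ent W (p / 128))
    (fun i => ent W (p / 128) (p % 128 - 1 - i))
  rw [nn0_reflect, ← Fs_fr (r := r) s (p % 128) h4 hK] at h7
  refine ⟨by omega, by omega, hn, vec_pal _ _ _, by omega⟩

end Pool.Agent.MP1f45fc.T
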