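import Mathlib
import Pool.Agent.Lib.MP_1f45fc_nt.T.Sound2

/-!
# Soundness of the checker, part 3
-/

set_option autoImplicit false

open Finset

namespace Pool.Agent.MP1f45fc.T

variable {c : Cfg} {t : ℝ} {r : ℕ → ℤ} {K : ℕ} {s : St} {f : ℕ → ℤ} {F : ℤ → ℤ}

/-! ### Reading the windows -/

theorem dig_sum (K : ℕ) (d : ℕ → ℤ) (hd : ∀ k < K, |d k| ≤ 262144) (j : ℕ) (hj : j < K) :
    dig 9223372036854775808 K j (∑ k ∈ range K, d k * TZ ^ k) = d j := by
  have h := dig_eq 9223372036854775808 (by norm_num) K (fun k => if k < K then d k else 0)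
    (fun k => by
      split
      · rename_i hk
        exact lt_of_le_of_lt (hd k hk) (by norm_num)
      · norm_num) j hj
  have e : ∑ k ∈ range K, (if k < K then d k else 0) *
      ((2 * 9223372036854775808 : ℕ) : ℤ) ^ k = ∑ k ∈ range K, d k * TZ ^ k := by
    refine sum_congr rfl fun k hk => ?_
    rw [if_pos (mem_range.mp hk)]
    norm_num
  rw [e] at h
  rw [h, if_pos hj]

theorem rdN_eq (h : Pk s f F) (k : ℕ) (hk : k ≤ s.u) : rdN s k = f k := by
  have e : rdN s k = d0 (shf (s.u - k) (2 * s.u + 1) s.R) := rfl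
  rw [e, d0_shf, h.R, dig_sum _ _ (fun l hl => h.fb _ (by omega)) _ (by omega)]
  congr 1
  omega

theorem rdF_eq (h : Pk s f F) (l : ℕ) (hl : l < s.a + s.b) :
    rdF s l = F ((s.b : ℤ) - 1 - l) := by
  have e : rdF s l = d0 (shf l (s.a + s.b) s.V) := rfl
  rw [e, d0_shf, h.V, dig_sum _ _ (fun l hl => h.Fb _ hl) _ hl]

theorem Pk.unique {f' : ℕ → ℤ} {F' : ℤ → ℤ} (h : Pk s f F) (h' : Pk s f' F') :
    (∀ k ≤ s.u, f k = f' k) ∧ ∀ l < s.a + s.b, F ((s.b : ℤ) - 1 - l) = F' ((s.b : ℤ) - 1 - l) :=
  ⟨fun k hk => by rw [← rdN_eq h k hk, rdN_eq h' k hk],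
    fun l hl => by rw [← rdF_eq h l hl, rdF_eq h' l hl]⟩

/-! ### Bounds of a branch -/

theorem nxt_nonneg (d : ℕ) (h : ∀ k, 0 ≤ r k) : 0 ≤ nxt d s r (fr r K) := by
  match d with
  | 0 => exact h _
  | 1 => exact h _
  | _ + 2 => exact h _

theorem lower_sound (hW : 2 ≤ c.W) (hW' : c.W ≤ 65536) (hy : Hyp c t r K) (h : At t r K s) (d : ℕ)
    (lo : ℤ) (h1 : |lo - 1| ≤ 262144) (hd1 : 2 ≤ d → s.a + 1 < K) (dn : Lb)
    (hl : lower c d s lo dn = true) : lo ≤ nxt d s r (fr r K) := by
  by_contra hcon
  push Not at hcon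
  have hcon' : nxt d s r (fr r K) ≤ lo - 1 := by omega
  match dn with
  | .M vs =>
    refine dead_ext hW hW' hy.good h d (lo - 1) h1 hd1 _ (fun p q hp => ?_) vs hl
    have : coef c.W d (ext d s (lo - 1)) p q ≤ 0 := by simpa using hp
    exact mul_nonneg_of_nonpos_of_nonpos this (by linarith)
  | .P p => exact pal1_ext hW hW' hy.good h d (lo - 1) h1 hcon' p hl
  | .Q p =>
    have hl' : (Nat.ble 1 d && pal2 c.W (ext d s (lo - 1)) p) = true := hl
    simp only [Bool.and_eq_true, Nat.ble_eq] at hl'
    exact pal2_ext hW hW' hy.good h d (lo - 1) h1 hcon' hl'.1 hd1 p hl'.2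
  | .nn =>
    have hl' : (c.mx && decide (lo ≤ 0)) = true := hl
    simp only [Bool.and_eq_true, decide_eq_true_eq] at hl'
    have := nxt_nonneg (s := s) (K := K) d (hy.mx hl'.1).1
    omega
  | .su k =>
    have haK := h.aK
    match d with
    | 0 =>
      have hl' : (c.mx && (Nat.ble 1 k && (Nat.ble k s.u &&
        decide (lo ≤ rdN s k + rdN s (Nat.sub (Nat.add s.u 1) k) - 1)))) = true := hl
      simp only [Bool.and_eq_true, decide_eq_true_eq, Nat.ble_eq] at hl'
      obtain ⟨m1, m2, m3, m4⟩ := hl'
      change lo ≤ rdN s k + rdN s (s.u + 1 - k) - 1 at m4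
      rw [rdN_eq h.pk k m3, rdN_eq h.pk (s.u + 1 - k) (by omega)] at m4
      have m5 := (hy.mx m1).2 k (s.u + 1 - k) m2 (by omega)
      have e : k + (s.u + 1 - k) = s.u + 1 := by omega
      rw [e] at m5
      have e2 : nxt 0 s r (fr r K) = r (s.u + 1) := rfl
      omega
    | 1 =>
      have hl' : (c.mx && (Nat.ble 1 k && (Nat.ble k s.u && (Nat.ble k (Nat.add s.a s.b) &&
        decide (lo ≤ rdN s k + rdF s (Nat.sub k 1) - 1))))) = true := hl
      simp only [Bool.and_eq_true, decide_eq_true_eq, Nat.ble_eq] at hl'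
      obtain ⟨m1, m2, m3, m4, m5⟩ := hl'
      change k ≤ s.a + s.b at m4
      change lo ≤ rdN s k + rdF s (k - 1) - 1 at m5
      rw [rdN_eq h.pk k m3, rdF_eq h.pk (k - 1) (by omega)] at m5
      have m6 := (hy.mx m1).2 k (K + s.b - k) m2 (by omega)
      have e : k + (K + s.b - k) = K + s.b := by omega
      rw [e] at m6
      have e2 : nxt 1 s r (fr r K) = r (K + s.b) := by
        have : nxt 1 s r (fr r K) = r ((K : ℤ) + (s.b : ℤ)).toNat := rfl
        rw [this]
        congr 1
      have e3 : fr r K ((s.b : ℤ) - 1 - ((k - 1 : ℕ) : ℤ)) = r (K + s.b - k) := by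
        unfold fr
        congr 1
        omega
      omega
    | d + 2 =>
      have hl' : (c.mx && (Nat.ble 1 k && false)) = true := hl
      simp at hl'

theorem upper_sound (hW : 2 ≤ c.W) (hW' : c.W ≤ 65536) (hy : Hyp c t r K) (h : At t r K s) (d : ℕ)
    (hi : ℤ) (h1 : |hi| ≤ 262144) (hd1 : 2 ≤ d → s.a + 1 < K) (up : Ub)
    (hl : upper c d s hi up = true) : nxt d s r (fr r K) < hi := by
  by_contra hcon
  push Not at hcon
  match up with
  | .M vs =>
    refine dead_ext hW hW' hy.good h d hi h1 hd1 _ (fun p q hp => ?_) vs hl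
    have : 0 ≤ coef c.W d (ext d s hi) p q := by simpa using hp
    exact mul_nonneg this (by linarith)
  | .su k =>
    match d with
    | 0 =>
      have hl' : (c.mx && (Nat.ble 1 k && false)) = true := hl
      simp at hl'
    | 1 =>
      have hl' : (c.mx && (Nat.ble 1 k && false)) = true := hl
      simp at hl'
    | d + 2 =>
      have hl' : (c.mx && (Nat.ble 1 k && (Nat.ble k s.u && (Nat.ble k (Nat.add s.a s.b) &&
        decide (rdF s (Nat.sub (Nat.add s.a s.b) k) - rdN s k + 1 < hi))))) = true := hl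
      simp only [Bool.and_eq_true, decide_eq_true_eq, Nat.ble_eq] at hl'
      obtain ⟨m1, m2, m3, m4, m5⟩ := hl'
      change k ≤ s.a + s.b at m4
      change rdF s (s.a + s.b - k) - rdN s k + 1 < hi at m5
      have haK := hd1 (by omega)
      rw [rdN_eq h.pk k m3, rdF_eq h.pk (s.a + s.b - k) (by omega)] at m5
      have m6 := (hy.mx m1).2 (K - s.a - 1) k (by omega) m2
      have e2 : nxt (d + 2) s r (fr r K) = r (K - s.a - 1) := by
        have : nxt (d + 2) s r (fr r K) = r ((K : ℤ) + (-(s.a : ℤ) - 1)).toNat := rfl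
        rw [this]
        congr 1
        omega
      have e3 : fr r K ((s.b : ℤ) - 1 - ((s.a + s.b - k : ℕ) : ℤ)) = r (K - s.a - 1 + k) := by
        unfold fr
        congr 1
        omega
      omega

theorem kids_mem (d : ℕ) (s : St) (lo : ℤ) (n : ℕ) (st : List St) :
    (∀ v, lo ≤ v → v < lo + n → ext d s v ∈ kids d s lo n st) ∧ ∀ x ∈ st, x ∈ kids d s lo n st := by
  induction n generalizing lo with
  | zero =>
    refine ⟨fun v h1 h2 => by simp at h2; omega, fun x hx => hx⟩
  | succ n ih =>
    obtain ⟨i1, i2⟩ := ih (lo + 1)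
    refine ⟨fun v h1 h2 => ?_, fun x hx => List.mem_cons_of_mem _ (i2 x hx)⟩
    by_cases hv : v = lo
    · subst hv; exact List.mem_cons_self
    · refine List.mem_cons_of_mem _ (i1 v (by omega) (by push_cast at h2; omega))

/-! ### Positivity -/

noncomputable def evl : List ℤ → ℝ → ℝ
  | [], _ => 0
  | a :: p, x => a + x * evl p x

theorem evl_addL (a b : List ℤ) (x : ℝ) : evl (addL a b) x = evl a x + evl b x := by
  induction a generalizing b with
  | nil => simp [addL, evl]
  | cons y a ih =>
    cases b with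
    | nil => simp [addL, evl]
    | cons z b => simp only [addL, evl, ih]; push_cast; ring

theorem evl_smulL (k : ℤ) (a : List ℤ) (x : ℝ) : evl (smulL k a) x = k * evl a x := by
  induction a with
  | nil => simp [smulL, evl]
  | cons y a ih => simp only [smulL, evl, ih]; push_cast; ring

theorem evl_mulL (a b : List ℤ) (x : ℝ) : evl (mulL a b) x = evl a x * evl b x := by
  induction a with
  | nil => simp [mulL, evl]
  | cons y a ih => simp only [mulL, evl, evl_addL, evl_smulL, ih]; push_cast; ring

theorem nnL_evl (l : List ℤ) (h : nnL l = true) (x : ℝ) (hx : 0 ≤ x) : 0 ≤ evl l x := by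
  induction l with
  | nil => simp [evl]
  | cons y l ih =>
    simp only [nnL, Bool.and_eq_true, decide_eq_true_eq] at h
    simp only [evl]
    have h1 : (0 : ℝ) ≤ y := by exact_mod_cast h.1
    have h2 := mul_nonneg hx (ih h.2)
    linarith

theorem someP_evl (l : List ℤ) (h : nnL l = true) (hp : someP l = true) (x : ℝ) (hx : 0 < x) :
    0 < evl l x := by
  induction l with
  | nil => simp [someP] at hp
  | cons y l ih =>
    simp only [nnL, Bool.and_eq_true, decide_eq_true_eq] at h
    simp only [someP, Bool.or_eq_true, decide_eq_true_eq] at hp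
    simp only [evl]
    have h1 : (0 : ℝ) ≤ y := by exact_mod_cast h.1
    rcases hp with hp | hp
    · have h3 : (0 : ℝ) < y := by exact_mod_cast hp
      have h4 := mul_nonneg hx.le (nnL_evl l h.2 x hx.le)
      linarith
    · have h4 := mul_pos hx (ih h.2 hp)
      linarith

theorem suf_ne (a : ℤ) (l : List ℤ) : suf (a :: l) ≠ [] := by
  unfold suf
  split <;> simp

theorem suf_evl (l : List ℤ) (s : ℤ) (q : List ℤ) (h : suf l = s :: q) (x : ℝ) :
    evl l x = s + (x - 1) * evl q x := by
  induction l generalizing s q with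
  | nil => simp [suf] at h
  | cons a l ih =>
    rcases hl : suf l with _ | ⟨s', q'⟩
    · have hl0 : l = [] := by
        cases l with
        | nil => rfl
        | cons b l => exact absurd hl (suf_ne b l)
      subst hl0
      have h' : suf [a] = [a] := rfl
      rw [h'] at h
      obtain ⟨h1, h2⟩ := List.cons.inj h
      rw [← h1, ← h2]
      simp [evl]
    · have h' : suf (a :: l) = (a + s') :: s' :: q' := by
        simp only [suf, hl]
      rw [h'] at h
      obtain ⟨h1, h2⟩ := List.cons.inj h
      rw [← h1, ← h2]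
      simp only [evl, ih s' q' hl]
      push_cast
      ring

theorem posT_evl (n : ℕ) (l : List ℤ) (h : posT n l = true) (x : ℝ) (hx : 1 < x) :
    0 < evl l x := by
  induction n generalizing l with
  | zero => simp [posT] at h
  | succ n ih =>
    rcases hl : suf l with _ | ⟨s, q⟩
    · simp only [posT, hl] at h
      exact absurd h (by simp)
    · simp only [posT, hl, Bool.and_eq_true, Bool.or_eq_true, decide_eq_true_eq] at h
      obtain ⟨h1, h2⟩ := h
      rw [suf_evl l s q hl x]
      have h1' : (0 : ℝ) ≤ s := by exact_mod_cast h1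
      have hx' : 0 < x - 1 := by linarith
      rcases h2 with ⟨h3, h4⟩ | h3
      · simp only [someP, Bool.or_eq_true, decide_eq_true_eq] at h4
        rcases h4 with h4 | h4
        · have h5 : (0 : ℝ) < s := by exact_mod_cast h4
          have h6 := mul_nonneg hx'.le (nnL_evl q h3 x (by linarith))
          linarith
        · have h6 := mul_pos hx' (someP_evl q h3 h4 x (by linarith))
          linarith
      · have h6 := mul_pos hx' (ih q h3)
        linarith

theorem ents_eq (W x m n : ℕ) : ents W x m n = ls (fun i => ent W x (m + i)) n := by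
  induction n generalizing m with
  | zero => simp [ents, ls]
  | succ n ih =>
    rw [ents, ih, ls_succ]
    congr 1
    congr 1
    funext i
    congr 1
    ring

theorem entsV_eq (W p : ℕ) : entsV W p = ls (ent W (p / 128)) (p % 128) := by
  have : entsV W p = ents W (p / 128) 0 (p % 128) := rfl
  rw [this, ents_eq]
  congr 1
  funext i
  rw [zero_add]

theorem evS_evl (t : ℝ) (s : ℕ) (l : List ℤ) :
    evS t s l = Real.exp (s * t) * evl l (Real.exp t) := by
  induction l generalizing s with
  | nil => simp [evS, evl]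
  | cons a l ih =>
    simp only [evS, evl, ih]
    have : ((s + 1 : ℕ) : ℝ) * t = s * t + t := by push_cast; ring
    rw [this, Real.exp_add]
    ring

theorem evS_evl0 (t : ℝ) (l : List ℤ) : evS t 0 l = evl l (Real.exp t) := by
  rw [evS_evl]; simp

theorem allZ_evl (l : List ℤ) (h : allZ l = true) (x : ℝ) : evl l x = 0 := by
  induction l with
  | nil => rfl
  | cons a l ih =>
    simp only [allZ, Bool.and_eq_true, decide_eq_true_eq] at h
    simp [evl, ih h.2, h.1]

theorem ls_reverse (A : ℕ → ℤ) (n : ℕ) : (ls A n).reverse = ls (fun i => A (n - 1 - i)) n := by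
  apply List.ext_getElem
  · simp [ls]
  · intro i h1 h2
    simp [ls, List.getElem_reverse]

theorem evS_zeros' (t : ℝ) (s k : ℕ) : evS t s (List.replicate k 0) = 0 := by
  induction k generalizing s with
  | zero => simp [evS]
  | succ k ih => simp [List.replicate_succ, evS, ih]

/-- value of a two-window palindrome -/
theorem evS_vec (t : ℝ) (A G : ℕ → ℤ) (n m K : ℕ) (hn : n ≤ K) :
    evS t 0 (vec A n K G m) = evl (ls A n) (Real.exp t) +
      Real.exp t ^ K * evl (ls G m) (Real.exp t) := by
  unfold vec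
  rw [evS_append, evS_append, evS_zeros', evS_evl0, evS_evl, zero_add, zero_add,
    List.length_replicate, ls_length, Nat.add_sub_cancel' hn, Real.exp_nat_mul]

theorem posY_evl (l : List ℤ) (h : posY l = true) (x : ℝ) (hx : 1 < x) (K : ℕ) (hK : 1 ≤ K) :
    0 < evl l x + x ^ K * evl l.reverse x := by
  unfold posY at h
  rw [Bool.and_eq_true, Bool.or_eq_true] at h
  have h1 := posT_evl 40 _ h.1 x hx
  have h2 : 0 ≤ evl l x + evl l.reverse x := by
    rw [← evl_addL]
    rcases h.2 with h3 | h3
    · rw [allZ_evl _ h3]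
    · exact (posT_evl 40 _ h3 x hx).le
  have h3 : 1 < x ^ K := one_lt_pow₀ hx (by omega)
  nlinarith

theorem eqL_eq (a b : List ℤ) (h : eqL a b = true) : a = b := by
  induction a generalizing b with
  | nil =>
    cases b with
    | nil => rfl
    | cons y b => simp [eqL] at h
  | cons x a ih =>
    cases b with
    | nil => simp [eqL] at h
    | cons y b =>
      simp only [eqL, Bool.and_eq_true, decide_eq_true_eq] at h
      rw [h.1, ih b h.2]

end Pool.Agent.MP1f45fc.T
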