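import Mathlib
import Pool.Agent.Lib.MP_1f45fc_nt.T.Sound3

/-!
# Soundness of the checker, part 4: the run
-/

set_option autoImplicit false

open Finset

namespace Pool.Agent.MP1f45fc.T

variable {c : Cfg} {t : ℝ} {r : ℕ → ℤ} {K : ℕ} {s : St} {f : ℕ → ℤ} {F : ℤ → ℤ}

/-! ### One step -/

section eqs

variable {st : List St} {outs : List Goal} {prog : List I}

theorem run_nil : run c [] st outs = (st.isEmpty && outs.isEmpty) := rfl

theorem run_cons (i : I) : run c (i :: prog) (s :: st) outs = bif i.isO then
      match outs with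
      | [] => false
      | o :: outs => covers s o && run c prog st outs
    else match step c i s st with
      | none => false
      | some st' => run c prog st' outs := rfl

theorem step_D (vs : List Vec) : step c (.D vs) s st =
  (bif dead c.W s (fun _ _ => true) vs s.lo s.hi then some st else none) := rfl

theorem step_C (p q : ℕ) : step c (.C p q) s st =
  (match evM c.W s p q with
      | none => none
      | some x => match nrw s.lo s.hi x with
        | (lo', hi') => some ({ s with lo := lo', hi := hi' } :: st)) := rfl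

theorem step_P (p : ℕ) : step c (.P p) s st = (bif pal1 c.W s p then some st else none) := rfl

theorem step_Q (p : ℕ) : step c (.Q p) s st = (bif pal2 c.W s p then some st else none) := rfl

theorem step_Z (p : ℕ) : step c (.Z p) s st =
  (bif pal0 c.W s p && posT 40 (entsV c.W p) then some st else none) := rfl

theorem step_E (p q : ℕ) : step c (.E p q) s st =
  (bif pal0 c.W s p && (eqL (entsV c.W p) (mulL lehL (entsV c.W q)) &&
      posT 40 (entsV c.W q)) then some st else none) := rfl

theorem step_Y (p : ℕ) : step c (.Y p) s st =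
  (bif pal20 c.W s p && posY (entsV c.W p) then some st else none) := rfl

theorem step_ZR : step c .ZR s st = (bif Nat.ble 1 c.D0 && (Nat.ble c.D0 s.b &&
      decide (Int.emod s.V (Int.ofNat (Nat.pow 18446744073709551616 c.D0)) = 0)) then some st
      else none) := rfl

theorem step_B (d : ℕ) (lo : ℤ) (len : ℕ) (dn : Lb) (up : Ub) : step c (.B d lo len dn up) s st =
    (bif lower c d s lo dn && (upper c d s (lo + len) up &&
      (decide (-262143 ≤ lo) && (decide (lo + len ≤ 262144) &&
      Nat.ble (Nat.add s.a 2) c.K0))) then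
      some (kids d s lo len st) else none) := rfl

theorem step_O : step c .O s st = none := rfl

end eqs

theorem step_sound (hW : 4 ≤ c.W) (hW' : c.W ≤ 65536) (hy : Hyp c t r K) (i : I) (st st' : List St)
    (hs : step c i s st = some st') (h : ∀ x ∈ st', ¬ At t r K x) :
    ¬ At t r K s ∧ ∀ x ∈ st, ¬ At t r K x := by
  have hW2 : 2 ≤ c.W := by omega
  cases i with
  | D vs =>
    have hs' := hs
    rw [step_D, cond_eq_ite] at hs'
    split at hs'
    · rename_i hd
      have e := Option.some.inj hs'
      rw [← e] at h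
      exact ⟨fun ha => dead_at hW2 hW' hy.good ha vs hd, h⟩
    · exact absurd hs' (by simp)
  | C p q =>
    have hs' := hs
    rw [step_C] at hs'
    rcases he : evM c.W s p q with _ | x
    · rw [he] at hs'
      exact absurd hs' (by simp)
    · rw [he] at hs'
      have e : ({ s with lo := (nrw s.lo s.hi x).1, hi := (nrw s.lo s.hi x).2 } :: st) = st' :=
        Option.some.inj hs'
      rw [← e] at h
      refine ⟨fun ha => ?_, fun y hy' => h y (List.mem_cons_of_mem _ hy')⟩
      obtain ⟨hf, hx⟩ := evM_eq hW2 hW' ha.pk p q x he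
      have h1 := real_ev (W := c.W) hy.good p q hf ha.aK
      have h2 := nrw_sound s.lo s.hi x (gam t) (by rw [hx]; exact h1) ha.lo ha.hi
      exact h _ List.mem_cons_self ⟨⟨ha.pk.R, ha.pk.V, ha.pk.fb, ha.pk.Fb⟩, h2.1, h2.2, ha.aK⟩
  | P p =>
    have hs' := hs
    rw [step_P, cond_eq_ite] at hs'
    split at hs'
    · rename_i hd
      have e := Option.some.inj hs'
      rw [← e] at h
      exact ⟨fun ha => pal1_at hW2 hW' hy.good ha p hd, h⟩
    · exact absurd hs' (by simp)
  | Q p =>
    have hs' := hs
    rw [step_Q, cond_eq_ite] at hs'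
    split at hs'
    · rename_i hd
      have e := Option.some.inj hs'
      rw [← e] at h
      exact ⟨fun ha => pal2_at hW2 hW' hy.good ha p hd, h⟩
    · exact absurd hs' (by simp)
  | Z p =>
    have hs' := hs
    rw [step_Z, cond_eq_ite] at hs'
    split at hs'
    · rename_i hd
      simp only [Bool.and_eq_true] at hd
      have e := Option.some.inj hs'
      rw [← e] at h
      refine ⟨fun ha => ?_, h⟩
      obtain ⟨h1, h2⟩ := pal0_at hW2 hW' hy.good ha p hd.1
      have h3 := hy.good.palz _ h1 h2
      have h4 := posT_evl 40 _ hd.2 (Real.exp t) (Real.one_lt_exp_iff.mpr hy.good.ht)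
      rw [entsV_eq, ← evS_evl0, h3] at h4
      exact lt_irrefl _ h4
    · exact absurd hs' (by simp)
  | Y p =>
    have hs' := hs
    rw [step_Y, cond_eq_ite] at hs'
    split at hs'
    · rename_i hd
      simp only [Bool.and_eq_true] at hd
      have e := Option.some.inj hs'
      rw [← e] at h
      refine ⟨fun ha => ?_, h⟩
      obtain ⟨-, h0, hn, h1, h2⟩ := pal20_at hW2 hW' hy.good ha p hd.1
      have h3 := hy.good.palz _ h1 h2
      rw [evS_vec _ _ _ _ _ _ hn] at h3
      have h4 := posY_evl _ hd.2 (Real.exp t) (Real.one_lt_exp_iff.mpr hy.good.ht) _ h0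
      rw [entsV_eq, ls_reverse, h3] at h4
      exact lt_irrefl _ h4
    · exact absurd hs' (by simp)
  | E p q =>
    have hs' := hs
    rw [step_E, cond_eq_ite] at hs'
    split at hs'
    · rename_i hd
      simp only [Bool.and_eq_true] at hd
      obtain ⟨d1, d2, d3⟩ := hd
      have e := Option.some.inj hs'
      rw [← e] at h
      refine ⟨fun ha => ?_, h⟩
      obtain ⟨h1, h2⟩ := pal0_at hW2 hW' hy.good ha p d1
      have h3 := hy.good.palz _ h1 h2
      have h4 := posT_evl 40 _ d3 (Real.exp t) (Real.one_lt_exp_iff.mpr hy.good.ht)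
      rw [← entsV_eq, evS_evl0, eqL_eq _ _ d2, evl_mulL, ← evS_evl0] at h3
      rcases mul_eq_zero.mp h3 with h5 | h5
      · exact hy.leh h5
      · rw [h5] at h4
        exact lt_irrefl _ h4
    · exact absurd hs' (by simp)
  | ZR =>
    have hs' := hs
    rw [step_ZR, cond_eq_ite] at hs'
    split at hs'
    · rename_i hd
      simp only [Bool.and_eq_true, Nat.ble_eq, decide_eq_true_eq] at hd
      obtain ⟨d1, d2, d3⟩ := hd
      have e := Option.some.inj hs'
      rw [← e] at h
      refine ⟨fun ha => ?_, h⟩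
      obtain ⟨i, hi, hne⟩ := hy.zr d1 (K + (s.b - c.D0)) (by omega)
      apply hne
      -- digit `c.D0 - 1 - i` of `V`
      have hl : c.D0 - 1 - i < s.a + s.b := by omega
      have e1 := rdF_eq ha.pk (c.D0 - 1 - i) hl
      have e2 : fr r K ((s.b : ℤ) - 1 - ((c.D0 - 1 - i : ℕ) : ℤ)) = r (K + (s.b - c.D0) + i) := by
        unfold fr
        congr 1
        omega
      rw [← e2, ← e1]
      -- compare with the window whose last `D0` values are zero
      have e3 : ∃ q : ℤ, s.V = TZ ^ c.D0 * q := by
        have d3' : s.V % ((18446744073709551616 ^ c.D0 : ℕ) : ℤ) = 0 := d3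
        obtain ⟨q, hq⟩ := Int.dvd_of_emod_eq_zero d3'
        refine ⟨q, ?_⟩
        rw [hq]
        push_cast
        rfl
      obtain ⟨q, hq⟩ := e3
      -- all low digits vanish
      have key : ∀ n, n ≤ c.D0 → ∀ l < n, fr r K ((s.b : ℤ) - 1 - l) = 0 := by
        intro n
        induction n with
        | zero => intro _ l hl; omega
        | succ n ih =>
          intro hn l hl
          rcases Nat.lt_succ_iff_lt_or_eq.mp hl with hl' | hl'
          · exact ih (by omega) l hl'
          · subst hl'
            have ih' := ih (by omega)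
            have hsplit : s.V = TZ ^ l * (fr r K ((s.b : ℤ) - 1 - l) +
                TZ * ∑ k ∈ range (s.a + s.b - l - 1),
                  fr r K ((s.b : ℤ) - 1 - ((l + 1 + k : ℕ) : ℤ)) * TZ ^ k) := by
              rw [ha.pk.V]
              have e5 : s.a + s.b = l + ((s.a + s.b - l - 1) + 1) := by omega
              conv_lhs => rw [e5]
              rw [sum_range_add, sum_eq_zero (s := range l), zero_add, sum_range_succ']
              · rw [mul_add, mul_sum, mul_sum, add_comm]
                congr 1
                · simp only [add_zero]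
                  ring
                · refine sum_congr rfl fun k _ => ?_
                  rw [show l + (k + 1) = l + 1 + k by ring]
                  ring
              · intro k hk
                rw [ih' k (mem_range.mp hk), zero_mul]
            have hT : (TZ ^ l : ℤ) ≠ 0 := pow_ne_zero _ (by norm_num)
            have h6 : fr r K ((s.b : ℤ) - 1 - l) + TZ * ∑ k ∈ range (s.a + s.b - l - 1),
                  fr r K ((s.b : ℤ) - 1 - ((l + 1 + k : ℕ) : ℤ)) * TZ ^ k =
                TZ * (TZ ^ (c.D0 - l - 1) * q) := by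
              apply mul_left_cancel₀ hT
              rw [← hsplit, hq, ← mul_assoc, ← mul_assoc, ← pow_succ, ← pow_add]
              congr 2
              omega
            have h7 : TZ ∣ fr r K ((s.b : ℤ) - 1 - l) := by
              refine ⟨TZ ^ (c.D0 - l - 1) * q - ∑ k ∈ range (s.a + s.b - l - 1),
                  fr r K ((s.b : ℤ) - 1 - ((l + 1 + k : ℕ) : ℤ)) * TZ ^ k, ?_⟩
              linear_combination h6
            have h8 := ha.pk.Fb l (by omega)
            exact Int.eq_zero_of_abs_lt_dvd h7 (lt_of_le_of_lt h8 (by norm_num))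
      rw [e1]
      exact key c.D0 le_rfl _ (by omega)
    · exact absurd hs' (by simp)
  | B d lo len dn up =>
    have hs' := hs
    rw [step_B, cond_eq_ite] at hs'
    split at hs'
    · rename_i hd
      simp only [Bool.and_eq_true, Nat.ble_eq, decide_eq_true_eq] at hd
      obtain ⟨b1, b2, b3, b4, b5⟩ := hd
      change s.a + 2 ≤ c.K0 at b5
      have e := Option.some.inj hs'
      rw [← e] at h
      obtain ⟨k1, k2⟩ := kids_mem d s lo len st
      refine ⟨fun ha => ?_, fun x hx => h x (k2 x hx)⟩
      have hK := hy.K0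
      have l1 := lower_sound hW2 hW' hy ha d lo (by rw [abs_le]; constructor <;> omega)
        (fun _ => by omega) dn b1
      have l2 := upper_sound hW2 hW' hy ha d (lo + len) (by rw [abs_le]; constructor <;> omega)
        (fun _ => by omega) up b2
      have l3 : |nxt d s r (fr r K)| ≤ 262144 := by rw [abs_le]; constructor <;> omega
      refine h _ (k1 _ l1 l2) ?_
      refine ⟨ha.pk.ext_nxt d l3, ?_, ?_, ?_⟩
      · match d with
        | 0 => exact ha.lo
        | 1 => exact ha.lo
        | d + 2 => exact ha.lo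
      · match d with
        | 0 => exact ha.hi
        | 1 => exact ha.hi
        | d + 2 => exact ha.hi
      · match d with
        | 0 => exact ha.aK
        | 1 => exact ha.aK
        | d + 2 =>
          have : (ext (d + 2) s (nxt (d + 2) s r (fr r K))).a = s.a + 1 := rfl
          omega
    · exact absurd hs' (by simp)
  | O => rw [step_O] at hs; exact absurd hs (by simp)

/-! ### Goals -/

/-- `r` and `γ` satisfy the goal (with far window at `K`). -/
def Goal.Holds (g : Goal) (t : ℝ) (r : ℕ → ℤ) (K : ℕ) : Prop :=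
  (∀ (i : ℕ) (h : i < g.near.length), r (i + 1) = g.near[i]) ∧
  (∀ (i : ℕ) (h : i < g.far.length), fr r K ((i : ℤ) - g.a) = g.far[i]) ∧
  (g.lo : ℝ) ≤ 4294967296 * gam t ∧ 4294967296 * gam t < g.hi

theorem mkN_spec (l : List ℤ) (s : St) (h : Pk s f F) (hf : ∀ (i : ℕ) (h : i < l.length),
    f (s.u + 1 + i) = l[i]) (hb : ∀ a ∈ l, |a| ≤ 262144) :
    Pk (mkN l s) f F ∧ (mkN l s).u = s.u + l.length ∧ (mkN l s).a = s.a ∧ (mkN l s).b = s.b ∧
      (mkN l s).lo = s.lo ∧ (mkN l s).hi = s.hi ∧ (mkN l s).V = s.V := by
  induction l generalizing s with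
  | nil => exact ⟨h, rfl, rfl, rfl, rfl, rfl, rfl⟩
  | cons a l ih =>
    have h0 : f (s.u + 1) = a := hf 0 (by simp)
    have e1 : nxt 0 s f F = a := h0
    have h1 := h.ext_nxt 0 (by rw [e1]; exact hb a List.mem_cons_self)
    rw [e1] at h1
    have h2 : Pk (extN s a) f F := h1
    obtain ⟨i1, i2, i3, i4, i5, i6, i7⟩ := ih (extN s a) h2 (fun i hi => by
      have := hf (i + 1) (by simpa using hi)
      simp only [List.getElem_cons_succ] at this
      rw [← this]
      congr 1
      have : (extN s a).u = s.u + 1 := rfl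
      omega) (fun a ha => hb a (List.mem_cons_of_mem _ ha))
    refine ⟨i1, ?_, i3, i4, i5, i6, i7⟩
    have : (extN s a).u = s.u + 1 := rfl
    have e2 : (mkN (a :: l) s).u = (mkN l (extN s a)).u := rfl
    rw [e2, i2, this, List.length_cons]
    ring

theorem mkF_spec (l : List ℤ) (s : St) (h : Pk s f F) (hf : ∀ (i : ℕ) (h : i < l.length),
    F ((s.b : ℤ) + i) = l[i]) (hb : ∀ a ∈ l, |a| ≤ 262144) :
    Pk (mkF l s) f F ∧ (mkF l s).b = s.b + l.length ∧ (mkF l s).a = s.a ∧ (mkF l s).u = s.u ∧
      (mkF l s).lo = s.lo ∧ (mkF l s).hi = s.hi := by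
  induction l generalizing s with
  | nil => exact ⟨h, rfl, rfl, rfl, rfl, rfl⟩
  | cons a l ih =>
    have h0 : F (s.b : ℤ) = a := by
      have := hf 0 (by simp)
      simpa using this
    have e1 : nxt 1 s f F = a := h0
    have h1 := h.ext_nxt 1 (by rw [e1]; exact hb a List.mem_cons_self)
    rw [e1] at h1
    have h2 : Pk (extH s a) f F := h1
    obtain ⟨i1, i2, i3, i4, i5, i6⟩ := ih (extH s a) h2 (fun i hi => by
      have := hf (i + 1) (by simpa using hi)
      simp only [List.getElem_cons_succ] at this
      rw [← this]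
      congr 1
      have : (extH s a).b = s.b + 1 := rfl
      rw [this]
      push_cast
      ring) (fun a ha => hb a (List.mem_cons_of_mem _ ha))
    refine ⟨i1, ?_, i3, i4, i5, i6⟩
    have : (extH s a).b = s.b + 1 := rfl
    have e2 : (mkF (a :: l) s).b = (mkF l (extH s a)).b := rfl
    rw [e2, i2, this, List.length_cons]
    ring

theorem Goal.ok_spec {K0 : ℕ} {g : Goal} (h : g.ok K0 = true) :
    g.a < K0 ∧ g.a ≤ g.far.length ∧ (∀ a ∈ g.near, |a| ≤ 262144) ∧ ∀ a ∈ g.far, |a| ≤ 262144 := by
  unfold Goal.ok at h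
  simp only [Bool.and_eq_true, Nat.ble_eq, List.all_eq_true, decide_eq_true_eq] at h
  obtain ⟨⟨⟨h1, h2⟩, h3⟩, h4⟩ := h
  change g.a + 1 ≤ K0 at h1
  refine ⟨by omega, h2, fun a ha => ?_, fun a ha => ?_⟩
  · rw [abs_le]; exact h3 a ha
  · rw [abs_le]; exact h4 a ha

theorem Goal.st_spec (g : Goal) (K0 : ℕ) (hg : g.ok K0 = true) (h0 : f 0 = 2)
    (h1 : ∀ (i : ℕ) (h : i < g.near.length), f (i + 1) = g.near[i])
    (h2 : ∀ (i : ℕ) (h : i < g.far.length), F ((i : ℤ) - g.a) = g.far[i]) :
    Pk g.st f F ∧ g.st.u = g.near.length ∧ g.st.a = g.a ∧ g.st.b = g.far.length - g.a ∧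
      g.st.lo = g.lo ∧ g.st.hi = g.hi := by
  obtain ⟨_, o2, o3, o4⟩ := Goal.ok_spec hg
  have b0 : Pk ⟨0, 2, g.lo, g.hi, 0, 0, 0⟩ f (fun d => F (d - g.a)) := by
    refine ⟨?_, ?_, ?_, ?_⟩
    · simp [h0]
    · simp
    · intro k hk
      have : k = 0 := by simpa using hk
      rw [this, h0]
      norm_num
    · intro l hl
      simp at hl
  obtain ⟨a1, a2, a3, a4, a5, a6, a7⟩ := mkN_spec g.near _ b0 (fun i hi => by
    rw [← h1 i hi]
    congr 1
    simp only
    ring) o3
  simp only [zero_add] at a2 a3 a4 a5 a6 a7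
  obtain ⟨c1, c2, c3, c4, c5, c6⟩ := mkF_spec g.far _ a1 (fun i hi => by
    rw [← h2 i hi, a4]
    simp) o4
  rw [a4, zero_add] at c2
  rw [a3] at c3
  rw [a2] at c4
  have e0 : g.st = { mkF g.far (mkN g.near ⟨0, 2, g.lo, g.hi, 0, 0, 0⟩) with
    a := g.a, b := Nat.sub (mkF g.far (mkN g.near ⟨0, 2, g.lo, g.hi, 0, 0, 0⟩)).b g.a } := rfl
  set m := mkF g.far (mkN g.near ⟨0, 2, g.lo, g.hi, 0, 0, 0⟩) with hm
  have eb : g.st.b = g.far.length - g.a := by
    rw [e0]
    change m.b - g.a = _
    rw [c2]
  have ea : g.st.a = g.a := rfl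
  refine ⟨⟨c1.R, ?_, c1.fb, ?_⟩, c4, ea, eb, ?_, ?_⟩
  · have : g.st.V = m.V := rfl
    rw [this, c1.V, ea, eb, c2, c3]
    have e1 : g.a + (g.far.length - g.a) = 0 + g.far.length := by omega
    rw [e1]
    refine sum_congr rfl fun l _ => ?_
    congr 2
    omega
  · intro l hl
    rw [ea, eb] at hl
    rw [eb]
    have := c1.Fb l (by rw [c2, c3]; omega)
    rw [c2] at this
    have e1 : ((g.far.length - g.a : ℕ) : ℤ) - 1 - l = (g.far.length : ℤ) - 1 - l - g.a := by omega
    rw [e1]
    exact this
  · rw [show g.st.lo = m.lo from rfl, c5, a5]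
  · rw [show g.st.hi = m.hi from rfl, c6, a6]

theorem at_of_holds (g : Goal) (hy : Hyp c t r K) (hg : g.ok c.K0 = true)
    (h : g.Holds t r K) : At t r K g.st := by
  obtain ⟨h1, h2, h3, h4⟩ := h
  obtain ⟨p1, p2, p3, p4, p5, p6⟩ := Goal.st_spec g c.K0 hg hy.good.zero h1 h2
  have := (Goal.ok_spec hg).1
  have := hy.K0
  exact ⟨p1, by rw [p5]; exact h3, by rw [p6]; exact h4, by omega⟩

theorem holds_of_at (g : Goal) (hg : g.ok c.K0 = true) (h : At t r K g.st) : g.Holds t r K := by
  obtain ⟨_, o2, _, _⟩ := Goal.ok_spec hg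
  set f' : ℕ → ℤ := fun k => if k = 0 then 2 else g.near.getD (k - 1) 0 with hf'
  set F' : ℤ → ℤ := fun d => g.far.getD (d + g.a).toNat 0 with hF'
  obtain ⟨p1, p2, p3, p4, p5, p6⟩ := Goal.st_spec (f := f') (F := F') g c.K0 hg (by simp [hf'])
    (fun i hi => by simp [hf', hi]) (fun i hi => by simp [hF', hi])
  obtain ⟨u1, u2⟩ := Pk.unique h.pk p1
  refine ⟨fun i hi => ?_, fun i hi => ?_, ?_, ?_⟩
  · rw [u1 (i + 1) (by omega)]
    simp [hf', hi]
  · have h5 := u2 (g.far.length - 1 - i) (by omega)
    have e1 : (g.st.b : ℤ) - 1 - ((g.far.length - 1 - i : ℕ) : ℤ) = (i : ℤ) - g.a := by omega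
    rw [e1] at h5
    rw [h5]
    simp [hF', hi]
  · have := h.lo
    rwa [p5] at this
  · have := h.hi
    rwa [p6] at this

theorem covers_sound (o : Goal) (hs : covers s o = true) (h : At t r K s) : At t r K o.st := by
  have hs' : (Nat.beq s.u o.st.u && (Nat.beq s.a o.st.a && (Nat.beq s.b o.st.b &&
      (decide (s.R = o.st.R) && (decide (s.V = o.st.V) && (decide (o.st.lo ≤ s.lo) &&
      decide (s.hi ≤ o.st.hi))))))) = true := hs
  simp only [Bool.and_eq_true, Nat.beq_eq, decide_eq_true_eq] at hs'
  obtain ⟨e1, e2, e3, e4, e5, e6, e7⟩ := hs'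
  refine ⟨⟨?_, ?_, ?_, ?_⟩, ?_, ?_, ?_⟩
  · rw [← e4, ← e1]; exact h.pk.R
  · rw [← e5, ← e2, ← e3]; exact h.pk.V
  · rw [← e1]; exact h.pk.fb
  · rw [← e2, ← e3]; exact h.pk.Fb
  · have : (o.st.lo : ℝ) ≤ s.lo := by exact_mod_cast e6
    exact this.trans h.lo
  · have : (s.hi : ℝ) ≤ o.st.hi := by exact_mod_cast e7
    exact lt_of_lt_of_le h.hi this
  · rw [← e2]; exact h.aK

theorem run_sound (hW : 4 ≤ c.W) (hW' : c.W ≤ 65536) (hy : Hyp c t r K) (prog : List I)
    (st : List St) (outs : List Goal) (hr : run c prog st outs = true)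
    (ho : ∀ o ∈ outs, ¬ At t r K o.st) : ∀ x ∈ st, ¬ At t r K x := by
  induction prog generalizing st outs with
  | nil =>
    rw [run_nil] at hr
    simp only [Bool.and_eq_true, List.isEmpty_iff] at hr
    rw [hr.1]
    intro x hx
    simp at hx
  | cons i prog ih =>
    match st with
    | [] => intro x hx; simp at hx
    | s :: st =>
      have key : ∀ st', step c i s st = some st' → run c prog st' outs = true →
          ∀ x ∈ s :: st, ¬ At t r K x := by
        intro st' h1 h2
        have h3 := ih st' outs h2 ho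
        obtain ⟨h4, h5⟩ := step_sound hW hW' hy i st st' h1 h3
        intro x hx
        rcases List.mem_cons.mp hx with rfl | hx
        · exact h4
        · exact h5 x hx
      rw [run_cons] at hr
      rcases hi : i.isO with _ | _
      · rw [hi, cond_false] at hr
        rcases he : step c i s st with _ | st'
        · rw [he] at hr; exact absurd hr (by simp)
        · rw [he] at hr; exact key st' he hr
      · rw [hi, cond_true] at hr
        cases outs with
        | nil => exact absurd hr (by simp)
        | cons o outs =>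
          simp only [Bool.and_eq_true] at hr
          have h3 := ih st outs hr.2 (fun o' ho' => ho o' (List.mem_cons_of_mem _ ho'))
          intro x hx
          rcases List.mem_cons.mp hx with rfl | hx
          · intro ha
            exact ho o List.mem_cons_self (covers_sound o hr.1 ha)
          · exact h3 x hx

/-- Soundness of the checker: if all open goals are refuted, then so are all the roots. -/
theorem check_sound (prog : List I) (roots outs : List Goal)
    (hc : check c prog roots outs = true) (hy : Hyp c t r K)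
    (ho : ∀ o ∈ outs, ¬ o.Holds t r K) : ∀ g ∈ roots, ¬ g.Holds t r K := by
  unfold check at hc
  simp only [Bool.and_eq_true, Nat.ble_eq, List.all_eq_true] at hc
  obtain ⟨hW, hW', hr, hO, hrun⟩ := hc
  have h1 := run_sound hW hW' hy prog _ outs hrun
    (fun o h h2 => ho o h (holds_of_at o (hO o h) h2))
  intro g hg hh
  exact h1 g.st (List.mem_map_of_mem hg) (at_of_holds g hy (hr g hg) hh)

/-- The same, in positive form. -/
theorem check_exists (prog : List I) (roots outs : List Goal)
    (hc : check c prog roots outs = true) (hy : Hyp c t r K)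
    (h : ∃ g ∈ roots, g.Holds t r K) : ∃ o ∈ outs, o.Holds t r K := by
  by_contra hcon
  push Not at hcon
  obtain ⟨g, hg, hh⟩ := h
  exact check_sound prog roots outs hc hy hcon g hg hh

end Pool.Agent.MP1f45fc.T
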