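import Mathlib
import Pool.Agent.Lib.MP_1f45fc_nt.T.Reduce
import Pool.Agent.Lib.MP_1f45fc_nt.T.Leh
import Pool.Agent.Lib.MP_1f45fc_nt.T.Sound4

/-!
# From checked programs to the tree statements

`Imp D K0 A B`: if one of the goals `A` holds then one of the goals `B` holds (for all `K ≥ K0`,
and without a run of `D` zeros after `K` if `1 ≤ D`).
-/

set_option autoImplicit false

namespace Pool.Agent.MP1f45fc.T

def Imp (D K0 : ℕ) (A B : List Goal) : Prop :=
  ∀ (t : ℝ) (r : ℕ → ℤ) (K : ℕ), Hyp ⟨4, true, D, K0⟩ t r K →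
    (∃ g ∈ A, g.Holds t r K) → ∃ g ∈ B, g.Holds t r K

theorem Imp.of_check {W D K0 D1 K1 : ℕ} {mx : Bool} {prog : List I} {A B : List Goal}
    (h : check ⟨W, mx, D1, K1⟩ prog A B = true) (hD : D1 = 0 ∨ D1 = D) (hK : K1 ≤ K0) :
    Imp D K0 A B := by
  intro t r K hy hA
  refine check_exists (c := ⟨W, mx, D1, K1⟩) prog A B h ?_ hA
  refine ⟨hy.good, hy.leh, fun _ => hy.mx rfl, fun h1 => ?_, hK.trans hy.K0⟩
  rcases hD with h2 | h2
  · have h3 : (1 : ℕ) ≤ D1 := h1
    omega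
  · subst h2
    exact hy.zr h1

theorem Imp.mono {D K0 : ℕ} {A A' B B' : List Goal} (h : Imp D K0 A B) (h1 : A' ⊆ A)
    (h2 : B ⊆ B') : Imp D K0 A' B' := by
  intro t r K hy hA
  obtain ⟨g, hg, hh⟩ := hA
  obtain ⟨g', hg', hh'⟩ := h t r K hy ⟨g, h1 hg, hh⟩
  exact ⟨g', h2 hg', hh'⟩

theorem Imp.trans {D K0 : ℕ} {A B C : List Goal} (h : Imp D K0 A B) (h1 : Imp D K0 B C) :
    Imp D K0 A C := fun t r K hy hA => h1 t r K hy (h t r K hy hA)

theorem Imp.append {D K0 : ℕ} {A B A' B' : List Goal} (h : Imp D K0 A B)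
    (h1 : Imp D K0 A' B') : Imp D K0 (A ++ A') (B ++ B') := by
  intro t r K hy hA
  obtain ⟨g, hg, hh⟩ := hA
  rcases List.mem_append.1 hg with h2 | h2
  · obtain ⟨g', hg', hh'⟩ := h t r K hy ⟨g, h2, hh⟩
    exact ⟨g', List.mem_append_left _ hg', hh'⟩
  · obtain ⟨g', hg', hh'⟩ := h1 t r K hy ⟨g, h2, hh⟩
    exact ⟨g', List.mem_append_right _ hg', hh'⟩

theorem Imp.nil {D K0 : ℕ} {B : List Goal} : Imp D K0 [] B := by
  intro t r K _ hA
  obtain ⟨g, hg, _⟩ := hA
  simp at hg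

theorem Imp.cons {D K0 : ℕ} {g : Goal} {A B : List Goal} (h : Imp D K0 [g] B)
    (h1 : Imp D K0 A B) : Imp D K0 (g :: A) B := by
  intro t r K hy hA
  obtain ⟨g', hg, hh⟩ := hA
  rcases List.mem_cons.1 hg with h2 | h2
  · exact h t r K hy ⟨g', by rw [h2]; exact List.mem_cons_self, hh⟩
  · exact h1 t r K hy ⟨g', h2, hh⟩

theorem Imp.union {D K0 : ℕ} {A A' B : List Goal} (h : Imp D K0 A B)
    (h1 : Imp D K0 A' B) : Imp D K0 (A ++ A') B := by
  intro t r K hy hA
  obtain ⟨g, hg, hh⟩ := hA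
  rcases List.mem_append.1 hg with h2 | h2
  · exact h t r K hy ⟨g, h2, hh⟩
  · exact h1 t r K hy ⟨g, h2, hh⟩

theorem Imp.weaken {D K0 K1 : ℕ} {A B : List Goal} (h : Imp 0 K0 A B) (hK : K0 ≤ K1) :
    Imp D K1 A B := by
  intro t r K hy hA
  refine h t r K ⟨hy.good, hy.leh, hy.mx, fun h1 => ?_, hK.trans hy.K0⟩ hA
  exact absurd (show (1 : ℕ) ≤ 0 from h1) (by omega)

/-- The hypotheses of the checker for a maximal sequence. -/
theorem hyp_of {T t : ℝ} {r : ℕ → ℤ} (hT : IsT T) (hm : Max t r) (h1 : T / 2 ≤ t) (h2 : t < T)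
    {D K0 K : ℕ} (hK : K0 ≤ K) (hz : 1 ≤ D → ∀ j, K ≤ j → ∃ i, i < D ∧ r (j + i) ≠ 0) :
    Hyp ⟨4, true, D, K0⟩ t r K := by
  exact ⟨hm.toGood, (hT.range h1 h2).2.2, fun _ => ⟨hm.nonneg, hm.super⟩, hz, hK⟩

theorem rng_lo {T t : ℝ} (hT : IsT T) (h1 : T / 2 ≤ t) (h2 : t < T) {lo : ℤ}
    (hlo : lo ≤ 8618253967) : (lo : ℝ) ≤ 4294967296 * gam t := by
  have h3 := (hT.range32 h1 h2).1
  have h4 : (lo : ℝ) ≤ 8618253967 := by exact_mod_cast hlo
  linarith

theorem rng_hi {T t : ℝ} (hT : IsT T) (h1 : T / 2 ≤ t) (h2 : t < T) {hi : ℤ}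
    (hhi : 8703398820 ≤ hi) : 4294967296 * gam t < (hi : ℝ) := by
  have h3 := (hT.range32 h1 h2).2
  have h4 : (8703398820 : ℝ) ≤ hi := by exact_mod_cast hhi
  linarith

/-! ### Tree A -/

/-- The near values start with `W` zeros, or with a comb of period `e ≤ W` of length `Dc e`. -/
def okA (W : ℕ) (Dc : ℕ → ℕ) (o : Goal) : Bool :=
  (decide (W ≤ o.near.length) && (o.near.take W).all (fun x => decide (x = 0))) ||
  (List.range W).any (fun e => decide (Dc (e + 1) ≤ o.near.length) &&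
    decide (o.near.take (Dc (e + 1)) = (List.range (Dc (e + 1))).map (fun j => comb (e + 1) (j + 1))))

theorem hA_of {T : ℝ} (hT : IsT T) {W K0 : ℕ} {Dc : ℕ → ℕ} {lo hi : ℤ} (hlo : lo ≤ 8618253967)
    (hhi : 8703398820 ≤ hi) {outs : List Goal} (h : Imp 0 K0 [⟨[], 0, [], lo, hi⟩] outs)
    (ho : outs.all (okA W Dc) = true) (t : ℝ) (r : ℕ → ℤ) (hm : Max t r) (h1 : T / 2 ≤ t)
    (h2 : t < T) : (∀ j, 1 ≤ j → j ≤ W → r j = 0) ∨
      ∃ e, 1 ≤ e ∧ e ≤ W ∧ ∀ j, 1 ≤ j → j ≤ Dc e → r j = comb e j := by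
  obtain ⟨o, hmem, hh⟩ := h t r K0 (hyp_of hT hm h1 h2 le_rfl (fun h => absurd h (by omega)))
    ⟨_, List.mem_cons_self, ⟨fun i hi => absurd hi (by simp), fun i hi => absurd hi (by simp),
      rng_lo hT h1 h2 hlo, rng_hi hT h1 h2 hhi⟩⟩
  have h3 := List.all_eq_true.1 ho o hmem
  unfold okA at h3
  rw [Bool.or_eq_true] at h3
  rcases h3 with h3 | h3
  · left
    simp only [Bool.and_eq_true, decide_eq_true_eq, List.all_eq_true] at h3
    intro j hj hjW
    have h4 : j - 1 < o.near.length := by omega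
    have h5 := hh.1 (j - 1) h4
    rw [Nat.sub_add_cancel hj] at h5
    rw [h5]
    apply h3.2
    rw [List.mem_take_iff_getElem]
    exact ⟨j - 1, by omega, rfl⟩
  · right
    rw [List.any_eq_true] at h3
    obtain ⟨e, he, h4⟩ := h3
    simp only [Bool.and_eq_true, decide_eq_true_eq] at h4
    refine ⟨e + 1, by omega, by simpa using he, fun j hj hjD => ?_⟩
    have h5 : j - 1 < o.near.length := by omega
    have h6 := hh.1 (j - 1) h5
    rw [Nat.sub_add_cancel hj] at h6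
    rw [h6]
    have h7 : (o.near.take (Dc (e + 1)))[j - 1]? =
        ((List.range (Dc (e + 1))).map (fun j => comb (e + 1) (j + 1)))[j - 1]? := by rw [h4.2]
    rw [List.getElem?_take_of_lt (by omega), List.getElem?_eq_getElem h5,
      List.getElem?_map, List.getElem?_range (by omega)] at h7
    simp only [Option.map_some, Option.some.injEq] at h7
    rw [h7, Nat.sub_add_cancel hj]

/-! ### Tree A' -/

/-- `g` is a comb state: near values a comb, far values the comb seen from `K ≡ s` modulo `e` -/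
def isComb (e N s : ℕ) (g : Goal) : Bool :=
  decide (g.near.length ≤ N) && (decide (g.a ≤ N) &&
    (decide (g.near = (List.range g.near.length).map (fun i => comb e (i + 1))) &&
    (decide (g.far = (List.range g.a).map (fun i => comb e (s + (e - 1) * g.a + i))) &&
    (decide (g.lo ≤ 8618253967) && decide (8703398820 ≤ g.hi)))))

def rootsC (e N : ℕ) (roots : List Goal) : Bool :=
  (List.range e).all fun s => roots.any fun g => isComb e N s g

/-- the value at `K` equals the value at `K - e` -/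
def okC (e : ℕ) (o : Goal) : Bool :=
  decide (e ≤ o.a) && (decide (o.a < o.far.length) && decide (o.far[o.a]? = o.far[o.a - e]?))

theorem comb_mod (e a b : ℕ) (h : a % e = b % e) : comb e a = comb e b := by
  unfold comb
  have : e ∣ a ↔ e ∣ b := by rw [Nat.dvd_iff_mod_eq_zero, Nat.dvd_iff_mod_eq_zero, h]
  simp only [this]

theorem hC_of {T : ℝ} (hT : IsT T) {e N K0 : ℕ} (he : 1 ≤ e) (heN : e ≤ N) (hK0 : K0 ≤ N + 1)
    {roots outs : List Goal} (h : Imp 0 K0 roots outs) (hr : rootsC e N roots = true)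
    (ho : outs.all (okC e) = true) (t : ℝ) (r : ℕ → ℤ) (hm : Max t r) (h1 : T / 2 ≤ t)
    (h2 : t < T) (K : ℕ) (hK : N < K) (hc : ∀ j, 1 ≤ j → j < K → r j = comb e j) :
    r K = comb e K := by
  by_contra hcon
  have hne : ∀ o ∈ outs, ¬ o.Holds t r K := by
    intro o hmem hh
    have h3 := List.all_eq_true.1 ho o hmem
    unfold okC at h3
    simp only [Bool.and_eq_true, decide_eq_true_eq] at h3
    obtain ⟨h4, h5, h6⟩ := h3
    have h7 := hh.2.1 o.a h5
    have h8 := hh.2.1 (o.a - e) (by omega)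
    rw [List.getElem?_eq_getElem h5, List.getElem?_eq_getElem (show o.a - e < o.far.length by omega),
      Option.some.injEq] at h6
    rw [← h6] at h8
    rw [← h7] at h8
    unfold fr at h8
    have e1 : ((K : ℤ) + (((o.a : ℕ) : ℤ) - (o.a : ℤ))).toNat = K := by simp
    have e2 : ((K : ℤ) + (((o.a - e : ℕ) : ℤ) - (o.a : ℤ))).toNat = K - e := by
      rw [Nat.cast_sub h4]
      omega
    rw [e1, e2] at h8
    apply hcon
    rw [← h8, hc (K - e) (by omega) (by omega)]
    refine comb_mod _ _ _ ?_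
    conv_rhs => rw [show K = (K - e) + e by omega]
    rw [Nat.add_mod_right]
  obtain ⟨g, hg, hgc⟩ := List.any_eq_true.1
    (List.all_eq_true.1 hr (K % e) (List.mem_range.2 (Nat.mod_lt _ he)))
  unfold isComb at hgc
  simp only [Bool.and_eq_true, decide_eq_true_eq] at hgc
  obtain ⟨c1, c2, c3, c4, c5, c6⟩ := hgc
  have hH : g.Holds t r K → False := by
    intro hH
    obtain ⟨o, hmem, hh⟩ := h t r K
      (hyp_of hT hm h1 h2 (by omega) (fun h => absurd h (by omega))) ⟨g, hg, hH⟩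
    exact hne o hmem hh
  refine hH ⟨fun i hi => ?_, fun i hi => ?_, rng_lo hT h1 h2 c5, rng_hi hT h1 h2 c6⟩
  · have e3 : g.near[i]? = ((List.range g.near.length).map (fun i => comb e (i + 1)))[i]? := by
      rw [← c3]
    rw [List.getElem?_eq_getElem hi, List.getElem?_map, List.getElem?_range hi] at e3
    simp only [Option.map_some, Option.some.injEq] at e3
    rw [e3]
    exact hc _ (by omega) (by omega)
  · have hlen : g.far.length = g.a := by rw [c4]; simp
    have hi' : i < g.a := by omega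
    have e3 : g.far[i]? =
        ((List.range g.a).map (fun i => comb e (K % e + (e - 1) * g.a + i)))[i]? := by
      rw [← c4]
    rw [List.getElem?_eq_getElem hi, List.getElem?_map, List.getElem?_range hi'] at e3
    simp only [Option.map_some, Option.some.injEq] at e3
    rw [e3]
    unfold fr
    have e4 : ((K : ℤ) + ((i : ℤ) - (g.a : ℤ))).toNat = (K - g.a) + i := by omega
    rw [e4, hc _ (by omega) (by omega)]
    refine comb_mod _ _ _ ?_
    have e5 : (K - g.a + i) + e * g.a = K + (e - 1) * g.a + i := by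
      obtain ⟨f, rfl⟩ : ∃ f, e = f + 1 := ⟨e - 1, by omega⟩
      rw [Nat.add_sub_cancel, Nat.add_mul, Nat.one_mul]
      omega
    calc (K - g.a + i) % e = ((K - g.a + i) + e * g.a) % e := by rw [Nat.add_mul_mod_self_left]
      _ = (K + ((e - 1) * g.a + i)) % e := by rw [e5, Nat.add_assoc]
      _ = (K % e + ((e - 1) * g.a + i)) % e := by rw [Nat.mod_add_mod]
      _ = _ := by rw [← Nat.add_assoc]

/-! ### Tree B -/

/-- the value at `K` is not positive -/
def okB (o : Goal) : Bool :=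
  match o.far[o.a]? with
  | none => false
  | some v => decide (v ≤ 0)

/-- near values zero, far values zero -/
def isZero (W D : ℕ) (g : Goal) : Bool :=
  decide (g.near.length ≤ W) && (g.near.all (fun x => decide (x = 0)) && (decide (g.a ≤ D) &&
    (decide (g.far.length ≤ g.a) && (g.far.all (fun x => decide (x = 0)) &&
    (decide (g.lo ≤ 8618253967) && decide (8703398820 ≤ g.hi))))))

theorem hB_of {T : ℝ} (hT : IsT T) {W D K0 : ℕ} (hDW : D ≤ W) (hK0 : K0 ≤ W + 1)
    {g : Goal} {outs : List Goal} (h : Imp D K0 [g] outs) (hr : isZero W D g = true)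
    (ho : outs.all okB = true) (t : ℝ) (r : ℕ → ℤ) (hm : Max t r) (h1 : T / 2 ≤ t)
    (h2 : t < T) (K : ℕ) (hK : W < K) (hz : ∀ j, 1 ≤ j → j ≤ W → r j = 0)
    (hz2 : ∀ j, K - D ≤ j → j < K → r j = 0) (hpos : 1 ≤ r K) :
    ∃ m, K ≤ m ∧ ∀ i, i < D → r (m + i) = 0 := by
  by_contra hcon
  push Not at hcon
  unfold isZero at hr
  simp only [Bool.and_eq_true, decide_eq_true_eq, List.all_eq_true] at hr
  obtain ⟨c1, c2, c3, c4, c5, c6, c7⟩ := hr
  have hH : g.Holds t r K → False := by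
    intro hH
    obtain ⟨o, hmem, hh⟩ := h t r K
      (hyp_of hT hm h1 h2 (by omega) (fun _ j hj => hcon j hj)) ⟨g, List.mem_cons_self, hH⟩
    have h3 := List.all_eq_true.1 ho o hmem
    unfold okB at h3
    cases h4 : o.far[o.a]? with
    | none => rw [h4] at h3; exact absurd h3 (by simp)
    | some v =>
      rw [h4] at h3
      have h5 : v ≤ 0 := by simpa using h3
      obtain ⟨h6, h7⟩ := List.getElem?_eq_some_iff.1 h4
      have h8 := hh.2.1 o.a h6
      rw [h7] at h8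
      unfold fr at h8
      have e1 : ((K : ℤ) + (((o.a : ℕ) : ℤ) - (o.a : ℤ))).toNat = K := by simp
      rw [e1] at h8
      omega
  refine hH ⟨fun i hi => ?_, fun i hi => ?_, rng_lo hT h1 h2 c6, rng_hi hT h1 h2 c7⟩
  · rw [c2 _ (List.getElem_mem hi)]
    exact hz _ (by omega) (by omega)
  · rw [c5 _ (List.getElem_mem hi)]
    unfold fr
    have e4 : ((K : ℤ) + ((i : ℤ) - (g.a : ℤ))).toNat = (K - g.a) + i := by omega
    rw [e4]
    exact hz2 _ (by omega) (by omega)

/-! ### Assembly -/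

/-- All tree data: bound for `t`. -/
theorem seq_bound {T : ℝ} (hT : IsT T) {W D KA KB : ℕ} {Dc KC : ℕ → ℕ} {lo hi : ℤ}
    {outsA outsB : List Goal} {gB : Goal} {rootsc outsc : ℕ → List Goal}
    (hD : 1 ≤ D) (hDW : D ≤ W)
    (hlo : lo ≤ 8618253967) (hhi : 8703398820 ≤ hi)
    (hA : Imp 0 KA [⟨[], 0, [], lo, hi⟩] outsA) (hA2 : outsA.all (okA W Dc) = true)
    (hC : ∀ e, 1 ≤ e → e ≤ W → e ≤ Dc e ∧ KC e ≤ Dc e + 1 ∧ Imp 0 (KC e) (rootsc e) (outsc e) ∧
      Pool.Agent.MP1f45fc.T.rootsC e (Dc e) (rootsc e) = true ∧ (outsc e).all (okC e) = true)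
    (hKB : KB ≤ W + 1) (hB : Imp D KB [gB] outsB) (hB1 : isZero W D gB = true)
    (hB2 : outsB.all okB = true)
    {t : ℝ} {r : ℕ → ℤ} {p : ℝ} (ht : 0 < t) (hr : IsSeq t r p) : T ≤ t := by
  refine reduce (W := W) (D := D) (Dc := Dc) hD hDW (hA_of hT hlo hhi hA hA2) ?_
    (hB_of hT hDW hKB hB hB1 hB2) (fun _ _ hm => hm.toGood.unb) ht hr
  intro t r hm h1 h2 e he heW K hK hc
  obtain ⟨c1, c2, c3, c4, c5⟩ := hC e he heW
  exact hC_of hT he c1 c2 c3 c4 c5 t r hm h1 h2 K hK hc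

end Pool.Agent.MP1f45fc.T
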