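import Mathlib
import Pool.Agent.Lib.MP_1f45fc_nt.T.Adapt
import Pool.Agent.Lib.MP_1f45fc_nt.TreeA.AG
import Pool.Agent.Lib.MP_1f45fc_nt.TreeB.BG
import Pool.Agent.Lib.MP_1f45fc_nt.TreeC.All

/-!
# The three tree statements
-/

set_option autoImplicit false

namespace Pool.Agent.MP1f45fc.T

theorem data_A : TreeA.Aouts.all (okA 28 TreeC.Dc) = true := by decide +kernel

theorem data_B : TreeB.Bouts.all okB = true := by decide +kernel

/-- Tree A: the near values are zero or a comb. -/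
theorem tree_A {T : ℝ} (hT : IsT T) (t : ℝ) (r : ℕ → ℤ) (hm : Max t r) (h1 : T / 2 ≤ t)
    (h2 : t < T) : (∀ j, 1 ≤ j → j ≤ 28 → r j = 0) ∨
      ∃ e, 1 ≤ e ∧ e ≤ 28 ∧ ∀ j, 1 ≤ j → j ≤ TreeC.Dc e → r j = comb e j :=
  hA_of hT le_rfl le_rfl TreeA.A_imp data_A t r hm h1 h2

/-- Tree C: a comb does not end. -/
theorem tree_C {T : ℝ} (hT : IsT T) (t : ℝ) (r : ℕ → ℤ) (hm : Max t r) (h1 : T / 2 ≤ t)
    (h2 : t < T) (e : ℕ) (he : 1 ≤ e) (he2 : e ≤ 28) (K : ℕ) (hK : TreeC.Dc e < K)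
    (hc : ∀ j, 1 ≤ j → j < K → r j = comb e j) : r K = comb e K := by
  obtain ⟨KC, rs, os, c1, c2, c3, c4, c5⟩ := TreeC.ok e he he2
  exact hC_of hT he c1 c2 c3 c4 c5 t r hm h1 h2 K hK hc

/-- Tree B: after the last long run of zeros there is another one. -/
theorem tree_B {T : ℝ} (hT : IsT T) (t : ℝ) (r : ℕ → ℤ) (hm : Max t r) (h1 : T / 2 ≤ t)
    (h2 : t < T) (K : ℕ) (hK : 28 < K) (hz : ∀ j, 1 ≤ j → j ≤ 28 → r j = 0)
    (hz2 : ∀ j, K - 14 ≤ j → j < K → r j = 0) (hpos : 1 ≤ r K) :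
    ∃ m, K ≤ m ∧ ∀ i, i < 14 → r (m + i) = 0 :=
  hB_of hT (W := 28) (D := 14) (by omega) (by omega) TreeB.B_imp (by decide +kernel) data_B
    t r hm h1 h2 K hK hz hz2 hpos

end Pool.Agent.MP1f45fc.T
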