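import Mathlib
import Pool.Agent.Lib.MP_1f45fc_nt.T.Adapt

/-!
# Combination of the modules of a tree
-/

set_option autoImplicit false

namespace Pool.Agent.MP1f45fc.T

deriving instance DecidableEq for Goal

/-- Every goal of the first list (in order) is the next goal of the second or of the third list. -/
def cov : List Goal → List Goal → List Goal → Bool
  | [], _, _ => true
  | _ :: _, [], [] => false
  | g :: m, o :: O, [] => decide (g = o) && cov m O []
  | g :: m, [], r :: R => decide (g = r) && cov m [] R
  | g :: m, o :: O, r :: R =>
    if g = r then cov m (o :: O) R else decide (g = o) && cov m O (r :: R)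

theorem cov_mem : ∀ m O R : List Goal, cov m O R = true → ∀ g ∈ m, g ∈ O ∨ g ∈ R := by
  intro m
  induction m with
  | nil => intro O R _ g hg; simp at hg
  | cons g m ih =>
    intro O R h x hx
    rcases O with _ | ⟨o, O⟩ <;> rcases R with _ | ⟨r, R⟩
    · simp [cov] at h
    · simp only [cov, Bool.and_eq_true, decide_eq_true_eq] at h
      rcases List.mem_cons.1 hx with h1 | h1
      · right; rw [h1, h.1]; exact List.mem_cons_self
      · rcases ih [] R h.2 x h1 with h2 | h2
        · simp at h2
        · right; exact List.mem_cons_of_mem _ h2
    · simp only [cov, Bool.and_eq_true, decide_eq_true_eq] at h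
      rcases List.mem_cons.1 hx with h1 | h1
      · left; rw [h1, h.1]; exact List.mem_cons_self
      · rcases ih O [] h.2 x h1 with h2 | h2
        · left; exact List.mem_cons_of_mem _ h2
        · simp at h2
    · by_cases e : g = r
      · simp only [cov, e, if_true] at h
        rcases List.mem_cons.1 hx with h1 | h1
        · right; rw [h1, e]; exact List.mem_cons_self
        · rcases ih (o :: O) R h x h1 with h2 | h2
          · left; exact h2
          · right; exact List.mem_cons_of_mem _ h2
      · simp only [cov, e, if_false, Bool.and_eq_true, decide_eq_true_eq] at h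
        rcases List.mem_cons.1 hx with h1 | h1
        · left; rw [h1, h.1]; exact List.mem_cons_self
        · rcases ih O (r :: R) h.2 x h1 with h2 | h2
          · left; exact List.mem_cons_of_mem _ h2
          · right; exact h2

/-- The outs `B` of the master are roots `R` of the groups (with outs `C`) or own outs `O`. -/
theorem Imp.glue {D K0 : ℕ} {A B O R C : List Goal} (h : Imp D K0 A B) (h1 : Imp D K0 R C)
    (hc : cov B O R = true) : Imp D K0 A (O ++ C) := by
  intro t r K hy hA
  obtain ⟨g, hg, hh⟩ := h t r K hy hA
  rcases cov_mem B O R hc g hg with h2 | h2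
  · exact ⟨g, List.mem_append_left _ h2, hh⟩
  · obtain ⟨g', hg', hh'⟩ := h1 t r K hy ⟨g, h2, hh⟩
    exact ⟨g', List.mem_append_right _ hg', hh'⟩

theorem Imp.app {D K0 : ℕ} {A B A' B' : List Goal} (h : Imp D K0 A B)
    (h1 : Imp D K0 A' B') : Imp D K0 (A ++ A') (B ++ B') := h.append h1

end Pool.Agent.MP1f45fc.T
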