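import Mathlib

set_option autoImplicit false

namespace Pool.Agent.MP1f45fc.T

/-- `r` is the sequence of Chebyshev moments `∫ (z ^ k + z ^ (-k))` of a finitely supported
probability measure with an atom of mass `p > 0` at `β = e ^ t` and all other atoms on the unit
circle. -/
def IsSeq (t : ℝ) (r : ℕ → ℤ) (p : ℝ) : Prop :=
  0 < p ∧ r 0 = 2 ∧ ∃ (m : ℕ) (w θ : Fin m → ℝ), (∀ i, 0 ≤ w i) ∧
    ∀ k : ℕ, (r k : ℝ) = 2 * p * Real.cosh (k * t) + 2 * ∑ i, w i * Real.cos (k * θ i)

/-- `γ = 2 cosh t`. -/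
noncomputable def gam (t : ℝ) : ℝ := 2 * Real.cosh t

/-- Dot product of two integer lists (up to the shorter length). -/
def dot : List ℤ → List ℤ → ℤ
  | a :: A, b :: B => a * b + dot A B
  | _, _ => 0

/-- The quadratic form `f₀ ∑ aᵢ² + ∑_{i<j} aᵢ aⱼ F_{j-i}`; `F = [F₁, F₂, ...]`. -/
def quad (f0 : ℤ) (F : List ℤ) : List ℤ → ℤ
  | [] => 0
  | a :: A => a * a * f0 + a * dot A F + quad f0 F A

/-- `[r 1, ..., r n]`. -/
def pre (r : ℕ → ℤ) (n : ℕ) : List ℤ := (List.range n).map fun i => r (i + 1)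

/-- `[d 1, ..., d n]` with `d k = r (k+1) + r (k-1)`. -/
def preD (r : ℕ → ℤ) (n : ℕ) : List ℤ := (List.range n).map fun i => r (i + 2) + r i

/-- real versions -/
def dotR (f : ℕ → ℝ) : ℕ → List ℤ → ℝ
  | _, [] => 0
  | s, a :: A => a * f s + dotR f (s + 1) A

def quadR (f0 : ℝ) (f : ℕ → ℝ) : List ℤ → ℝ
  | [] => 0
  | a :: A => a * a * f0 + a * dotR f 1 A + quadR f0 f A

lemma dotR_add (f g : ℕ → ℝ) (s : ℕ) (A : List ℤ) :
    dotR (fun k => f k + g k) s A = dotR f s A + dotR g s A := by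
  induction A generalizing s with
  | nil => simp [dotR]
  | cons a A ih => simp only [dotR, ih]; ring

lemma dotR_smul (c : ℝ) (f : ℕ → ℝ) (s : ℕ) (A : List ℤ) :
    dotR (fun k => c * f k) s A = c * dotR f s A := by
  induction A generalizing s with
  | nil => simp [dotR]
  | cons a A ih => simp only [dotR, ih]; ring

lemma quadR_add (f0 g0 : ℝ) (f g : ℕ → ℝ) (A : List ℤ) :
    quadR (f0 + g0) (fun k => f k + g k) A = quadR f0 f A + quadR g0 g A := by
  induction A with
  | nil => simp [quadR]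
  | cons a A ih => simp only [quadR, ih, dotR_add]; ring

lemma quadR_smul (c f0 : ℝ) (f : ℕ → ℝ) (A : List ℤ) :
    quadR (c * f0) (fun k => c * f k) A = c * quadR f0 f A := by
  induction A with
  | nil => simp [quadR]
  | cons a A ih => simp only [quadR, ih, dotR_smul]; ring

/-- `∑ aᵢ cos ((s+i) θ)` and the like. -/
noncomputable def cosS (θ : ℝ) : ℕ → List ℤ → ℝ
  | _, [] => 0
  | s, a :: A => a * Real.cos (s * θ) + cosS θ (s + 1) A

noncomputable def sinS (θ : ℝ) : ℕ → List ℤ → ℝ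
  | _, [] => 0
  | s, a :: A => a * Real.sin (s * θ) + sinS θ (s + 1) A

noncomputable def coshS (t : ℝ) : ℕ → List ℤ → ℝ
  | _, [] => 0
  | s, a :: A => a * Real.cosh (s * t) + coshS t (s + 1) A

noncomputable def sinhS (t : ℝ) : ℕ → List ℤ → ℝ
  | _, [] => 0
  | s, a :: A => a * Real.sinh (s * t) + sinhS t (s + 1) A

lemma cosS_succ (θ : ℝ) (s : ℕ) (A : List ℤ) :
    cosS θ (s + 1) A = Real.cos θ * cosS θ s A - Real.sin θ * sinS θ s A ∧
    sinS θ (s + 1) A = Real.sin θ * cosS θ s A + Real.cos θ * sinS θ s A := by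
  induction A generalizing s with
  | nil => simp [cosS, sinS]
  | cons a A ih =>
    obtain ⟨h1, h2⟩ := ih (s + 1)
    have e : ((s + 1 : ℕ) : ℝ) * θ = s * θ + θ := by push_cast; ring
    constructor
    · simp only [cosS, sinS, h1, e, Real.cos_add]; ring
    · simp only [cosS, sinS, h2, e, Real.sin_add]; ring

lemma coshS_succ (t : ℝ) (s : ℕ) (A : List ℤ) :
    coshS t (s + 1) A = Real.cosh t * coshS t s A + Real.sinh t * sinhS t s A ∧
    sinhS t (s + 1) A = Real.sinh t * coshS t s A + Real.cosh t * sinhS t s A := by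
  induction A generalizing s with
  | nil => simp [coshS, sinhS]
  | cons a A ih =>
    obtain ⟨h1, h2⟩ := ih (s + 1)
    have e : ((s + 1 : ℕ) : ℝ) * t = s * t + t := by push_cast; ring
    constructor
    · simp only [coshS, sinhS, h1, e, Real.cosh_add]; ring
    · simp only [coshS, sinhS, h2, e, Real.sinh_add]; ring

lemma dotR_cos (θ : ℝ) (s : ℕ) (A : List ℤ) :
    dotR (fun k => 2 * Real.cos (k * θ)) s A = 2 * cosS θ s A := by
  induction A generalizing s with
  | nil => simp [dotR, cosS]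
  | cons a A ih => simp only [dotR, cosS, ih]; ring

lemma dotR_cosh (t : ℝ) (s : ℕ) (A : List ℤ) :
    dotR (fun k => 2 * Real.cosh (k * t)) s A = 2 * coshS t s A := by
  induction A generalizing s with
  | nil => simp [dotR, coshS]
  | cons a A ih => simp only [dotR, coshS, ih]; ring

lemma quadR_cos (θ : ℝ) (A : List ℤ) :
    quadR 1 (fun k => 2 * Real.cos (k * θ)) A = cosS θ 0 A ^ 2 + sinS θ 0 A ^ 2 := by
  induction A with
  | nil => simp [quadR, cosS, sinS]
  | cons a A ih =>
    obtain ⟨h1, h2⟩ := cosS_succ θ 0 A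
    have h3 := Real.sin_sq_add_cos_sq θ
    simp only [quadR, ih, dotR_cos, cosS, sinS, Nat.cast_zero, zero_mul, Real.cos_zero,
      Real.sin_zero, mul_one, mul_zero, zero_add] at *
    rw [h1, h2]
    linear_combination (-(cosS θ 0 A ^ 2 + sinS θ 0 A ^ 2)) * h3

lemma quadR_cosh (t : ℝ) (A : List ℤ) :
    quadR 1 (fun k => 2 * Real.cosh (k * t)) A = coshS t 0 A ^ 2 - sinhS t 0 A ^ 2 := by
  induction A with
  | nil => simp [quadR, coshS, sinhS]
  | cons a A ih =>
    obtain ⟨h1, h2⟩ := coshS_succ t 0 A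
    have h3 := Real.cosh_sq t
    simp only [quadR, ih, dotR_cosh, coshS, sinhS, Nat.cast_zero, zero_mul, Real.cosh_zero,
      Real.sinh_zero, mul_one, mul_zero, zero_add] at *
    rw [h1, h2]
    linear_combination (-(coshS t 0 A ^ 2 - sinhS t 0 A ^ 2)) * h3


/-! ### Sums over atoms -/

lemma dotR_sum {m : ℕ} (c : Fin m → ℝ) (g : Fin m → ℕ → ℝ) (s : ℕ) (A : List ℤ) :
    dotR (fun k => ∑ i, c i * g i k) s A = ∑ i, c i * dotR (g i) s A := by
  induction A generalizing s with
  | nil => simp [dotR]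
  | cons a A ih =>
    simp only [dotR, ih, Finset.mul_sum, ← Finset.sum_add_distrib]
    refine Finset.sum_congr rfl fun i _ => ?_
    ring

lemma quadR_sum {m : ℕ} (c x : Fin m → ℝ) (g : Fin m → ℕ → ℝ) (A : List ℤ) :
    quadR (∑ i, c i * x i) (fun k => ∑ i, c i * g i k) A = ∑ i, c i * quadR (x i) (g i) A := by
  induction A with
  | nil => simp [quadR]
  | cons a A ih =>
    simp only [quadR, ih, dotR_sum, Finset.mul_sum, ← Finset.sum_add_distrib]
    refine Finset.sum_congr rfl fun i _ => ?_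
    ring

/-- `A(β) A(1/β)`. -/
noncomputable def hval (t : ℝ) (A : List ℤ) : ℝ := coshS t 0 A ^ 2 - sinhS t 0 A ^ 2

/-- `|A(e^{iθ})|²`. -/
noncomputable def cval (θ : ℝ) (A : List ℤ) : ℝ := cosS θ 0 A ^ 2 + sinS θ 0 A ^ 2

lemma cval_nonneg (θ : ℝ) (A : List ℤ) : 0 ≤ cval θ A := by unfold cval; positivity

/-- the `k`-th moment of `|A|²` times the measure -/
def momR (r : ℕ → ℤ) (k : ℕ) (A : List ℤ) : ℝ :=
  quadR (r k) (fun j => (r (j + k) : ℝ) + r (Nat.dist j k)) A

lemma cosh_dist (j k : ℕ) (t : ℝ) :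
    Real.cosh ((Nat.dist j k : ℕ) * t) = Real.cosh (j * t - k * t) := by
  rcases le_total j k with h | h
  · rw [Nat.dist_eq_sub_of_le h, Nat.cast_sub h, ← Real.cosh_neg]
    congr 1; ring
  · rw [Nat.dist_eq_sub_of_le_right h, Nat.cast_sub h]
    congr 1; ring

lemma cos_dist (j k : ℕ) (t : ℝ) :
    Real.cos ((Nat.dist j k : ℕ) * t) = Real.cos (j * t - k * t) := by
  rcases le_total j k with h | h
  · rw [Nat.dist_eq_sub_of_le h, Nat.cast_sub h, ← Real.cos_neg]
    congr 1; ring
  · rw [Nat.dist_eq_sub_of_le_right h, Nat.cast_sub h]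
    congr 1; ring

/-- The fundamental formula. -/
lemma momR_eq {t : ℝ} {r : ℕ → ℤ} {p : ℝ} {m : ℕ} {w θ : Fin m → ℝ}
    (h : ∀ k : ℕ, (r k : ℝ) = 2 * p * Real.cosh (k * t) + 2 * ∑ i, w i * Real.cos (k * θ i))
    (k : ℕ) (A : List ℤ) :
    momR r k A = 2 * p * Real.cosh (k * t) * hval t A
      + 2 * ∑ i, w i * Real.cos (k * θ i) * cval (θ i) A := by
  have h1 : momR r k A =
      quadR (2 * p * Real.cosh (k * t) * 1 + ∑ i, (2 * w i * Real.cos (k * θ i)) * 1)
        (fun j => 2 * p * Real.cosh (k * t) * (2 * Real.cosh (j * t))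
          + ∑ i, (2 * w i * Real.cos (k * θ i)) * (2 * Real.cos (j * θ i))) A := by
    unfold momR
    congr 1
    · rw [h k, Finset.mul_sum]
      simp only [mul_one]
      congr 1
      refine Finset.sum_congr rfl fun i _ => by ring
    · funext j
      rw [h (j + k), h (Nat.dist j k)]
      simp only [cosh_dist, cos_dist]
      push_cast
      simp only [add_mul, Real.cosh_add, Real.cosh_sub, Real.cos_add, Real.cos_sub]
      have e : ∀ i, w i * (Real.cos (↑j * θ i) * Real.cos (↑k * θ i) -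
          Real.sin (↑j * θ i) * Real.sin (↑k * θ i)) + w i * (Real.cos (↑j * θ i) *
          Real.cos (↑k * θ i) + Real.sin (↑j * θ i) * Real.sin (↑k * θ i))
          = w i * Real.cos (↑k * θ i) * (2 * Real.cos (↑j * θ i)) := fun i => by ring
      have e2 : 2 * ∑ i, w i * (Real.cos (↑j * θ i) * Real.cos (↑k * θ i) -
          Real.sin (↑j * θ i) * Real.sin (↑k * θ i)) + 2 * ∑ i, w i * (Real.cos (↑j * θ i) *
          Real.cos (↑k * θ i) + Real.sin (↑j * θ i) * Real.sin (↑k * θ i))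
          = ∑ i, 2 * w i * Real.cos (↑k * θ i) * (2 * Real.cos (↑j * θ i)) := by
        rw [← mul_add, ← Finset.sum_add_distrib, Finset.mul_sum]
        refine Finset.sum_congr rfl fun i _ => ?_
        rw [e]; ring
      linear_combination e2
  rw [h1, quadR_add, quadR_smul, quadR_sum, quadR_cosh]
  simp only [quadR_cos]
  unfold hval cval
  rw [Finset.mul_sum]
  congr 1
  refine Finset.sum_congr rfl fun i _ => by ring

/-! ### Integer evaluation -/

/-- `F` lists the values `f s, f (s+1), ...`. -/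
def Ag (f : ℕ → ℤ) : ℕ → List ℤ → Prop
  | _, [] => True
  | s, x :: F => x = f s ∧ Ag f (s + 1) F

lemma dot_ag {f : ℕ → ℤ} {s : ℕ} {F A : List ℤ} (h : Ag f s F) (hl : A.length ≤ F.length) :
    (dot A F : ℝ) = dotR (fun k => (f k : ℝ)) s A := by
  induction A generalizing s F with
  | nil => simp [dot, dotR]
  | cons a A ih =>
    cases F with
    | nil => simp at hl
    | cons x F =>
      obtain ⟨h1, h2⟩ := h
      simp only [List.length_cons, add_le_add_iff_right] at hl
      simp only [dot, dotR, Int.cast_add, Int.cast_mul, ih h2 hl, h1]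

lemma Ag.tail_le {f : ℕ → ℤ} {s : ℕ} {F : List ℤ} (h : Ag f s F) (n : ℕ) :
    Ag f (s + n) (F.drop n) := by
  induction n generalizing s F with
  | zero => simpa using h
  | succ n ih =>
    cases F with
    | nil => simp [Ag]
    | cons x F =>
      have := ih h.2
      rw [List.drop_succ_cons]
      convert this using 1
      ring

lemma quad_ag {f : ℕ → ℤ} {f0 : ℤ} {F A : List ℤ} (h : Ag f 1 F) (hl : A.length ≤ F.length + 1) :
    (quad f0 F A : ℝ) = quadR f0 (fun k => (f k : ℝ)) A := by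
  induction A with
  | nil => simp [quad, quadR]
  | cons a A ih =>
    simp only [List.length_cons, add_le_add_iff_right] at hl
    simp only [quad, quadR, Int.cast_add, Int.cast_mul]
    rw [dot_ag h hl, ih (by omega)]

/-- `d_k = r_{k+1} + r_{k-1}` from `R = [r 1, r 2, ...]`, `r 0 = 2`. -/
def dlist (R : List ℤ) : List ℤ := List.zipWith (· + ·) R.tail (2 :: R)

lemma Ag.zip {f g : ℕ → ℤ} {s s' u : ℕ} {F G : List ℤ} (hF : Ag f s F) (hG : Ag g s' G)
    (k : ℕ → ℤ) (hk : ∀ i, f (s + i) + g (s' + i) = k (u + i)) :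
    Ag k u (List.zipWith (· + ·) F G) := by
  induction F generalizing s s' u G with
  | nil => simp [Ag]
  | cons x F ih =>
    cases G with
    | nil => simp [Ag]
    | cons y G =>
      refine ⟨?_, ih hF.2 hG.2 fun i => ?_⟩
      · have := hk 0
        simp only [add_zero] at this
        rw [← this, hF.1, hG.1]
      · have := hk (i + 1)
        convert this using 2 <;> ring_nf

lemma dlist_ag {r : ℕ → ℤ} {R : List ℤ} (h0 : r 0 = 2) (h : Ag r 1 R) :
    Ag (fun j => r (j + 1) + r (j - 1)) 1 (dlist R) := by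
  have h1 : Ag r 2 R.tail := by
    cases R with
    | nil => simp [Ag]
    | cons x F => exact h.2
  have h2 : Ag r 0 (2 :: R) := ⟨h0.symm, h⟩
  refine Ag.zip h1 h2 _ fun i => ?_
  have e1 : 1 + i + 1 = 2 + i := by ring
  have e2 : 1 + i - 1 = 0 + i := by omega
  simp only [e1, e2]

lemma dlist_length (R : List ℤ) : (dlist R).length = R.length - 1 := by
  simp only [dlist, List.length_zipWith, List.length_tail, List.length_cons]
  omega

/-! ### Integer forms -/

def dotZ (f : ℕ → ℤ) : ℕ → List ℤ → ℤ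
  | _, [] => 0
  | s, a :: A => a * f s + dotZ f (s + 1) A

def quadZ (f0 : ℤ) (f : ℕ → ℤ) : List ℤ → ℤ
  | [] => 0
  | a :: A => a * a * f0 + a * dotZ f 1 A + quadZ f0 f A

/-- `E |A|²` -/
def nrm (r : ℕ → ℤ) (A : List ℤ) : ℤ := quadZ 1 r A

/-- `E (z + 1/z) |A|²` -/
def nrm' (r : ℕ → ℤ) (A : List ℤ) : ℤ := quadZ (r 1) (fun j => r (j + 1) + r (j - 1)) A

lemma dotZ_cast (f : ℕ → ℤ) (s : ℕ) (A : List ℤ) :
    (dotZ f s A : ℝ) = dotR (fun k => (f k : ℝ)) s A := by
  induction A generalizing s with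
  | nil => simp [dotZ, dotR]
  | cons a A ih => simp only [dotZ, dotR, Int.cast_add, Int.cast_mul, ih]

lemma quadZ_cast (f0 : ℤ) (f : ℕ → ℤ) (A : List ℤ) :
    (quadZ f0 f A : ℝ) = quadR f0 (fun k => (f k : ℝ)) A := by
  induction A with
  | nil => simp [quadZ, quadR]
  | cons a A ih =>
    simp only [quadZ, quadR, Int.cast_add, Int.cast_mul, dotZ_cast, ih]

lemma dotR_congr {f g : ℕ → ℝ} {s : ℕ} (h : ∀ k, s ≤ k → f k = g k) (A : List ℤ) :
    dotR f s A = dotR g s A := by
  induction A generalizing s with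
  | nil => rfl
  | cons a A ih =>
    simp only [dotR, h s le_rfl]
    rw [ih fun k hk => h k (by omega)]

lemma quadR_congr {f0 : ℝ} {f g : ℕ → ℝ} (h : ∀ k, 1 ≤ k → f k = g k) (A : List ℤ) :
    quadR f0 f A = quadR f0 g A := by
  induction A with
  | nil => rfl
  | cons a A ih => simp only [quadR, dotR_congr h, ih]

lemma dotZ_congr {f g : ℕ → ℤ} {s : ℕ} {A : List ℤ}
    (h : ∀ k, s ≤ k → k < s + A.length → f k = g k) :
    dotZ f s A = dotZ g s A := by
  induction A generalizing s with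
  | nil => rfl
  | cons a A ih =>
    simp only [List.length_cons] at h
    simp only [dotZ, h s le_rfl (by omega)]
    rw [ih fun k hk hk2 => h k (by omega) (by omega)]

lemma quadZ_congr {f0 : ℤ} {f g : ℕ → ℤ} {A : List ℤ} (h : ∀ k, 1 ≤ k → k < A.length → f k = g k) :
    quadZ f0 f A = quadZ f0 g A := by
  induction A with
  | nil => rfl
  | cons a A ih =>
    simp only [List.length_cons] at h
    simp only [quadZ]
    rw [dotZ_congr fun k hk hk2 => h k hk (by omega), ih fun k hk hk2 => h k hk (by omega)]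

/-- `∑ aᵢ e ^ ((s+i) t)` -/
noncomputable def evS (t : ℝ) : ℕ → List ℤ → ℝ
  | _, [] => 0
  | s, a :: A => a * Real.exp (s * t) + evS t (s + 1) A

lemma evS_eq (t : ℝ) (s : ℕ) (A : List ℤ) : evS t s A = coshS t s A + sinhS t s A := by
  induction A generalizing s with
  | nil => simp [evS, coshS, sinhS]
  | cons a A ih =>
    simp only [evS, coshS, sinhS, ih, ← Real.cosh_add_sinh]; ring

lemma evS_neg_eq (t : ℝ) (s : ℕ) (A : List ℤ) : evS (-t) s A = coshS t s A - sinhS t s A := by
  induction A generalizing s with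
  | nil => simp [evS, coshS, sinhS]
  | cons a A ih =>
    simp only [evS, coshS, sinhS, ih, ← Real.cosh_add_sinh, mul_neg, Real.cosh_neg,
      Real.sinh_neg]; ring

lemma evS_succ (t : ℝ) (s : ℕ) (A : List ℤ) :
    evS t (s + 1) A = Real.exp t * evS t s A := by
  induction A generalizing s with
  | nil => simp [evS]
  | cons a A ih =>
    simp only [evS, ih]
    have : ((s + 1 : ℕ) : ℝ) * t = t + s * t := by push_cast; ring
    rw [this, Real.exp_add]; ring

lemma evS_append (t : ℝ) (s : ℕ) (A B : List ℤ) :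
    evS t s (A ++ B) = evS t s A + evS t (s + A.length) B := by
  induction A generalizing s with
  | nil => simp [evS]
  | cons a A ih =>
    simp only [List.cons_append, evS, ih, List.length_cons]
    have : s + 1 + A.length = s + (A.length + 1) := by ring
    rw [this]; ring

lemma evS_reverse (t : ℝ) (A : List ℤ) :
    Real.exp (A.length * t) * evS (-t) 0 A.reverse = Real.exp t * evS t 0 A := by
  induction A with
  | nil => simp [evS]
  | cons a A ih =>
    simp only [List.reverse_cons, evS_append, List.length_cons, List.length_reverse, evS,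
      zero_add, evS_succ, Nat.cast_zero, zero_mul, Real.exp_zero, mul_one, add_zero]
    have e1 : ((A.length + 1 : ℕ) : ℝ) * t = A.length * t + t := by push_cast; ring
    have e2 : ((A.length : ℕ) : ℝ) * -t = -(A.length * t) := by ring
    rw [e1, e2, Real.exp_add, Real.exp_neg]
    have h0 : Real.exp (A.length * t) ≠ 0 := (Real.exp_pos _).ne'
    field_simp
    linear_combination ih

lemma hval_eq (t : ℝ) (A : List ℤ) : hval t A = evS t 0 A * evS (-t) 0 A := by
  rw [evS_eq, evS_neg_eq]; unfold hval; ring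

lemma hval_pal (t : ℝ) (A : List ℤ) (h : A.reverse = A) :
    Real.exp (A.length * t) * hval t A = Real.exp t * evS t 0 A ^ 2 := by
  have := evS_reverse t A
  rw [h] at this
  rw [hval_eq]
  linear_combination (evS t 0 A) * this

lemma hval_pal_nonneg (t : ℝ) (A : List ℤ) (h : A.reverse = A) : 0 ≤ hval t A := by
  have h1 := hval_pal t A h
  have h2 : 0 ≤ Real.exp t * evS t 0 A ^ 2 := by positivity
  rw [← h1] at h2
  exact nonneg_of_mul_nonneg_right h2 (Real.exp_pos _)

lemma evS_zero_of_hval_pal (t : ℝ) (A : List ℤ) (h : A.reverse = A) (h0 : hval t A = 0) :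
    evS t 0 A = 0 := by
  have h1 := hval_pal t A h
  rw [h0, mul_zero] at h1
  have h2 : Real.exp t ≠ 0 := (Real.exp_pos _).ne'
  have h3 : evS t 0 A ^ 2 = 0 := by
    rcases mul_eq_zero.mp h1.symm with h | h
    · exact absurd h h2
    · exact h
  exact pow_eq_zero_iff (two_ne_zero) |>.mp h3

/-- The facts about the moment sequence which the certificates use. -/
structure Good (t : ℝ) (r : ℕ → ℤ) : Prop where
  ht : 0 < t
  zero : r 0 = 2
  cert : ∀ A : List ℤ, (nrm' r A : ℝ) ≤ gam t * nrm r A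
  pal : ∀ A : List ℤ, A.reverse = A → 0 ≤ nrm r A
  palz : ∀ A : List ℤ, A.reverse = A → nrm r A = 0 → evS t 0 A = 0
  unb : ∀ M : ℤ, ∃ k₀, ∀ k, k₀ ≤ k → M < r k

lemma nrm_eq {t : ℝ} {r : ℕ → ℤ} {p : ℝ} {m : ℕ} {w θ : Fin m → ℝ}
    (h : ∀ k : ℕ, (r k : ℝ) = 2 * p * Real.cosh (k * t) + 2 * ∑ i, w i * Real.cos (k * θ i))
    (h0 : r 0 = 2) (A : List ℤ) :
    (nrm r A : ℝ) = p * hval t A + ∑ i, w i * cval (θ i) A := by
  have h1 := momR_eq h 0 A
  have h2 : momR r 0 A = 2 * (nrm r A : ℝ) := by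
    unfold momR nrm
    rw [quadZ_cast, ← quadR_smul, h0]
    congr 1
    · norm_num
    · funext j
      simp only [add_zero, Nat.dist_zero_right]
      ring
  rw [h2] at h1
  simp only [Nat.cast_zero, zero_mul, Real.cosh_zero, mul_one, Real.cos_zero] at h1
  linarith

lemma nrm'_eq {t : ℝ} {r : ℕ → ℤ} {p : ℝ} {m : ℕ} {w θ : Fin m → ℝ}
    (h : ∀ k : ℕ, (r k : ℝ) = 2 * p * Real.cosh (k * t) + 2 * ∑ i, w i * Real.cos (k * θ i))
    (A : List ℤ) :
    (nrm' r A : ℝ) = 2 * p * Real.cosh t * hval t A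
      + 2 * ∑ i, w i * Real.cos (θ i) * cval (θ i) A := by
  have h1 := momR_eq h 1 A
  have h2 : momR r 1 A = (nrm' r A : ℝ) := by
    unfold momR nrm'
    rw [quadZ_cast]
    refine quadR_congr (fun k hk => ?_) A
    rw [Nat.dist_eq_sub_of_le_right hk]
    push_cast
    rfl
  rw [← h2, h1]
  simp only [Nat.cast_one, one_mul]

lemma IsSeq.p_le {t : ℝ} {r : ℕ → ℤ} {p : ℝ} (h : IsSeq t r p) : p ≤ 1 := by
  obtain ⟨hp, h0, m, w, θ, hw, h⟩ := h
  have h1 := h 0
  simp only [Nat.cast_zero, zero_mul, Real.cosh_zero, mul_one, Real.cos_zero, h0] at h1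
  have h2 : 0 ≤ ∑ i, w i := Finset.sum_nonneg fun i _ => hw i
  push_cast at h1
  linarith

lemma IsSeq.lower {t : ℝ} {r : ℕ → ℤ} {p : ℝ} (h : IsSeq t r p) (k : ℕ) :
    2 * p * Real.cosh (k * t) - 2 ≤ r k := by
  obtain ⟨hp, h0, m, w, θ, hw, h⟩ := h
  have h1 := h 0
  simp only [Nat.cast_zero, zero_mul, Real.cosh_zero, mul_one, Real.cos_zero, h0] at h1
  have h2 : -∑ i, w i ≤ ∑ i, w i * Real.cos (k * θ i) := by
    rw [← Finset.sum_neg_distrib]
    refine Finset.sum_le_sum fun i _ => ?_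
    have := Real.neg_one_le_cos (k * θ i)
    nlinarith [hw i]
  rw [h k]
  push_cast at h1
  linarith

lemma IsSeq.good {t : ℝ} {r : ℕ → ℤ} {p : ℝ} (ht : 0 < t) (h : IsSeq t r p) : Good t r := by
  have hlow := h.lower
  obtain ⟨hp, h0, m, w, θ, hw, h⟩ := h
  refine ⟨ht, h0, fun A => ?_, fun A hA => ?_, fun A hA hz => ?_, fun M => ?_⟩
  · rw [nrm_eq h h0, nrm'_eq h]
    unfold gam
    have h1 : ∑ i, w i * Real.cos (θ i) * cval (θ i) A ≤
        Real.cosh t * ∑ i, w i * cval (θ i) A := by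
      rw [Finset.mul_sum]
      refine Finset.sum_le_sum fun i _ => ?_
      have h2 : Real.cos (θ i) ≤ Real.cosh t :=
        (Real.cos_le_one _).trans (Real.one_le_cosh t)
      have h3 := mul_nonneg (hw i) (cval_nonneg (θ i) A)
      nlinarith
    linarith
  · have h1 := nrm_eq h h0 A
    have h2 := hval_pal_nonneg t A hA
    have h3 : 0 ≤ ∑ i, w i * cval (θ i) A :=
      Finset.sum_nonneg fun i _ => mul_nonneg (hw i) (cval_nonneg _ _)
    have h4 : (0 : ℝ) ≤ nrm r A := by rw [h1]; positivity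
    exact_mod_cast h4
  · have h1 := nrm_eq h h0 A
    have h2 := hval_pal_nonneg t A hA
    have h3 : 0 ≤ ∑ i, w i * cval (θ i) A :=
      Finset.sum_nonneg fun i _ => mul_nonneg (hw i) (cval_nonneg _ _)
    rw [hz] at h1
    push_cast at h1
    have h4 : 0 ≤ p * hval t A := by positivity
    have h5 : p * hval t A = 0 := by linarith
    have h6 : hval t A = 0 := by
      rcases mul_eq_zero.mp h5 with h | h
      · exact absurd h hp.ne'
      · exact h
    exact evS_zero_of_hval_pal t A hA h6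
  · have htend : Filter.Tendsto (fun k : ℕ => 2 * p * Real.cosh (k * t) - 2) Filter.atTop
        Filter.atTop := by
      refine Filter.tendsto_atTop_mono (f := fun k : ℕ => p * (k * t) - 2) (fun k => ?_) ?_
      · have h1 : (k : ℝ) * t ≤ 2 * Real.cosh (k * t) := by
          have h2 := Real.add_one_le_exp ((k : ℝ) * t)
          have h3 := Real.exp_pos (-((k : ℝ) * t))
          rw [Real.cosh_eq]
          linarith
        nlinarith
      · refine Filter.tendsto_atTop_add_const_right _ _ ?_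
        have : (fun k : ℕ => p * ((k : ℝ) * t)) = fun k : ℕ => (p * t) * (k : ℝ) := by
          funext k; ring
        rw [this]
        exact Filter.Tendsto.const_mul_atTop (by positivity) tendsto_natCast_atTop_atTop
    obtain ⟨k₀, hk₀⟩ := Filter.eventually_atTop.mp (htend.eventually_gt_atTop (M : ℝ))
    refine ⟨k₀, fun k hk => ?_⟩
    have : (M : ℝ) < r k := lt_of_lt_of_le (hk₀ k hk) (hlow k)
    exact_mod_cast this

/-! ### Closure under powers and under multiplication by `|X|²` -/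

lemma IsSeq.pow {t : ℝ} {r : ℕ → ℤ} {p : ℝ} (h : IsSeq t r p) (n : ℕ) :
    IsSeq (n * t) (fun k => r (n * k)) p := by
  obtain ⟨hp, h0, m, w, θ, hw, h⟩ := h
  refine ⟨hp, by simpa using h0, m, w, fun i => n * θ i, hw, fun k => ?_⟩
  rw [h (n * k)]
  have e1 : ((n * k : ℕ) : ℝ) * t = k * (n * t) := by push_cast; ring
  have e2 : ∀ i, ((n * k : ℕ) : ℝ) * θ i = k * (n * θ i) := fun i => by push_cast; ring
  simp only [e1, e2]

/-- the moments of `|X|²` times the measure, divided by ... (`nrm r X = 1`) -/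
def tw (r : ℕ → ℤ) (X : List ℤ) (k : ℕ) : ℤ :=
  quadZ (r k) (fun j => r (j + k) + r (Nat.dist j k)) X

lemma IsSeq.tw {t : ℝ} {r : ℕ → ℤ} {p : ℝ} (h : IsSeq t r p) {X : List ℤ}
    (hX : nrm r X = 1) (hh : 0 < hval t X) : IsSeq t (tw r X) (p * hval t X) := by
  obtain ⟨hp, h0, m, w, θ, hw, h⟩ := h
  refine ⟨by positivity, ?_, m, fun i => w i * cval (θ i) X, θ,
    fun i => mul_nonneg (hw i) (cval_nonneg _ _), fun k => ?_⟩
  · have h1 : (T.tw r X 0 : ℝ) = 2 * (nrm r X : ℝ) := by
      unfold T.tw nrm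
      rw [quadZ_cast, quadZ_cast, ← quadR_smul, h0]
      congr 1
      · norm_num
      · funext j
        simp only [add_zero, Nat.dist_zero_right]
        push_cast
        ring
    rw [hX] at h1
    norm_num at h1
    exact_mod_cast h1
  · have h1 := momR_eq h k X
    have h2 : momR r k X = (T.tw r X k : ℝ) := by
      unfold momR T.tw
      rw [quadZ_cast]
      congr 1
      funext j
      push_cast
      rfl
    rw [← h2, h1]
    have e : ∑ i, w i * Real.cos (k * θ i) * cval (θ i) X =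
        ∑ i, w i * cval (θ i) X * Real.cos (k * θ i) :=
      Finset.sum_congr rfl fun i _ => by ring
    rw [e]; ring

/-- Near-maximal mass: for every `δ > 0` there is a sequence in the class such that
`nrm r X ≤ 1` forces `X(β) X(1/β) ≤ 1 + δ`. -/
lemma near_max {t : ℝ} {r₀ : ℕ → ℤ} {p₀ : ℝ} (h₀ : IsSeq t r₀ p₀) {δ : ℝ} (hδ : 0 < δ) :
    ∃ (r : ℕ → ℤ) (p : ℝ), IsSeq t r p ∧ ∀ X : List ℤ, nrm r X ≤ 1 → hval t X ≤ 1 + δ := by
  set S : Set ℝ := {p | ∃ r, IsSeq t r p} with hS
  have hne : S.Nonempty := ⟨p₀, r₀, h₀⟩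
  have hbd : BddAbove S := ⟨1, fun p ⟨r, hr⟩ => hr.p_le⟩
  have hp0 : 0 < p₀ := h₀.1
  have hP : 0 < sSup S := lt_of_lt_of_le hp0 (le_csSup hbd ⟨r₀, h₀⟩)
  have hlt : sSup S / (1 + δ) < sSup S := by
    rw [div_lt_iff₀ (by linarith)]
    nlinarith
  obtain ⟨p, ⟨r, hr⟩, hpr⟩ := exists_lt_of_lt_csSup hne hlt
  refine ⟨r, p, hr, fun X hX => ?_⟩
  rw [div_lt_iff₀ (by linarith)] at hpr
  by_contra hcon
  push Not at hcon
  have hpos : 0 < hval t X := by linarith
  have hp : 0 < p := hr.1
  have hX1 : nrm r X = 1 := by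
    have h1 : 0 < nrm r X := by
      obtain ⟨_, h0, m, w, θ, hw, h⟩ := hr
      have h1 := nrm_eq h h0 X
      have h3 : 0 ≤ ∑ i, w i * cval (θ i) X :=
        Finset.sum_nonneg fun i _ => mul_nonneg (hw i) (cval_nonneg _ _)
      have h4 : (0 : ℝ) < nrm r X := by
        rw [h1]
        have : 0 < p * hval t X := by positivity
        linarith
      exact_mod_cast h4
    omega
  have h5 := le_csSup hbd ⟨_, hr.tw hX1 hpos⟩
  nlinarith

end Pool.Agent.MP1f45fc.T
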