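import Mathlib
import Pool.Agent.Lib.MP_1f45fc_nt.T.Core

set_option autoImplicit false

/-!
From a monic integer polynomial `R` with a monic integer interlacer `h` to a sequence of integer
Chebyshev moments.
-/

namespace Pool.Agent.MP1f45fc.T

open Polynomial

/-- Partial fractions of `h / R`: the weights are nonnegative. -/
lemma exists_weights (n : ℕ) (ρ : Fin (n + 1) → ℝ) (σ : Fin n → ℝ)
    (hint : ∀ i, ρ i.succ ≤ σ i ∧ σ i ≤ ρ i.castSucc) :
    ∃ w : Fin (n + 1) → ℝ, (∀ i, 0 ≤ w i) ∧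
      ∏ i, (X - C (σ i)) = ∑ i, C (w i) * ∏ j ∈ Finset.univ.erase i, (X - C (ρ j)) := by
  induction n with
  | zero =>
    refine ⟨fun _ => 1, fun _ => zero_le_one, ?_⟩
    simp
  | succ n ih =>
    obtain ⟨w, hw, he⟩ := ih (fun i => ρ i.succ) (fun i => σ i.succ) (fun i => hint i.succ)
    have hanti : Antitone ρ := by
      rw [Fin.antitone_iff_succ_le]
      exact fun i => (hint i).1.trans (hint i).2
    have hseg : ∀ i : Fin (n + 1), ∃ A B : ℝ, 0 ≤ A ∧ 0 ≤ B ∧ A + B = 1 ∧
        A * ρ 0 + B * ρ i.succ = σ 0 := by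
      intro i
      have h1 : ρ i.succ ≤ σ 0 := by
        have h2 : ρ i.succ ≤ ρ (Fin.succ 0) := hanti (Fin.succ_le_succ_iff.mpr (Fin.zero_le i))
        exact h2.trans (hint 0).1
      have h3 : σ 0 ≤ ρ 0 := (hint 0).2
      have h4 : σ 0 ∈ segment ℝ (ρ 0) (ρ i.succ) := by
        rw [segment_symm, segment_eq_Icc (h1.trans h3)]
        exact ⟨h1, h3⟩
      obtain ⟨A, B, hA, hB, hAB, h5⟩ := h4
      exact ⟨A, B, hA, hB, hAB, by simpa using h5⟩
    choose A B hA hB hAB hs using hseg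
    refine ⟨Fin.cons (∑ i, w i * B i) (fun i => w i * A i), ?_, ?_⟩
    · intro i
      refine Fin.cases ?_ (fun i => ?_) i
      · simp only [Fin.cons_zero]
        exact Finset.sum_nonneg fun i _ => mul_nonneg (hw i) (hB i)
      · simp only [Fin.cons_succ]
        exact mul_nonneg (hw i) (hA i)
    · have e0 : ∀ g : Fin (n + 2) → ℝ[X], ∏ j ∈ Finset.univ.erase (0 : Fin (n + 2)), g j =
          ∏ j : Fin (n + 1), g j.succ := by
        intro g
        rw [Fin.univ_succ, Finset.erase_cons, Finset.prod_map]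
        rfl
      have e1 : ∀ (g : Fin (n + 2) → ℝ[X]) (i : Fin (n + 1)),
          ∏ j ∈ Finset.univ.erase i.succ, g j =
          g 0 * ∏ j ∈ Finset.univ.erase i, g j.succ := by
        intro g i
        have h1 : (Finset.univ.erase i.succ : Finset (Fin (n + 2))) =
            Finset.cons 0 ((Finset.univ.erase i).map (Fin.succEmb (n + 1))) (by
              simp [Fin.succ_ne_zero]) := by
          ext j
          refine Fin.cases ?_ (fun j => ?_) j
          · simp [(Fin.succ_ne_zero i).symm]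
          · simp [Fin.succ_inj]
        rw [h1, Finset.prod_cons, Finset.prod_map]
        rfl
      have e2 : ∀ (g : Fin (n + 1) → ℝ[X]) (i : Fin (n + 1)), ∏ j, g j =
          g i * ∏ j ∈ Finset.univ.erase i, g j := fun g i =>
        (Finset.mul_prod_erase Finset.univ g (Finset.mem_univ i)).symm
      rw [Fin.prod_univ_succ, he]
      conv_rhs => rw [Fin.sum_univ_succ, e0 (fun j => X - C (ρ j))]
      simp only [Fin.cons_zero, Fin.cons_succ, e1 (fun j => X - C (ρ j))]
      rw [Finset.mul_sum, map_sum, Finset.sum_mul, ← Finset.sum_add_distrib]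
      refine Finset.sum_congr rfl fun i _ => ?_
      rw [e2 (fun j => X - C (ρ j.succ)) i]
      have h6 : (X - C (σ 0) : ℝ[X]) = C (A i) * (X - C (ρ 0)) + C (B i) * (X - C (ρ i.succ)) := by
        rw [← hs i]
        have h7 : (C (A i) + C (B i) : ℝ[X]) = 1 := by rw [← C_add, hAB i, C_1]
        simp only [C_add, C_mul]
        linear_combination (-X) * h7
      rw [h6]
      simp only [C_mul]
      ring

/-- The coefficient functional. -/
lemma coeff_modByMonic (n : ℕ) (ρ : Fin (n + 1) → ℝ) (p : ℝ[X]) (i : Fin (n + 1)) :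
    ((p * ∏ j ∈ Finset.univ.erase i, (X - C (ρ j))) %ₘ ∏ j, (X - C (ρ j))).coeff n =
      p.eval (ρ i) := by
  set Ri : ℝ[X] := ∏ j ∈ Finset.univ.erase i, (X - C (ρ j)) with hRi
  set R : ℝ[X] := ∏ j, (X - C (ρ j)) with hR
  have hRm : R.Monic := monic_prod_of_monic _ _ fun j _ => monic_X_sub_C (ρ j)
  have hRim : Ri.Monic := monic_prod_of_monic _ _ fun j _ => monic_X_sub_C (ρ j)
  have hRR : R = (X - C (ρ i)) * Ri :=
    (Finset.mul_prod_erase Finset.univ (fun j => (X - C (ρ j) : ℝ[X])) (Finset.mem_univ i)).symm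
  have hdi : Ri.natDegree = n := by
    rw [hRi, natDegree_prod_of_monic _ _ fun j _ => monic_X_sub_C (ρ j)]
    simp [Finset.card_erase_of_mem]
  have hd : R.natDegree = n + 1 := by
    rw [hRR, (monic_X_sub_C (ρ i)).natDegree_mul hRim, natDegree_X_sub_C, hdi]; ring
  have hp : p = C (p.eval (ρ i)) + (X - C (ρ i)) * (p /ₘ (X - C (ρ i))) := by
    have h1 := modByMonic_add_div p (X - C (ρ i))
    rw [modByMonic_X_sub_C_eq_C_eval] at h1
    exact h1.symm
  have h2 : p * Ri = C (p.eval (ρ i)) * Ri + R * (p /ₘ (X - C (ρ i))) := by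
    conv_lhs => rw [hp]
    rw [hRR]; ring
  rw [h2, add_modByMonic, self_mul_modByMonic hRm, add_zero]
  have h3 : (C (p.eval (ρ i)) * Ri) %ₘ R = C (p.eval (ρ i)) * Ri := by
    rw [modByMonic_eq_self_iff hRm]
    have h5 : (C (p.eval (ρ i)) * Ri).natDegree ≤ n := by
      refine (natDegree_C_mul_le _ _).trans ?_
      rw [hdi]
    refine lt_of_le_of_lt degree_le_natDegree ?_
    rw [degree_eq_natDegree hRm.ne_zero, hd]
    exact_mod_cast Nat.lt_succ_of_le h5
  rw [h3, coeff_C_mul]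
  have h4 : Ri.coeff n = 1 := by
    have := hRim.coeff_natDegree
    rwa [hdi] at this
  rw [h4, mul_one]

/-- The polynomials `x + 1/x ↦ x ^ k + x ^ (-k)`. -/
noncomputable def chP : ℕ → ℤ[X]
  | 0 => 2
  | 1 => X
  | (k + 2) => X * chP (k + 1) - chP k

lemma chP_cos (θ : ℝ) (k : ℕ) :
    ((chP k).map (Int.castRingHom ℝ)).eval (2 * Real.cos θ) = 2 * Real.cos (k * θ) := by
  induction k using Nat.twoStepInduction with
  | zero => simp [chP]
  | one => simp [chP]
  | more k h1 h2 =>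
    simp only [chP, Polynomial.map_sub, Polynomial.map_mul, map_X, eval_sub, eval_mul, eval_X, h1,
      h2]
    have e1 : ((k + 2 : ℕ) : ℝ) * θ = (k + 1 : ℕ) * θ + θ := by push_cast; ring
    have e2 : (k : ℝ) * θ = (k + 1 : ℕ) * θ - θ := by push_cast; ring
    rw [e1, e2, Real.cos_add, Real.cos_sub]
    ring

lemma chP_cosh (t : ℝ) (k : ℕ) :
    ((chP k).map (Int.castRingHom ℝ)).eval (2 * Real.cosh t) = 2 * Real.cosh (k * t) := by
  induction k using Nat.twoStepInduction with
  | zero => simp [chP]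
  | one => simp [chP]
  | more k h1 h2 =>
    simp only [chP, Polynomial.map_sub, Polynomial.map_mul, map_X, eval_sub, eval_mul, eval_X, h1,
      h2]
    have e1 : ((k + 2 : ℕ) : ℝ) * t = (k + 1 : ℕ) * t + t := by push_cast; ring
    have e2 : (k : ℝ) * t = (k + 1 : ℕ) * t - t := by push_cast; ring
    rw [e1, e2, Real.cosh_add, Real.cosh_sub]
    ring

/-- **The moments of an interlacing pair.** -/
theorem isSeq_of_interlace (R h : ℤ[X]) (n : ℕ) (ρ : Fin (n + 1) → ℝ) (σ : Fin n → ℝ)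
    (hR : R.map (Int.castRingHom ℝ) = ∏ i, (X - C (ρ i)))
    (hh : h.map (Int.castRingHom ℝ) = ∏ i, (X - C (σ i)))
    (hint : ∀ i, ρ i.succ ≤ σ i ∧ σ i ≤ ρ i.castSucc)
    (hγ : 2 < ρ 0) (hlow : ∀ i, -2 ≤ ρ i) (hup : ∀ i : Fin n, ρ i.succ ≤ 2)
    (hne : (h.map (Int.castRingHom ℝ)).eval (ρ 0) ≠ 0) :
    ∃ (t : ℝ) (r : ℕ → ℤ) (p : ℝ), 0 < t ∧ gam t = ρ 0 ∧ IsSeq t r p := by
  obtain ⟨w, hw, he⟩ := exists_weights n ρ σ hint
  have hRm' : (R.map (Int.castRingHom ℝ)).Monic := by
    rw [hR]; exact monic_prod_of_monic _ _ fun j _ => monic_X_sub_C (ρ j)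
  have hRm : R.Monic :=
    monic_of_injective (RingHom.injective_int (Int.castRingHom ℝ)) hRm'
  -- the moments
  have key : ∀ p : ℤ[X], ((((p * h) %ₘ R).coeff n : ℤ) : ℝ) =
      ∑ i, w i * (p.map (Int.castRingHom ℝ)).eval (ρ i) := by
    intro p
    have h1 : ((((p * h) %ₘ R).coeff n : ℤ) : ℝ) =
        (((p * h) %ₘ R).map (Int.castRingHom ℝ)).coeff n := by
      rw [coeff_map]; rfl
    rw [h1, map_modByMonic _ hRm, Polynomial.map_mul, hh, he, hR, Finset.mul_sum]
    have h2 : ∀ (s : Finset (Fin (n + 1))) (f : Fin (n + 1) → ℝ[X]),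
        ((∑ i ∈ s, f i) %ₘ ∏ j, (X - C (ρ j))).coeff n =
        ∑ i ∈ s, ((f i) %ₘ ∏ j, (X - C (ρ j))).coeff n := by
      intro s f
      induction s using Finset.induction_on with
      | empty => simp
      | insert a s ha ih => rw [Finset.sum_insert ha, Finset.sum_insert ha, add_modByMonic,
          coeff_add, ih]
    rw [h2]
    refine Finset.sum_congr rfl fun i _ => ?_
    rw [← coeff_modByMonic n ρ (p.map (Int.castRingHom ℝ)) i, ← smul_eq_mul (w i),
      ← coeff_smul, ← smul_modByMonic]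
    congr 2
    rw [← C_mul']
    ring
  have hw0 : 0 < w 0 := by
    refine lt_of_le_of_ne (hw 0) fun h0 => hne ?_
    rw [hh, he, eval_finsetSum]
    refine Finset.sum_eq_zero fun i _ => ?_
    rw [eval_mul, eval_C]
    refine Fin.cases ?_ (fun i => ?_) i
    · rw [← h0, zero_mul]
    · rw [eval_prod, Finset.prod_eq_zero (i := (0 : Fin (n + 1))), mul_zero]
      · simp [(Fin.succ_ne_zero i).symm]
      · simp
  have hcosh : 2 * Real.cosh (Real.arcosh (ρ 0 / 2)) = ρ 0 := by
    rw [Real.cosh_arcosh (by linarith)]; ring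
  have hcos : ∀ i : Fin n, 2 * Real.cos (Real.arccos (ρ i.succ / 2)) = ρ i.succ := by
    intro i
    rw [Real.cos_arccos (by linarith [hlow i.succ]) (by linarith [hup i])]; ring
  have hr : ∀ k, ((((chP k * h) %ₘ R).coeff n : ℤ) : ℝ) =
      2 * w 0 * Real.cosh (k * Real.arcosh (ρ 0 / 2)) +
        2 * ∑ i : Fin n, w i.succ * Real.cos (k * Real.arccos (ρ i.succ / 2)) := by
    intro k
    rw [key, Fin.sum_univ_succ]
    have h1 := chP_cosh (Real.arcosh (ρ 0 / 2)) k
    rw [hcosh] at h1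
    rw [h1, Finset.mul_sum]
    congr 1
    · ring
    · refine Finset.sum_congr rfl fun i _ => ?_
      have h2 := chP_cos (Real.arccos (ρ i.succ / 2)) k
      rw [hcos i] at h2
      rw [h2]; ring
  refine ⟨Real.arcosh (ρ 0 / 2), fun k => ((chP k * h) %ₘ R).coeff n, w 0,
    Real.arcosh_pos (by linarith), hcosh, hw0, ?_, n, fun i => w i.succ,
    fun i => Real.arccos (ρ i.succ / 2), fun i => hw _, hr⟩
  -- `r 0 = 2`
  have hhm : h.Monic := by
    refine monic_of_injective (RingHom.injective_int (Int.castRingHom ℝ)) ?_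
    rw [hh]; exact monic_prod_of_monic _ _ fun j _ => monic_X_sub_C (σ j)
  have hdR : R.natDegree = n + 1 := by
    rw [← natDegree_map_eq_of_injective (RingHom.injective_int (Int.castRingHom ℝ)) R, hR,
      natDegree_prod_of_monic _ _ fun j _ => monic_X_sub_C (ρ j)]
    simp
  have hdh : h.natDegree = n := by
    rw [← natDegree_map_eq_of_injective (RingHom.injective_int (Int.castRingHom ℝ)) h, hh,
      natDegree_prod_of_monic _ _ fun j _ => monic_X_sub_C (σ j)]
    simp
  have h3 : (chP 0 * h) %ₘ R = chP 0 * h := by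
    rw [modByMonic_eq_self_iff hRm]
    have h5 : (chP 0 * h).natDegree ≤ n := by
      have h6 : chP 0 = C 2 := rfl
      rw [h6]
      refine (natDegree_C_mul_le _ _).trans ?_
      rw [hdh]
    refine lt_of_le_of_lt degree_le_natDegree ?_
    rw [degree_eq_natDegree hRm.ne_zero, hdR]
    exact_mod_cast Nat.lt_succ_of_le h5
  have h6 : chP 0 = C 2 := rfl
  have h7 : h.coeff n = 1 := by
    have := hhm.coeff_natDegree
    rwa [hdh] at this
  simp only [h3]
  rw [h6, coeff_C_mul, h7, mul_one]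

end Pool.Agent.MP1f45fc.T
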