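import Mathlib
import Pool.Agent.Lib.MP_1f45fc_nt.T.Adapt
import Pool.Agent.Lib.MP_1f45fc_nt.T.Interlace

/-!
# The statement about interlacing polynomials from the bound for sequences
-/

set_option autoImplicit false

open Polynomial

namespace Pool.Agent.MP1f45fc.T

theorem final_of
    (hmain : ∀ T : ℝ, IsT T → ∀ (t : ℝ) (r : ℕ → ℤ) (p : ℝ), 0 < t → IsSeq t r p → T ≤ t)
    (n : ℕ) (x : Fin (n + 1) → ℝ) (y : Fin n → ℝ) (R h : ℤ[X])
    (hR : R.map (Int.castRingHom ℝ) = ∏ i, (X - C (x i)))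
    (hh : h.map (Int.castRingHom ℝ) = ∏ i, (X - C (y i)))
    (hxy : ∀ i, x i.castSucc ≤ y i ∧ y i ≤ x i.succ)
    (h2 : -2 ≤ x 0) (h3 : ∀ i : Fin n, x i.castSucc ≤ 2) (h4 : 2 < x (Fin.last n))
    (h5 : ∀ i, y i ≠ x (Fin.last n)) (b : ℝ) (hb : 1 < b) (hbg : b + b⁻¹ = x (Fin.last n)) :
    ∀ l : ℝ, 1 < l → l ^ 10 + l ^ 9 - l ^ 7 - l ^ 6 - l ^ 5 - l ^ 4 - l ^ 3 + l + 1 = 0 →
      l ≤ b := by
  intro l hl hroot
  have hb0 : 0 < b := by linarith
  have hmono : Monotone x := Fin.monotone_iff_le_succ.2 fun i => (hxy i).1.trans (hxy i).2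
  have e1 : (∏ i, (X - C (x i)) : ℝ[X]) = ∏ i, (X - C (x (Fin.rev i))) :=
    (Fintype.prod_equiv Fin.revPerm _ _ (fun i => by simp)).symm
  have e2 : (∏ i, (X - C (y i)) : ℝ[X]) = ∏ i, (X - C (y (Fin.rev i))) :=
    (Fintype.prod_equiv Fin.revPerm _ _ (fun i => by simp)).symm
  obtain ⟨t, r, p, ht, hg, hs⟩ := isSeq_of_interlace R h n (fun i => x (Fin.rev i))
    (fun i => y (Fin.rev i)) (by rw [hR, e1]) (by rw [hh, e2])
    (fun i => by
      have := hxy (Fin.rev i)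
      rw [Fin.rev_succ, Fin.rev_castSucc]
      exact this)
    (by simpa using h4)
    (fun i => h2.trans (hmono (Fin.zero_le _)))
    (fun i => by rw [Fin.rev_succ]; exact h3 _)
    (by
      rw [hh, eval_prod, Finset.prod_ne_zero_iff]
      intro i _
      rw [eval_sub, eval_X, eval_C, Fin.rev_zero, sub_ne_zero]
      exact (h5 i).symm)
  have hT := hmain (Real.log l) (isT_log hl hroot) t r p ht hs
  rw [Fin.rev_zero] at hg
  -- `b = exp t`
  have hbt : t = Real.log b := by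
    have h6 : gam (Real.log b) = b + b⁻¹ := by
      unfold gam
      rw [Real.cosh_eq, Real.exp_log hb0, Real.exp_neg, Real.exp_log hb0]
      ring
    have h7 : gam t = gam (Real.log b) := by rw [h6, hbg, hg]
    rcases lt_trichotomy t (Real.log b) with h8 | h8 | h8
    · exact absurd h7 (gam_lt ht.le h8).ne
    · exact h8
    · exact absurd h7 (gam_lt (Real.log_pos hb).le h8).ne'
  rw [hbt] at hT
  exact (Real.log_le_log_iff (by linarith) hb0).1 hT

end Pool.Agent.MP1f45fc.T
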