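import Mathlib
import Pool.Agent.Lib.MP_1f45fc_nt.T.Final
import Pool.Agent.Lib.MP_1f45fc_nt.T.Trees

/-!
# The bound for the sequences attached to interlacing polynomials
-/

set_option autoImplicit false

open Polynomial

namespace Pool.Agent.MP1f45fc.T

theorem seq_main (T : ℝ) (hT : IsT T) (t : ℝ) (r : ℕ → ℤ) (p : ℝ) (ht : 0 < t)
    (hr : IsSeq t r p) : T ≤ t :=
  reduce (W := 28) (D := 14) (Dc := TreeC.Dc) (by omega) (by omega) (tree_A hT) (tree_C hT)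
    (tree_B hT) (fun _ _ hm => hm.toGood.unb) ht hr

/-- Interlacing integer polynomials with one zero outside `[-2, 2]`. -/
theorem main (n : ℕ) (x : Fin (n + 1) → ℝ) (y : Fin n → ℝ) (R h : ℤ[X])
    (hR : R.map (Int.castRingHom ℝ) = ∏ i, (X - C (x i)))
    (hh : h.map (Int.castRingHom ℝ) = ∏ i, (X - C (y i)))
    (hxy : ∀ i, x i.castSucc ≤ y i ∧ y i ≤ x i.succ)
    (h2 : -2 ≤ x 0) (h3 : ∀ i : Fin n, x i.castSucc ≤ 2) (h4 : 2 < x (Fin.last n))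
    (h5 : ∀ i, y i ≠ x (Fin.last n)) (b : ℝ) (hb : 1 < b) (hbg : b + b⁻¹ = x (Fin.last n)) :
    ∀ l : ℝ, 1 < l → l ^ 10 + l ^ 9 - l ^ 7 - l ^ 6 - l ^ 5 - l ^ 4 - l ^ 3 + l + 1 = 0 →
      l ≤ b :=
  final_of seq_main n x y R h hR hh hxy h2 h3 h4 h5 b hb hbg

end Pool.Agent.MP1f45fc.T
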